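import Pool.Agent.H73.HS.Int
import Pool.Agent.H73.FW.Block

/-!
Anti-concentration of sums of independent random variables (an inequality of Esseen type).
-/

open Finset MeasureTheory
open scoped BigOperators

namespace Pool.Agent.H73.HS

open Pool.Agent.H73.FW Pool.Agent.H9.PRG

/-- Spread of a function at scale `s`. -/
noncomputable def spr {A : Type*} [Fintype A] (f : A → ℝ) (s : ℝ) : ℝ :=
  𝔼 a, 𝔼 b, min 1 (((f a - f b) / s) ^ 2)

lemma spr_nonneg {A : Type*} [Fintype A] [Nonempty A] (f : A → ℝ) (s : ℝ) : 0 ≤ spr f s :=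
  Finset.le_expect univ_nonempty fun a _ => Finset.le_expect univ_nonempty fun b _ => by positivity

lemma cont_expect {Ω : Type*} [Fintype Ω] (F : Ω → ℝ → ℝ) (hF : ∀ ω, Continuous (F ω)) :
    Continuous (fun w => 𝔼 ω, F ω w) := by
  simp only [Fintype.expect_eq_sum_div_card]
  exact (continuous_finsetSum _ fun ω _ => hF ω).div_const _

lemma expect_int {Ω : Type*} [Fintype Ω] (F : Ω → ℝ → ℝ) (hF : ∀ ω, Continuous (F ω)) {a b : ℝ} :
    𝔼 ω, ∫ w in a..b, F ω w = ∫ w in a..b, 𝔼 ω, F ω w := by
  simp only [Fintype.expect_eq_sum_div_card]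
  rw [intervalIntegral.integral_div,
    intervalIntegral.integral_finsetSum (fun ω _ => (hF ω).intervalIntegrable _ _)]

/-- The squared modulus of a characteristic function. -/
lemma char_sq {Ω : Type*} [Fintype Ω] (F : Ω → ℝ) :
    𝔼 x, 𝔼 y, Real.cos (F x - F y) = ‖𝔼 x, Complex.exp (F x * Complex.I)‖ ^ 2 := by
  have hre : (𝔼 x, Complex.exp (F x * Complex.I)).re = 𝔼 x, Real.cos (F x) := by
    rw [Complex.re_expect]
    exact Finset.expect_congr rfl fun x _ => Complex.exp_ofReal_mul_I_re _
  have him : (𝔼 x, Complex.exp (F x * Complex.I)).im = 𝔼 x, Real.sin (F x) := by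
    rw [Fintype.expect_eq_sum_div_card, Fintype.expect_eq_sum_div_card, Complex.div_natCast_im,
      Complex.im_sum]
    congr 1
    exact Finset.sum_congr rfl fun x _ => Complex.exp_ofReal_mul_I_im _
  rw [← Complex.normSq_eq_norm_sq, Complex.normSq_apply, hre, him]
  simp only [Real.cos_sub, Finset.expect_add_distrib, ← Finset.mul_expect, ← Finset.expect_mul]

section

variable {A : Type*} [Fintype A] [Nonempty A]

omit [Nonempty A] in
lemma char_prod {M : ℕ} (f : Fin M → A → ℝ) :
    𝔼 u : Fin M → A, 𝔼 v : Fin M → A, Real.cos (∑ j, f j (u j) - ∑ j, f j (v j)) =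
      ∏ j, 𝔼 a, 𝔼 b, Real.cos (f j a - f j b) := by
  rw [char_sq (fun u : Fin M → A => ∑ j, f j (u j))]
  have h1 : ∀ u : Fin M → A, Complex.exp (((∑ j, f j (u j) : ℝ) : ℂ) * Complex.I) =
      ∏ j, Complex.exp ((f j (u j) : ℂ) * Complex.I) := by
    intro u
    rw [← Complex.exp_sum, ← Finset.sum_mul]
    push_cast
    rfl
  simp only [h1]
  rw [expect_pi_prod (fun j a => Complex.exp ((f j a : ℂ) * Complex.I)), norm_prod,
    ← Finset.prod_pow]
  exact Finset.prod_congr rfl fun j _ => (char_sq (f j)).symm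

omit [Nonempty A] in
lemma char_nonneg (f : A → ℝ) : 0 ≤ 𝔼 a, 𝔼 b, Real.cos (f a - f b) := by
  rw [char_sq]; positivity

lemma bet_anti {D D' : ℝ} (hD : 0 < D) (h : D ≤ D') : bet D' ≤ bet D := by
  unfold bet
  have hπ := Real.pi_pos
  apply mul_le_mul_of_nonneg_left _ (by norm_num)
  apply Real.sqrt_le_sqrt
  gcongr

/-- The integral of the squared characteristic function. -/
lemma int_char {M : ℕ} (f : Fin M → A → ℝ) (s : ℝ) (hs : 0 < s) (D : ℝ) (hD : 0 < D)
    (hf : D ≤ ∑ j, spr (f j) s) :
    ∫ w in (0 : ℝ)..1, ∏ j, 𝔼 a, 𝔼 b, Real.cos (w * ((f j a - f j b) / s)) ≤ bet D := by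
  classical
  set N : ℝ := (Fintype.card A : ℝ) with hN
  have hN0 : 0 < N := by rw [hN]; exact_mod_cast Fintype.card_pos
  -- index set
  set x : Fin M × A × A → ℝ := fun i => (f i.1 i.2.1 - f i.1 i.2.2) / s with hx
  set wt : Fin M × A × A → ℝ := fun i => min 1 (x i ^ 2) / N ^ 2 with hwt
  have hwt0 : ∀ i, 0 ≤ wt i := fun i => by simp only [hwt]; positivity
  have hexp : ∀ F : A → A → ℝ, 𝔼 a, 𝔼 b, F a b = ∑ y : A × A, F y.1 y.2 / N ^ 2 := by
    intro F
    rw [Fintype.sum_prod_type, Fintype.expect_eq_sum_div_card, Finset.sum_div]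
    refine Finset.sum_congr rfl fun a _ => ?_
    rw [Fintype.expect_eq_sum_div_card, Finset.sum_div, Finset.sum_div]
    refine Finset.sum_congr rfl fun b _ => ?_
    rw [← hN]
    field_simp
  set D0 := ∑ j, spr (f j) s with hD0
  have hD0pos : 0 < D0 := hD.trans_le hf
  have hsum : ∑ i, wt i = D0 := by
    rw [Fintype.sum_prod_type, hD0]
    refine Finset.sum_congr rfl fun j _ => ?_
    unfold spr
    rw [hexp]
  -- the exponent
  set h : Fin M × A × A → ℝ → ℝ := fun i w => (1 - Real.cos (w * x i)) / min 1 (x i ^ 2) with hh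
  have hpt : ∀ w : ℝ, ∏ j, 𝔼 a, 𝔼 b, Real.cos (w * ((f j a - f j b) / s)) ≤
      ∑ i, wt i / D0 * Real.exp (-(D0 * h i w)) := by
    intro w
    have h1 : ∏ j, 𝔼 a, 𝔼 b, Real.cos (w * ((f j a - f j b) / s)) ≤
        Real.exp (-∑ j, ∑ y : A × A, (1 - Real.cos (w * x (j, y))) / N ^ 2) := by
      rw [← Finset.sum_neg_distrib, Real.exp_sum]
      apply Finset.prod_le_prod
      · intro j _
        have := char_nonneg (fun a => w * (f j a / s))
        refine this.trans (le_of_eq ?_)
        refine Finset.expect_congr rfl fun a _ => Finset.expect_congr rfl fun b _ => ?_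
        congr 1; ring
      · intro j _
        have h2 : ∑ y : A × A, (1 - Real.cos (w * x (j, y))) / N ^ 2 =
            1 - 𝔼 a, 𝔼 b, Real.cos (w * ((f j a - f j b) / s)) := by
          rw [hexp, Finset.sum_congr rfl (fun y _ => sub_div _ _ _), Finset.sum_sub_distrib]
          congr 1
          rw [Finset.sum_const, Finset.card_univ, Fintype.card_prod, nsmul_eq_mul]
          push_cast
          rw [← hN]
          field_simp
        rw [h2]
        have := Real.add_one_le_exp (-(1 - 𝔼 a, 𝔼 b, Real.cos (w * ((f j a - f j b) / s))))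
        linarith
    refine h1.trans ?_
    have h2 : -∑ j, ∑ y : A × A, (1 - Real.cos (w * x (j, y))) / N ^ 2 =
        ∑ i, (wt i / D0) • (-(D0 * h i w)) := by
      rw [Fintype.sum_prod_type, ← Finset.sum_neg_distrib]
      refine Finset.sum_congr rfl fun j _ => ?_
      rw [← Finset.sum_neg_distrib]
      refine Finset.sum_congr rfl fun y _ => ?_
      simp only [hwt, hh, smul_eq_mul]
      by_cases h0 : x (j, y) = 0
      · rw [h0]; simp
      · have : 0 < min 1 (x (j, y) ^ 2) := lt_min one_pos (by positivity)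
        field_simp
    rw [h2]
    have hJ := convexOn_exp.map_sum_le (t := (univ : Finset (Fin M × A × A)))
      (w := fun i => wt i / D0) (p := fun i => -(D0 * h i w))
      (fun i _ => div_nonneg (hwt0 i) hD0pos.le)
      (by rw [← Finset.sum_div, hsum, div_self hD0pos.ne']) (fun i _ => Set.mem_univ _)
    refine hJ.trans (le_of_eq ?_)
    exact Finset.sum_congr rfl fun i _ => by rw [smul_eq_mul]
  have hcont : ∀ i, Continuous (fun w => wt i / D0 * Real.exp (-(D0 * h i w))) := by
    intro i
    simp only [hh]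
    fun_prop
  have hint : ∫ w in (0 : ℝ)..1, ∏ j, 𝔼 a, 𝔼 b, Real.cos (w * ((f j a - f j b) / s)) ≤
      ∫ w in (0 : ℝ)..1, ∑ i, wt i / D0 * Real.exp (-(D0 * h i w)) := by
    apply intervalIntegral.integral_mono_on (by norm_num)
    · apply Continuous.intervalIntegrable
      simp only [Fintype.expect_eq_sum_div_card]
      fun_prop
    · apply Continuous.intervalIntegrable
      exact continuous_finsetSum _ fun i _ => hcont i
    · intro w _; exact hpt w
  refine hint.trans ?_
  rw [intervalIntegral.integral_finsetSum (fun i _ => (hcont i).intervalIntegrable _ _)]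
  calc ∑ i, ∫ w in (0 : ℝ)..1, wt i / D0 * Real.exp (-(D0 * h i w)) ≤ ∑ i, wt i / D0 * bet D0 := by
        refine Finset.sum_le_sum fun i _ => ?_
        rw [intervalIntegral.integral_const_mul]
        by_cases h0 : x i = 0
        · have : wt i = 0 := by simp only [hwt, h0]; simp
          rw [this]; simp
        · exact mul_le_mul_of_nonneg_left (int_bound D0 (x i) hD0pos h0)
            (div_nonneg (hwt0 i) hD0pos.le)
    _ = bet D0 := by
        rw [← Finset.sum_mul, ← Finset.sum_div, hsum, div_self hD0pos.ne', one_mul]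
    _ ≤ bet D := bet_anti hD hf

/-- Anti-concentration, for functions on a finite power. -/
lemma anti_fin {M : ℕ} (f : Fin M → A → ℝ) (s : ℝ) (hs : 0 < s) (D : ℝ) (hD : 0 < D)
    (hf : D ≤ ∑ j, spr (f j) s) (x0 : ℝ) :
    (𝔼 u : Fin M → A, (if x0 ≤ ∑ j, f j (u j) ∧ ∑ j, f j (u j) < x0 + s then (1 : ℝ) else 0)) ^ 2 ≤
      4 * bet D := by
  classical
  set S : (Fin M → A) → ℝ := fun u => ∑ j, f j (u j) with hS
  set I : (Fin M → A) → ℝ := fun u => if x0 ≤ S u ∧ S u < x0 + s then (1 : ℝ) else 0 with hI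
  have hI0 : ∀ u, 0 ≤ I u := fun u => by simp only [hI]; split_ifs <;> norm_num
  have h1 : (𝔼 u, I u) ^ 2 = 𝔼 u, 𝔼 v, I u * I v := by
    rw [sq]
    simp only [← Finset.mul_expect, ← Finset.expect_mul]
  have h2 : ∀ u v, I u * I v ≤ 2 * fej ((S u - S v) / s) := by
    intro u v
    by_cases hu : x0 ≤ S u ∧ S u < x0 + s
    · by_cases hv : x0 ≤ S v ∧ S v < x0 + s
      · have h3 : |(S u - S v) / s| ≤ 1 := by
          rw [abs_div, abs_of_pos hs, div_le_one hs, abs_le]
          constructor <;> linarith [hu.1, hu.2, hv.1, hv.2]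
        have h4 := fej_ge _ h3
        simp only [hI, hu, hv, and_self, if_true]
        linarith
      · have : I v = 0 := by simp only [hI, hv, if_false]
        rw [this, mul_zero]
        have := fej_nonneg ((S u - S v) / s)
        linarith
    · have : I u = 0 := by simp only [hI, hu, if_false]
      rw [this, zero_mul]
      have := fej_nonneg ((S u - S v) / s)
      linarith
  have h3 : 𝔼 u, 𝔼 v, I u * I v ≤ 2 * 𝔼 u, 𝔼 v, fej ((S u - S v) / s) := by
    rw [Finset.mul_expect]
    refine Finset.expect_le_expect fun u _ => ?_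
    rw [Finset.mul_expect]
    exact Finset.expect_le_expect fun v _ => h2 u v
  have h4 : 𝔼 u, 𝔼 v, fej ((S u - S v) / s) =
      ∫ w in (0 : ℝ)..1, 2 * (1 - w) * ∏ j, 𝔼 a, 𝔼 b, Real.cos (w * ((f j a - f j b) / s)) := by
    have e1 : ∀ w : ℝ, ∏ j, 𝔼 a, 𝔼 b, Real.cos (w * ((f j a - f j b) / s)) =
        𝔼 u : Fin M → A, 𝔼 v : Fin M → A, Real.cos (w * ((S u - S v) / s)) := by
      intro w
      have := char_prod (fun (j : Fin M) a => w * (f j a / s))
      have e2 : ∏ j : Fin M, 𝔼 a, 𝔼 b, Real.cos (w * ((f j a - f j b) / s)) =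
          ∏ j : Fin M, 𝔼 a, 𝔼 b, Real.cos (w * (f j a / s) - w * (f j b / s)) := by
        refine Finset.prod_congr rfl fun j _ => Finset.expect_congr rfl fun a _ =>
          Finset.expect_congr rfl fun b _ => ?_
        congr 1; ring
      rw [e2, ← this]
      refine Finset.expect_congr rfl fun u _ => Finset.expect_congr rfl fun v _ => ?_
      congr 1
      rw [← Finset.mul_sum, ← Finset.mul_sum, ← Finset.sum_div, ← Finset.sum_div]
      simp only [hS]
      ring
    simp only [e1, Finset.mul_expect]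
    rw [← expect_int _ (fun u => cont_expect _ fun v => by fun_prop)]
    refine Finset.expect_congr rfl fun u _ => ?_
    rw [← expect_int _ (fun v => by fun_prop)]
    rfl
  have h5 : ∫ w in (0 : ℝ)..1, 2 * (1 - w) * ∏ j, 𝔼 a, 𝔼 b, Real.cos (w * ((f j a - f j b) / s)) ≤
      2 * bet D := by
    have h6 : ∫ w in (0 : ℝ)..1, 2 * (1 - w) * ∏ j, 𝔼 a, 𝔼 b, Real.cos (w * ((f j a - f j b) / s)) ≤
        ∫ w in (0 : ℝ)..1, 2 * ∏ j, 𝔼 a, 𝔼 b, Real.cos (w * ((f j a - f j b) / s)) := by
      apply intervalIntegral.integral_mono_on (by norm_num)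
      · apply Continuous.intervalIntegrable
        simp only [Fintype.expect_eq_sum_div_card]
        fun_prop
      · apply Continuous.intervalIntegrable
        simp only [Fintype.expect_eq_sum_div_card]
        fun_prop
      · intro w hw
        apply mul_le_mul_of_nonneg_right
        · linarith [hw.1]
        · apply Finset.prod_nonneg
          intro j _
          have := char_nonneg (fun a => w * (f j a / s))
          refine this.trans (le_of_eq ?_)
          refine Finset.expect_congr rfl fun a _ => Finset.expect_congr rfl fun b _ => ?_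
          congr 1; ring
    refine h6.trans ?_
    rw [intervalIntegral.integral_const_mul]
    exact mul_le_mul_of_nonneg_left (int_char f s hs D hD hf) (by norm_num)
  calc (𝔼 u, I u) ^ 2 ≤ 2 * 𝔼 u, 𝔼 v, fej ((S u - S v) / s) := by rw [h1]; exact h3
    _ ≤ 2 * (2 * bet D) := by rw [h4]; exact mul_le_mul_of_nonneg_left h5 (by norm_num)
    _ = 4 * bet D := by ring

end

end Pool.Agent.H73.HS
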