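import Pool.Agent.H73.HS.Steps

/-!
Machines whose control state changes rarely, depending on comparisons of the registers.
-/

open Finset
open scoped BigOperators

namespace Pool.Agent.H73.HS

open Pool.Agent.H73.FW

/-- One step of a machine with control set `V` and `m` registers: event, new control state,
thresholds of the comparisons, operations on the registers. -/
structure St (V : Type) (m : ℕ) where
  /-- the control state may change -/
  evt : V → Prop
  /-- new control state, in terms of the outcomes of the comparisons -/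
  nxt : V → (Fin m → Bool) → V
  /-- thresholds -/
  thr : V → Fin m → ℝ
  /-- operations on the registers -/
  op : V → Fin m → Prop × ℝ

section

variable {A : Type*} {V : Type} {m : ℕ}

/-- The value of a run of `d` steps from step `t` on, if at most `i` events are allowed. -/
noncomputable def run (D : ℕ → A → St V m) (q : V → (Fin m → Bool) → ℝ) (thF : V → Fin m → ℝ)
    (μ : ℕ → ℕ) (X : ℕ → A) : ℕ → ℕ → ℕ → V → (Fin m → ℝ) → ℝ
  | 0, _, _, v, r => open Classical in q v (fun k => decide (thF v k ≤ r k))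
  | d + 1, i, t, v, r => open Classical in
      if (D t (X (μ t))).evt v then
        if i = 0 then 1
        else run D q thF μ X d (i - 1) (t + 1)
          ((D t (X (μ t))).nxt v (fun k => decide ((D t (X (μ t))).thr v k ≤ r k)))
          (fun k => app ((D t (X (μ t))).op v k) (r k))
      else run D q thF μ X d i (t + 1) v (fun k => app ((D t (X (μ t))).op v k) (r k))

variable (D : ℕ → A → St V m) (q : V → (Fin m → Bool) → ℝ) (thF : V → Fin m → ℝ) (μ : ℕ → ℕ)

lemma run_nonneg (hq0 : ∀ v σ, 0 ≤ q v σ) (X : ℕ → A) : ∀ d i t v r, 0 ≤ run D q thF μ X d i t v r := by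
  intro d
  induction d with
  | zero => intro i t v r; rw [run]; exact hq0 _ _
  | succ d ih =>
    intro i t v r
    rw [run]
    split_ifs
    · exact zero_le_one
    · exact ih _ _ _ _
    · exact ih _ _ _ _

lemma run_le_one (hq1 : ∀ v σ, q v σ ≤ 1) (X : ℕ → A) : ∀ d i t v r, run D q thF μ X d i t v r ≤ 1 := by
  intro d
  induction d with
  | zero => intro i t v r; rw [run]; exact hq1 _ _
  | succ d ih =>
    intro i t v r
    rw [run]
    split_ifs
    · exact le_rfl
    · exact ih _ _ _ _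
    · exact ih _ _ _ _

lemma run_congr {D' : ℕ → A → St V m} {X Y : ℕ → A} : ∀ d i t v r,
    (∀ s, t ≤ s → s < t + d → D s (X (μ s)) = D' s (Y (μ s))) →
    run D q thF μ X d i t v r = run D' q thF μ Y d i t v r := by
  intro d
  induction d with
  | zero => intro i t v r _; rfl
  | succ d ih =>
    intro i t v r h
    rw [run, run, h t le_rfl (by omega)]
    have h1 : ∀ s, t + 1 ≤ s → s < t + 1 + d → D s (X (μ s)) = D' s (Y (μ s)) :=
      fun s h2 h3 => h s (by omega) (by omega)
    rw [ih _ _ _ _ h1, ih _ _ _ _ h1]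

/-- Continuation of a register program. -/
def ext (p : ℕ → A → Prop × ℝ) (v : V) (t0 : ℕ) (k : Fin m) (t : ℕ) (a : A) : Prop × ℝ :=
  if t < t0 then p t a else (D t a).op v k

lemma run_skip (b : Fin m → ℝ) (p : Fin m → ℕ → A → Prop × ℝ) (v : V) (t0 : ℕ) (X : ℕ → A)
    (i d2 : ℕ) : ∀ d1 s, t0 ≤ s →
    (∀ t, s ≤ t → t < s + d1 → ¬ (D t (X (μ t))).evt v) →
    run D q thF μ X (d1 + d2) i s v (fun k => sv (b k) (ext D (p k) v t0 k) μ X s) =
      run D q thF μ X d2 i (s + d1) v (fun k => sv (b k) (ext D (p k) v t0 k) μ X (s + d1)) := by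
  intro d1
  induction d1 with
  | zero => intro s _ _; rw [Nat.zero_add, Nat.add_zero]
  | succ d1 ih =>
    intro s hs h
    rw [show d1 + 1 + d2 = (d1 + d2) + 1 by ring, run, if_neg (h s le_rfl (by omega))]
    have h1 : (fun k => app ((D s (X (μ s))).op v k) (sv (b k) (ext D (p k) v t0 k) μ X s)) =
        fun k => sv (b k) (ext D (p k) v t0 k) μ X (s + 1) := by
      funext k
      rw [sv, ext, if_neg (by omega)]
    rw [h1, ih (s + 1) (by omega) (fun t h2 h3 => h t (by omega) (by omega))]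
    rw [show s + 1 + d1 = s + (d1 + 1) by ring]

lemma sv_ext (b : ℝ) (p : ℕ → A → Prop × ℝ) (v : V) (t0 : ℕ) (k : Fin m) (X : ℕ → A) :
    sv b (ext D p v t0 k) μ X t0 = sv b p μ X t0 := by
  apply sv_congr
  intro t ht
  rw [ext, if_pos ht]

end

section

variable {A : Type*}

/-- A register program which is stopped at time `T`. -/
def trn (T : ℕ) (p : ℕ → A → Prop × ℝ) (t : ℕ) (a : A) : Prop × ℝ :=
  if t < T then p t a else (False, 0)

lemma sv_trn (b : ℝ) (p : ℕ → A → Prop × ℝ) (μ : ℕ → ℕ) (X : ℕ → A) (T : ℕ) : ∀ d,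
    sv b (trn T p) μ X (T + d) = sv b p μ X T := by
  intro d
  induction d with
  | zero =>
    apply sv_congr
    intro t ht
    rw [trn, if_pos (by omega)]
  | succ d ih =>
    rw [← Nat.add_assoc, sv, ih, trn, if_neg (by omega)]
    unfold app
    simp

/-- Freezing one block. -/
def fzs {β : Type*} (μ : ℕ → ℕ) (j : ℕ) (a : A) (F : ℕ → A → β) (t : ℕ) (x : A) : β :=
  F t (if μ t = j then a else x)

lemma fzs_self {β : Type*} (μ : ℕ → ℕ) (j : ℕ) (F : ℕ → A → β) (X : ℕ → A) (t : ℕ) :
    fzs μ j (X j) F t (X (μ t)) = F t (X (μ t)) := by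
  unfold fzs
  split_ifs with h
  · rw [h]
  · rfl

lemma fzs_dep {β : Type*} (μ : ℕ → ℕ) (j : ℕ) (a : A) (F : ℕ → A → β) (X Y : ℕ → A)
    (H : ∀ l ∈ {l | l ≠ j}, X l = Y l) (t : ℕ) : fzs μ j a F t (X (μ t)) = fzs μ j a F t (Y (μ t)) := by
  unfold fzs
  split_ifs with h
  · rfl
  · rw [H (μ t) h]

open Classical in
/-- Expansion in terms of the outcomes of comparisons. -/
lemma sum_sg {m : ℕ} (F : (Fin m → Bool) → ℝ) (θ s : Fin m → ℝ) :
    F (fun k => decide (θ k ≤ s k)) = ∑ σ : Fin m → Bool, (∏ k, sg (σ k) (θ k) (s k)) * F σ := by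
  rw [Finset.sum_eq_single (fun k => decide (θ k ≤ s k))]
  · rw [Finset.prod_eq_one, one_mul]
    intro k _
    unfold sg
    by_cases h : θ k ≤ s k
    · simp [h]
    · simp [h, lt_of_not_ge h]
  · intro σ _ hσ
    have : ∃ k, σ k ≠ decide (θ k ≤ s k) := by
      by_contra h
      push Not at h
      exact hσ (funext h)
    obtain ⟨k, hk⟩ := this
    rw [Finset.prod_eq_zero (mem_univ k), zero_mul]
    unfold sg
    by_cases h : θ k ≤ s k
    · have h2 : σ k = false := by simpa [h] using hk
      simp [h2, not_lt.mpr h]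
    · have h2 : σ k = true := by simpa [h] using hk
      simp [h2, h]
  · intro h; exact absurd (mem_univ _) h

variable {V : Type} {m : ℕ}

/-- The functions for which upper bounds are constructed. -/
noncomputable def Phi {N : ℕ} (M : ℕ) (ex : ℕ → A → Prop) (n : ℕ) (μ : ℕ → ℕ)
    (bc : Fin N → ℝ) (pc : Fin N → ℕ → A → Prop × ℝ) (σc : Fin N → Bool) (θc : Fin N → ℝ)
    (D : ℕ → A → St V m) (q : V → (Fin m → Bool) → ℝ) (thF : V → Fin m → ℝ)
    (b : Fin m → ℝ) (p : Fin m → ℕ → A → Prop × ℝ) (t0 i : ℕ) (v : V) (X : ℕ → A) : ℝ :=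
  Qp M ex n μ bc pc σc θc X *
    run D q thF μ X (n - t0) i t0 v (fun k => sv (b k) (p k) μ X t0)

lemma Qp_nonneg {N : ℕ} (M : ℕ) (ex : ℕ → A → Prop) (n : ℕ) (μ : ℕ → ℕ) (b : Fin N → ℝ)
    (p : Fin N → ℕ → A → Prop × ℝ) (σ : Fin N → Bool) (θ : Fin N → ℝ) (X : ℕ → A) :
    0 ≤ Qp M ex n μ b p σ θ X :=
  mul_nonneg (P0_nonneg _) (Finset.prod_nonneg fun i _ => sg_nonneg _ _ _)

lemma Qp_le_one {N : ℕ} (M : ℕ) (ex : ℕ → A → Prop) (n : ℕ) (μ : ℕ → ℕ) (b : Fin N → ℝ)
    (p : Fin N → ℕ → A → Prop × ℝ) (σ : Fin N → Bool) (θ : Fin N → ℝ) (X : ℕ → A) :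
    Qp M ex n μ b p σ θ X ≤ 1 := by
  unfold Qp
  have h1 : P0 (cnt ex 0 M X) ≤ 1 := by unfold P0; split_ifs <;> norm_num
  have h2 : ∏ i, sg (σ i) (θ i) (sv (b i) (p i) μ X n) ≤ 1 :=
    Finset.prod_le_one (fun i _ => sg_nonneg _ _ _) (fun i _ => sg_le_one _ _ _)
  exact mul_le_one₀ h1 (Finset.prod_nonneg fun i _ => sg_nonneg _ _ _) h2

end

/-- Upper bounds exist for machines with at most `i` more events. -/
def ClA (m i : ℕ) : Prop :=
  ∀ (N : ℕ) (H ε : ℝ), 0 < ε → ∃ k : ℕ, ∀ (A : Type) [Fintype A] [Nonempty A]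
    (M : ℕ) (ex : ℕ → A → Prop) (n : ℕ) (μ : ℕ → ℕ) (V : Type)
    (bc : Fin N → ℝ) (pc : Fin N → ℕ → A → Prop × ℝ) (σc : Fin N → Bool) (θc : Fin N → ℝ)
    (D : ℕ → A → St V m) (q : V → (Fin m → Bool) → ℝ) (thF : V → Fin m → ℝ)
    (b : Fin m → ℝ) (p : Fin m → ℕ → A → Prop × ℝ) (t0 : ℕ) (v : V),
    Monotone μ → (∀ t < n, μ t < M) → ∑ j ∈ range M, haz ex j ≤ H → t0 ≤ n →
    (∀ v σ, 0 ≤ q v σ) → (∀ v σ, q v σ ≤ 1) →
    ∃ g ∈ Jun A M k, (∀ X, Phi M ex n μ bc pc σc θc D q thF b p t0 i v X ≤ g X) ∧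
      E M g ≤ E M (Phi M ex n μ bc pc σc θc D q thF b p t0 i v) + ε

/-- Splitting the comparisons. -/
lemma Qp_append {A : Type*} {N m : ℕ} (M : ℕ) (ex : ℕ → A → Prop) (n : ℕ) (μ : ℕ → ℕ)
    (b : Fin N → ℝ) (p : Fin N → ℕ → A → Prop × ℝ) (σ : Fin N → Bool) (θ : Fin N → ℝ)
    (b' : Fin m → ℝ) (p' : Fin m → ℕ → A → Prop × ℝ) (σ' : Fin m → Bool) (θ' : Fin m → ℝ)
    (X : ℕ → A) :
    Qp M ex n μ (Fin.append b b') (Fin.append p p') (Fin.append σ σ') (Fin.append θ θ') X =
      Qp M ex n μ b p σ θ X * ∏ k, sg (σ' k) (θ' k) (sv (b' k) (p' k) μ X n) := by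
  unfold Qp
  rw [Fin.prod_univ_add]
  simp only [Fin.append_left, Fin.append_right]
  ring

/-- The union bound for hazards. -/
lemma haz_or {A : Type*} [Fintype A] (r s : ℕ → A → Prop) (l : ℕ) :
    haz (fun l x => r l x ∨ s l x) l ≤ haz r l + haz s l := by
  unfold haz
  rw [← Finset.expect_add_distrib]
  refine Finset.expect_le_expect fun x _ => ?_
  have h4 := ind_nonneg r l x
  have h5 := ind_nonneg s l x
  by_cases h6 : r l x ∨ s l x
  · have h7 : ind (fun l x => r l x ∨ s l x) l x = 1 := by unfold ind; rw [if_pos h6]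
    rw [h7]
    rcases h6 with h6 | h6
    · have : ind r l x = 1 := by unfold ind; rw [if_pos h6]
      linarith
    · have : ind s l x = 1 := by unfold ind; rw [if_pos h6]
      linarith
  · have h7 : ind (fun l x => r l x ∨ s l x) l x = 0 := by unfold ind; rw [if_neg h6]
    rw [h7]
    linarith

lemma haz_fz {A : Type*} [Fintype A] [Nonempty A] (M : ℕ) (ex : ℕ → A → Prop) (H : ℝ)
    (hex : ∑ j ∈ range M, haz ex j ≤ H) (j : ℕ) (a : A) :
    ∑ l ∈ range M, haz (fz j a ex) l ≤ H + 1 := by
  have h1 : ∀ l, haz (fz j a ex) l ≤ haz ex l + if l = j then 1 else 0 := by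
    intro l
    by_cases hl : l = j
    · rw [if_pos hl]
      have := haz_le_one (fz j a ex) l
      have := haz_nonneg ex l
      linarith
    · rw [if_neg hl, add_zero]
      apply le_of_eq
      have e : fz j a ex l = ex l := by funext x; unfold fz; rw [if_neg hl]
      unfold haz ind
      rw [e]
  refine (Finset.sum_le_sum fun l _ => h1 l).trans ?_
  rw [Finset.sum_add_distrib, Finset.sum_ite_eq']
  have : (if j ∈ range M then (1 : ℝ) else 0) ≤ 1 := by split_ifs <;> norm_num
  linarith

theorem clA_step (m i : ℕ) (hi : i = 0 ∨ ∃ i', i = i' + 1 ∧ ClA m i') : ClA m i := by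
  classical
  intro N H ε hε
  -- parameters
  obtain ⟨C, hC1, hC2⟩ : ∃ C : ℝ, 0 ≤ C ∧ Real.exp (-(C - 1)) ≤ ε / 4 := by
    refine ⟨1 + max 0 (-Real.log (ε / 4)), by positivity, ?_⟩
    have h1 : Real.exp (Real.log (ε / 4)) = ε / 4 := Real.exp_log (by positivity)
    rw [← h1]
    apply Real.exp_le_exp.mpr
    rw [h1]
    have := le_max_right 0 (-Real.log (ε / 4))
    linarith
  obtain ⟨t, ht⟩ := exists_small_pow (Real.exp (2 * C)) (ε / 4) (by positivity)
  set ε1 : ℝ := ε / (4 * (C + 1)) with hε1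
  have hε1p : 0 < ε1 := by positivity
  have hCε : C * ε1 ≤ ε / 4 := by
    rw [hε1, mul_div_assoc', div_le_div_iff₀ (by positivity) (by norm_num)]
    nlinarith
  set w : ℝ := (2 : ℝ) ^ m with hw
  have hw0 : 0 < w := by positivity
  have hcard : ((#(univ : Finset (Fin m → Bool)) : ℕ) : ℝ) = w := by
    rw [Finset.card_univ, Fintype.card_fun, Fintype.card_bool, Fintype.card_fin]
    push_cast
    rfl
  -- bounds after an event
  have hafter : ∃ k1 : ℕ, ∀ (A : Type) [Fintype A] [Nonempty A]
      (M : ℕ) (ex : ℕ → A → Prop) (n : ℕ) (μ : ℕ → ℕ) (V : Type)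
      (bc : Fin N → ℝ) (pc : Fin N → ℕ → A → Prop × ℝ) (σc : Fin N → Bool) (θc : Fin N → ℝ)
      (D : ℕ → A → St V m) (q : V → (Fin m → Bool) → ℝ) (thF : V → Fin m → ℝ)
      (b : Fin m → ℝ) (p : Fin m → ℕ → A → Prop × ℝ) (t1 : ℕ) (nx : (Fin m → Bool) → V)
      (th : Fin m → ℝ),
      Monotone μ → (∀ t < n, μ t < M) → ∑ j ∈ range M, haz ex j ≤ H + 1 + C → t1 < n →
      (∀ v σ, 0 ≤ q v σ) → (∀ v σ, q v σ ≤ 1) →
      ∃ g ∈ Jun A M k1, (∀ X, Qp M ex n μ bc pc σc θc X * (if i = 0 then 1 else
          run D q thF μ X (n - (t1 + 1)) (i - 1) (t1 + 1)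
            (nx (fun k => decide (th k ≤ sv (b k) (p k) μ X t1)))
            (fun k => sv (b k) (p k) μ X (t1 + 1))) ≤ g X) ∧
        E M g ≤ E M (fun X => Qp M ex n μ bc pc σc θc X * (if i = 0 then 1 else
          run D q thF μ X (n - (t1 + 1)) (i - 1) (t1 + 1)
            (nx (fun k => decide (th k ≤ sv (b k) (p k) μ X t1)))
            (fun k => sv (b k) (p k) μ X (t1 + 1)))) + ε1 := by
    rcases hi with hi | ⟨i', hi, hIH⟩
    · subst hi
      obtain ⟨k1, hk1⟩ := clS N (H + 1 + C) ε1 hε1p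
      refine ⟨k1, ?_⟩
      intro A _ _ M ex n μ V bc pc σc θc D q thF b p t1 nx th hμ hM hex ht1 hq0 hq1
      simp only [if_true, mul_one]
      exact hk1 A M ex n μ bc pc σc θc hμ hM hex
    · subst hi
      obtain ⟨k1, hk1⟩ := hIH (N + m) (H + 1 + C) (ε1 / w) (by positivity)
      refine ⟨k1, ?_⟩
      intro A _ _ M ex n μ V bc pc σc θc D q thF b p t1 nx th hμ hM hex ht1 hq0 hq1
      choose g hg1 hg2 hg3 using fun σ : Fin m → Bool =>
        hk1 A M ex n μ V (Fin.append bc b) (Fin.append pc (fun k => trn t1 (p k)))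
          (Fin.append σc σ) (Fin.append θc th) D q thF b p (t1 + 1) (nx σ) hμ hM hex ht1 hq0 hq1
      have hsum : ∀ X, Qp M ex n μ bc pc σc θc X * (if i' + 1 = 0 then 1 else
          run D q thF μ X (n - (t1 + 1)) (i' + 1 - 1) (t1 + 1)
            (nx (fun k => decide (th k ≤ sv (b k) (p k) μ X t1)))
            (fun k => sv (b k) (p k) μ X (t1 + 1))) =
          ∑ σ, Phi M ex n μ (Fin.append bc b) (Fin.append pc (fun k => trn t1 (p k)))
          (Fin.append σc σ) (Fin.append θc th) D q thF b p (t1 + 1) i' (nx σ) X := by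
        intro X
        rw [if_neg (by omega), Nat.add_sub_cancel]
        have h1 := sum_sg (fun σ => run D q thF μ X (n - (t1 + 1)) i' (t1 + 1) (nx σ)
          (fun k => sv (b k) (p k) μ X (t1 + 1))) th (fun k => sv (b k) (p k) μ X t1)
        rw [h1, Finset.mul_sum]
        refine Finset.sum_congr rfl fun σ _ => ?_
        unfold Phi
        rw [Qp_append]
        have h2 : ∀ k, sv (b k) (trn t1 (p k)) μ X n = sv (b k) (p k) μ X t1 := by
          intro k
          obtain ⟨d, hd⟩ := Nat.exists_eq_add_of_le ht1.le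
          rw [hd]
          exact sv_trn _ _ _ _ _ _
        simp only [h2]
        ring
      refine ⟨fun X => ∑ σ, g σ X, FW.Jun.sum _ fun σ _ => hg1 σ, fun X => ?_, ?_⟩
      · rw [hsum]
        exact Finset.sum_le_sum fun σ _ => hg2 σ X
      · rw [E_congr hsum, E_sum, E_sum]
        have h1 : ∑ σ, E M (g σ) ≤ ∑ σ : Fin m → Bool, (E M (Phi M ex n μ (Fin.append bc b)
            (Fin.append pc (fun k => trn t1 (p k))) (Fin.append σc σ) (Fin.append θc th) D q thF b p
            (t1 + 1) i' (nx σ)) + ε1 / w) := Finset.sum_le_sum fun σ _ => hg3 σ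
        rw [Finset.sum_add_distrib, Finset.sum_const, nsmul_eq_mul, hcard,
          mul_div_cancel₀ _ hw0.ne'] at h1
        exact h1
  obtain ⟨k1, hk1⟩ := hafter
  obtain ⟨k2, hk2⟩ := clS (N + m) (H + 1 + C) (ε / 4 / w) (by positivity)
  refine ⟨k1 + 1 + k2 + 2 * t, ?_⟩
  intro A _ _ M ex n μ V bc pc σc θc D q thF b p t0 v hμ hM hex ht0 hq0 hq1
  -- hits
  set hit : ℕ → A → Prop := fun j a => ∃ t, t0 ≤ t ∧ t < n ∧ μ t = j ∧ (D t a).evt v with hhit
  obtain ⟨d, hd1, hd2, hd3⟩ := cutoff (haz hit) (haz_le_one hit) C hC1 0 M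
  rw [Nat.zero_add] at hd2 hd3
  set Φ := Phi M ex n μ bc pc σc θc D q thF b p t0 i v with hΦ
  have hΦ0 : ∀ X, 0 ≤ Φ X := fun X => mul_nonneg (Qp_nonneg _ _ _ _ _ _ _ _ _)
    (run_nonneg _ _ _ _ hq0 _ _ _ _ _ _)
  have hΦ1 : ∀ X, Φ X ≤ 1 := fun X => mul_le_one₀ (Qp_le_one _ _ _ _ _ _ _ _ _)
    (run_nonneg _ _ _ _ hq0 _ _ _ _ _ _) (run_le_one _ _ _ _ hq1 _ _ _ _ _ _)
  -- the frozen systems
  set ex' : ℕ → A → ℕ → A → Prop := fun j a l x => fz j a ex l x ∨ (l < j ∧ hit l x) with hex'
  set P : ℕ → A → Fin m → ℕ → A → Prop × ℝ := fun j a k => fzs μ j a (ext D (p k) v t0 k) with hP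
  set Q' : ℕ → A → (ℕ → A) → ℝ := fun j a X => if h : hit j a then
      Qp M (ex' j a) n μ bc (fun c => fzs μ j a (pc c)) σc θc X * (if i = 0 then 1 else
        run (fzs μ j a D) q thF μ X (n - (Nat.find h + 1)) (i - 1) (Nat.find h + 1)
          ((D (Nat.find h) a).nxt v (fun k => decide ((D (Nat.find h) a).thr v k ≤
            sv (b k) (P j a k) μ X (Nat.find h))))
          (fun k => sv (b k) (P j a k) μ X (Nat.find h + 1)))
    else 0 with hQ'
  have hex'dep : ∀ (j : ℕ) (a : A) (X Y : ℕ → A), (∀ l ∈ {l | l ≠ j}, X l = Y l) → ∀ l, (ex' j a l (X l) ↔ ex' j a l (Y l)) := by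
    intro j a X Y Hxy l
    simp only [hex']
    rw [fz_dep j a ex X Y Hxy l]
    by_cases hl : l = j
    · subst hl; simp
    · rw [Hxy l hl]
  have hdep : ∀ j a, DepOn {l | l ≠ j} (Q' j a) := by
    intro j a X Y Hxy
    simp only [hQ']
    split_ifs with h hi0
    · rw [mul_one, mul_one]
      unfold Qp
      rw [cnt_congr fun l _ _ => hex'dep j a X Y Hxy l]
      congr 1
      refine Finset.prod_congr rfl fun c _ => ?_
      congr 1
      exact sv_congr _ fun s _ => fzs_dep μ j a (pc c) X Y Hxy s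
    · congr 1
      · unfold Qp
        rw [cnt_congr fun l _ _ => hex'dep j a X Y Hxy l]
        congr 1
        refine Finset.prod_congr rfl fun c _ => ?_
        congr 1
        exact sv_congr _ fun s _ => fzs_dep μ j a (pc c) X Y Hxy s
      · have h1 : ∀ (k : Fin m) T, sv (b k) (P j a k) μ X T = sv (b k) (P j a k) μ Y T :=
          fun k T => sv_congr _ fun s _ => fzs_dep μ j a (ext D (p k) v t0 k) X Y Hxy s
        simp only [h1]
        exact run_congr _ _ _ _ _ _ _ _ _ fun s _ _ => fzs_dep μ j a D X Y Hxy s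
    · rfl
  -- the terms of the decomposition
  have hterm : ∀ j, j < M → ∀ X, P0 (cnt hit 0 j X) * ind hit j (X j) * Φ X =
      ind hit j (X j) * Q' j (X j) X := by
    intro j hj X
    by_cases h : hit j (X j)
    · have hi1 : ind hit j (X j) = 1 := by unfold ind; rw [if_pos h]
      rw [hi1, one_mul, mul_one]
      simp only [hQ', dif_pos h]
      set t1 := Nat.find h with ht1
      obtain ⟨h01, h02, h03, h04⟩ := Nat.find_spec h
      rw [← ht1] at h01 h02 h03 h04
      have hpc : ∀ c, sv (bc c) (fzs μ j (X j) (pc c)) μ X n = sv (bc c) (pc c) μ X n :=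
        fun c => sv_congr _ fun s _ => fzs_self μ j (pc c) X s
      by_cases h2 : ∀ l, 0 ≤ l → l < j → ¬ hit l (X l)
      · rw [P0_eq hit, if_pos h2, one_mul]
        simp only [hΦ, Phi]
        have h3 : cnt ex 0 M X = cnt (ex' j (X j)) 0 M X := by
          apply cnt_congr
          intro l _ hl
          simp only [hex']
          rw [fz_self]
          constructor
          · exact Or.inl
          · rintro (h4 | ⟨h4, h5⟩)
            · exact h4
            · exact absurd h5 (h2 l (by omega) h4)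
        have h4 : Qp M (ex' j (X j)) n μ bc (fun c => fzs μ j (X j) (pc c)) σc θc X =
            Qp M ex n μ bc pc σc θc X := by
          unfold Qp
          rw [h3]
          simp only [hpc]
        rw [h4]
        congr 1
        -- no event before `t1`
        have h5 : ∀ s, t0 ≤ s → s < t0 + (t1 - t0) → ¬ (D s (X (μ s))).evt v := by
          intro s h6 h7 h8
          have h9 : μ s ≤ j := by rw [← h03]; exact hμ (by omega)
          rcases Nat.lt_or_ge (μ s) j with h10 | h10
          · exact h2 (μ s) (by omega) h10 ⟨s, h6, by omega, rfl, h8⟩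
          · have h11 : μ s = j := by omega
            rw [h11] at h8
            exact Nat.find_min h (show s < Nat.find h by omega) ⟨h6, by omega, h11, h8⟩
        have h6 : (fun k => sv (b k) (p k) μ X t0) =
            fun k => sv (b k) (ext D (p k) v t0 k) μ X t0 := by
          funext k; rw [sv_ext]
        rw [h6, show n - t0 = (t1 - t0) + ((n - (t1 + 1)) + 1) by omega,
          run_skip D q thF μ b p v t0 X i _ _ t0 le_rfl h5,
          show t0 + (t1 - t0) = t1 by omega, run]
        have h7 : X (μ t1) = X j := by rw [h03]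
        rw [h7, if_pos h04]
        have h8 : ∀ (k : Fin m) T, sv (b k) (P j (X j) k) μ X T =
            sv (b k) (ext D (p k) v t0 k) μ X T :=
          fun k T => sv_congr _ fun s _ => fzs_self μ j (ext D (p k) v t0 k) X s
        simp only [h8]
        have h9 : (fun k => app ((D t1 (X j)).op v k) (sv (b k) (ext D (p k) v t0 k) μ X t1)) =
            fun k => sv (b k) (ext D (p k) v t0 k) μ X (t1 + 1) := by
          funext k
          rw [sv, ext, if_neg (by omega), h7]
        rw [h9]
        congr 1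
        symm
        apply run_congr
        intro s _ _
        exact fzs_self μ j D X s
      · rw [P0_eq hit, if_neg h2, zero_mul]
        have h3 : P0 (cnt (ex' j (X j)) 0 M X) = 0 := by
          push Not at h2
          obtain ⟨l, h4, h5, h6⟩ := h2
          rw [P0_eq (ex' j (X j)), if_neg]
          intro h7
          exact h7 l (by omega) (by omega) (Or.inr ⟨h5, h6⟩)
        unfold Qp
        rw [h3, zero_mul, zero_mul]
    · have h1 : ind hit j (X j) = 0 := by unfold ind; rw [if_neg h]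
      rw [h1, mul_zero, zero_mul, zero_mul]
  -- hazards
  have hexh : ∀ j, j < d → ∀ a, ∑ l ∈ range M, haz (ex' j a) l ≤ H + 1 + C := by
    intro j hj a
    have h1 : ∀ l, haz (ex' j a) l ≤ haz (fz j a ex) l + haz (fun l x => l < j ∧ hit l x) l :=
      fun l => haz_or (fz j a ex) (fun l x => l < j ∧ hit l x) l
    refine (Finset.sum_le_sum fun l _ => h1 l).trans ?_
    rw [Finset.sum_add_distrib]
    have h2 : ∑ l ∈ range M, haz (fun l x => l < j ∧ hit l x) l ≤ ∑ l ∈ Ico 0 d, haz hit l := by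
      have h3 : ∀ l, haz (fun l x => l < j ∧ hit l x) l = if l < j then haz hit l else 0 := by
        intro l
        unfold haz ind
        by_cases hl : l < j
        · simp [hl]
        · simp [hl]
      rw [Finset.sum_congr rfl fun l _ => h3 l, ← Finset.sum_filter]
      apply Finset.sum_le_sum_of_subset_of_nonneg
      · intro l hl
        rw [Finset.mem_filter, Finset.mem_range] at hl
        rw [Finset.mem_Ico]
        omega
      · intro l _ _; exact haz_nonneg hit l
    have := haz_fz M ex H hex j a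
    linarith
  -- bounds for the terms
  have hbd : ∀ j, j < d → ∃ g ∈ Jun A M (k1 + 1),
      (∀ X, ind hit j (X j) * Q' j (X j) X ≤ g X) ∧
      E M g ≤ E M (fun X => ind hit j (X j) * Q' j (X j) X) + haz hit j * ε1 := by
    intro j hj
    apply fix (show j < M by omega) (ind hit j) (fun a => ind_nonneg hit j a) ε1 (Q' j) (hdep j)
    intro a
    by_cases h : hit j a
    · have h1 := (Nat.find_spec h).2.1
      obtain ⟨g, hg1, hg2, hg3⟩ := hk1 A M (ex' j a) n μ V bc (fun c => fzs μ j a (pc c)) σc θc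
        (fzs μ j a D) q thF b (P j a) (Nat.find h) ((D (Nat.find h) a).nxt v)
        ((D (Nat.find h) a).thr v) hμ hM (hexh j hj a) h1 hq0 hq1
      refine ⟨g, hg1, fun X => ?_, ?_⟩
      · simp only [hQ', dif_pos h]
        exact hg2 X
      · simp only [hQ', dif_pos h]
        exact hg3
    · refine ⟨fun _ => 0, FW.Jun.const M _ 0, fun X => ?_, ?_⟩
      · simp only [hQ', dif_neg h]
        exact le_rfl
      · simp only [hQ', dif_neg h]
        linarith
  set G : ℕ → (ℕ → A) → ℝ := fun j => if h : j < d then (hbd j h).choose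
    else fun _ => 0 with hGdef
  have hG : ∀ j, j < d → G j ∈ Jun A M (k1 + 1) ∧
      (∀ X, ind hit j (X j) * Q' j (X j) X ≤ G j X) ∧
      E M (G j) ≤ E M (fun X => ind hit j (X j) * Q' j (X j) X) + haz hit j * ε1 := by
    intro j h1
    simp only [hGdef, h1, dif_pos]
    exact (hbd j h1).choose_spec
  -- bound for the remaining term
  have hrest : ∃ g ∈ Jun A M (k1 + 1 + k2 + 2 * t), (∀ X, P0 (cnt hit 0 d X) * Φ X ≤ g X) ∧
      E M g ≤ E M (fun X => P0 (cnt hit 0 d X) * Φ X) + ε / 2 := by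
    rcases hd3 with h0 | h0
    · subst h0
      choose g hg1 hg2 hg3 using fun σ : Fin m → Bool =>
        hk2 A d (fun l x => ex l x ∨ hit l x) n μ (Fin.append bc b)
          (Fin.append pc (fun k => ext D (p k) v t0 k)) (Fin.append σc σ)
          (Fin.append θc (thF v)) hμ hM (by
            refine (Finset.sum_le_sum fun l _ => haz_or ex hit l).trans ?_
            rw [Finset.sum_add_distrib]
            rw [← Finset.range_eq_Ico] at hd2
            linarith)
      have hsum : ∀ X, P0 (cnt hit 0 d X) * Φ X = ∑ σ, q v σ * Qp d (fun l x => ex l x ∨ hit l x) n μ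
          (Fin.append bc b) (Fin.append pc (fun k => ext D (p k) v t0 k)) (Fin.append σc σ)
          (Fin.append θc (thF v)) X := by
        intro X
        simp only [Qp_append]
        by_cases h2 : ∀ l, 0 ≤ l → l < d → ¬ hit l (X l)
        · rw [P0_eq hit, if_pos h2, one_mul]
          simp only [hΦ, Phi]
          have h3 : Qp d (fun l x => ex l x ∨ hit l x) n μ bc pc σc θc X =
              Qp d ex n μ bc pc σc θc X := by
            unfold Qp
            congr 2
            apply cnt_congr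
            intro l h4 hl
            have h5 := h2 l h4 hl
            exact ⟨fun h => h.resolve_right h5, Or.inl⟩
          rw [h3]
          have h5 : ∀ s, t0 ≤ s → s < t0 + (n - t0) → ¬ (D s (X (μ s))).evt v := by
            intro s h6 h7 h8
            exact h2 (μ s) (by omega) (hM s (by omega)) ⟨s, h6, by omega, rfl, h8⟩
          have h6 : (fun k => sv (b k) (p k) μ X t0) =
              fun k => sv (b k) (ext D (p k) v t0 k) μ X t0 := by
            funext k; rw [sv_ext]
          have h7 := run_skip D q thF μ b p v t0 X i 0 (n - t0) t0 le_rfl h5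
          rw [Nat.add_zero] at h7
          rw [h6, h7, show t0 + (n - t0) = n by omega, run]
          have h8 := sum_sg (fun σ => q v σ) (thF v) (fun k => sv (b k) (ext D (p k) v t0 k) μ X n)
          rw [h8, Finset.mul_sum]
          refine Finset.sum_congr rfl fun σ _ => ?_
          ring
        · rw [P0_eq hit, if_neg h2, zero_mul]
          symm
          refine Finset.sum_eq_zero fun σ _ => ?_
          have h3 : P0 (cnt (fun l x => ex l x ∨ hit l x) 0 d X) = 0 := by
            push Not at h2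
            obtain ⟨l, h4, h5, h6⟩ := h2
            rw [P0_eq (fun l x => ex l x ∨ hit l x), if_neg]
            intro h7
            exact h7 l h4 h5 (Or.inr h6)
          unfold Qp
          rw [h3, zero_mul, zero_mul, mul_zero]
      refine ⟨fun X => ∑ σ, q v σ * g σ X, FW.Jun.sum _ fun σ _ => FW.Jun.cmul _
        (FW.Jun.mono (by omega) (hg1 σ)), fun X => ?_, ?_⟩
      · rw [hsum]
        exact Finset.sum_le_sum fun σ _ => mul_le_mul_of_nonneg_left (hg2 σ X) (hq0 v σ)
      · rw [E_congr hsum, E_sum, E_sum]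
        simp only [E_const_mul]
        have h1 : ∑ σ, q v σ * E d (fun X => g σ X) ≤ ∑ σ : Fin m → Bool, (q v σ * E d (fun X =>
            Qp d (fun l x => ex l x ∨ hit l x) n μ
          (Fin.append bc b) (Fin.append pc (fun k => ext D (p k) v t0 k)) (Fin.append σc σ)
          (Fin.append θc (thF v)) X) + ε / 4 / w) := by
          refine Finset.sum_le_sum fun σ _ => ?_
          have h2 := mul_le_mul_of_nonneg_left (hg3 σ) (hq0 v σ)
          have h3 : q v σ * (ε / 4 / w) ≤ 1 * (ε / 4 / w) :=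
            mul_le_mul_of_nonneg_right (hq1 v σ) (by positivity)
          rw [mul_add] at h2
          have e1 : E d (fun X => g σ X) = E d (g σ) := rfl
          rw [e1]
          have e2 : E d (fun X => Qp d (fun l x => ex l x ∨ hit l x) n μ
            (Fin.append bc b) (Fin.append pc (fun k => ext D (p k) v t0 k)) (Fin.append σc σ)
            (Fin.append θc (thF v)) X) = E d (Qp d (fun l x => ex l x ∨ hit l x) n μ
            (Fin.append bc b) (Fin.append pc (fun k => ext D (p k) v t0 k)) (Fin.append σc σ)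
            (Fin.append θc (thF v))) := rfl
          rw [e2]
          linarith
        rw [Finset.sum_add_distrib, Finset.sum_const, nsmul_eq_mul, hcard,
          mul_div_cancel₀ _ hw0.ne'] at h1
        linarith
    · refine ⟨fun X => T t (cnt hit 0 d X), FW.Jun.mono (by omega) (T_cnt_jun hit t (Nat.zero_le d) hd1),
        fun X => ?_, ?_⟩
      · calc P0 (cnt hit 0 d X) * Φ X ≤ P0 (cnt hit 0 d X) * 1 :=
              mul_le_mul_of_nonneg_left (hΦ1 X) (P0_nonneg _)
          _ ≤ _ := by rw [mul_one]; exact P0_le_T t _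
      · have h1 := E_T_le (M := M) hit t (Nat.zero_le d) hd1 C hd2
        have h2 := E_P0 (M := M) hit (Nat.zero_le d) hd1
        have h3 : Real.exp (-∑ l ∈ Ico 0 d, haz hit l) ≤ Real.exp (-(C - 1)) :=
          Real.exp_le_exp.mpr (by linarith)
        have h4 : 0 ≤ E M (fun X => P0 (cnt hit 0 d X) * Φ X) :=
          E_nonneg fun X => mul_nonneg (P0_nonneg _) (hΦ0 X)
        have h5 : Real.exp (2 * C) / 2 ^ (2 * t + 1) ≤ Real.exp (2 * C) / 2 ^ (2 * t) := by
          apply div_le_div_of_nonneg_left (Real.exp_pos _).le (by positivity)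
          exact pow_le_pow_right₀ (by norm_num) (by omega)
        linarith
  obtain ⟨g0, hg01, hg02, hg03⟩ := hrest
  have hdecomp : ∀ X, Φ X = ∑ j ∈ Ico 0 d, ind hit j (X j) * Q' j (X j) X +
      P0 (cnt hit 0 d X) * Φ X := by
    intro X
    have h1 := P_telescope hit 0 d X
    rw [Nat.zero_add] at h1
    calc Φ X = (∑ j ∈ Ico 0 d, P0 (cnt hit 0 j X) * ind hit j (X j) + P0 (cnt hit 0 d X)) * Φ X := by
          rw [h1, one_mul]
      _ = _ := by
          rw [add_mul, Finset.sum_mul]
          congr 1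
          refine Finset.sum_congr rfl fun j hj => ?_
          rw [Finset.mem_Ico] at hj
          rw [hterm j (by omega)]
  refine ⟨fun X => ∑ j ∈ Ico 0 d, G j X + g0 X, ?_, fun X => ?_, ?_⟩
  · refine FW.Jun.add (FW.Jun.sum _ fun j hj => ?_) hg01
    rw [Finset.mem_Ico] at hj
    exact FW.Jun.mono (by omega) (hG j hj.2).1
  · rw [hdecomp X]
    refine add_le_add (Finset.sum_le_sum fun j hj => ?_) (hg02 X)
    rw [Finset.mem_Ico] at hj
    exact (hG j hj.2).2.1 X
  · rw [E_add, E_sum]
    have h1 : E M Φ = ∑ j ∈ Ico 0 d, E M (fun X => ind hit j (X j) * Q' j (X j) X) +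
        E M (fun X => P0 (cnt hit 0 d X) * Φ X) := by
      rw [← E_sum, ← E_add]
      exact E_congr hdecomp
    have h2 : ∑ j ∈ Ico 0 d, E M (G j) ≤
        ∑ j ∈ Ico 0 d, E M (fun X => ind hit j (X j) * Q' j (X j) X) +
        (∑ j ∈ Ico 0 d, haz hit j) * ε1 := by
      rw [Finset.sum_mul, ← Finset.sum_add_distrib]
      refine Finset.sum_le_sum fun j hj => ?_
      rw [Finset.mem_Ico] at hj
      exact (hG j hj.2).2.2
    have h3 : (∑ j ∈ Ico 0 d, haz hit j) * ε1 ≤ C * ε1 := mul_le_mul_of_nonneg_right hd2 hε1p.le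
    have e2 : ∑ j ∈ Ico 0 d, E M (fun X => G j X) = ∑ j ∈ Ico 0 d, E M (G j) := rfl
    have e3 : E M (fun X => g0 X) = E M g0 := rfl
    rw [e2, e3]
    linarith

theorem clA_all (m i : ℕ) : ClA m i := by
  induction i with
  | zero => exact clA_step m 0 (Or.inl rfl)
  | succ i ih => exact clA_step m (i + 1) (Or.inr ⟨i, rfl, ih⟩)

end Pool.Agent.H73.HS
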