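import Pool.Agent.H73.HS.Trig

/-!
Polynomial upper bounds for a step function, with controlled growth.
-/

open Finset
open scoped BigOperators

namespace Pool.Agent.H73.HS

lemma pow_convex {κ E : ℝ} (h0 : 0 ≤ κ) (h1 : κ ≤ 1) (hE : 0 ≤ E) (p : ℕ) :
    (1 + κ * E) ^ p ≤ 1 + κ * ((1 + E) ^ p - 1) := by
  induction p with
  | zero => simp
  | succ p ih =>
    have hG : 1 ≤ (1 + E) ^ p := one_le_pow₀ (by linarith)
    rw [pow_succ, pow_succ]
    have h2 : (1 + κ * E) ^ p * (1 + κ * E) ≤ (1 + κ * ((1 + E) ^ p - 1)) * (1 + κ * E) :=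
      mul_le_mul_of_nonneg_right ih (by positivity)
    refine h2.trans ?_
    generalize (1 + E) ^ p = G at hG
    have h3 : 0 ≤ κ * E * (G - 1) * (1 - κ) := by
      apply mul_nonneg (mul_nonneg (mul_nonneg h0 hE) (by linarith)) (by linarith)
    nlinarith

lemma pow_split {x y z : ℝ} (hx : 0 ≤ x) (hy : 0 ≤ y) (hz : 0 ≤ z) (p : ℕ) :
    (1 + x + y + z) ^ p ≤ (1 + 3 * x) ^ p + (1 + 3 * y) ^ p + (1 + 3 * z) ^ p - 2 := by
  have h1 : 1 ≤ (1 + 3 * x) ^ p := one_le_pow₀ (by linarith)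
  have h2 : 1 ≤ (1 + 3 * y) ^ p := one_le_pow₀ (by linarith)
  have h3 : 1 ≤ (1 + 3 * z) ^ p := one_le_pow₀ (by linarith)
  by_cases c1 : y ≤ x ∧ z ≤ x
  · have : (1 + x + y + z) ^ p ≤ (1 + 3 * x) ^ p :=
      pow_le_pow_left₀ (by positivity) (by linarith [c1.1, c1.2]) p
    linarith
  · by_cases c2 : x ≤ y ∧ z ≤ y
    · have : (1 + x + y + z) ^ p ≤ (1 + 3 * y) ^ p :=
        pow_le_pow_left₀ (by positivity) (by linarith [c2.1, c2.2]) p
      linarith
    · have h4 : x ≤ z ∧ y ≤ z := by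
        constructor
        · by_contra h
          push Not at h
          have h5 : x < y := by by_contra h'; push Not at h'; exact c1 ⟨h', h.le⟩
          exact c2 ⟨h5.le, (h.trans h5).le⟩
        · by_contra h
          push Not at h
          have h5 : y < x := by by_contra h'; push Not at h'; exact c2 ⟨h', h.le⟩
          exact c1 ⟨h5.le, (h.trans h5).le⟩
      have : (1 + x + y + z) ^ p ≤ (1 + 3 * z) ^ p :=
        pow_le_pow_left₀ (by positivity) (by linarith [h4.1, h4.2]) p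
      linarith

/-- The coefficients of the polynomial upper bound. -/
noncomputable def uco (K0 η B : ℝ) (D : ℕ) (τ : ℝ → ℕ → ℝ) (z : ℝ) (l : ℕ) : ℝ :=
  if z < -K0 then (if l = 2 then 1 / K0 ^ 2 else 0)
  else if K0 < z then (if l = 0 then 1 else 0)
  else (if l < D then τ z l else 0) + (if l = 0 then η else 0) +
    (if l = 2 then 1 / K0 ^ 2 else 0) + (if l = D then B else 0)

lemma uco_sum (K0 η B : ℝ) (D : ℕ) (τ : ℝ → ℕ → ℝ) (z w : ℝ) :
    ∑ l ∈ range (D + 3), uco K0 η B D τ z l * w ^ l =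
      if z < -K0 then (w / K0) ^ 2 else if K0 < z then 1
      else ∑ l ∈ range D, τ z l * w ^ l + η + (w / K0) ^ 2 + B * w ^ D := by
  have hs : ∀ (a : ℕ) (x : ℝ), a < D + 3 →
      ∑ l ∈ range (D + 3), (if l = a then x else 0) * w ^ l = x * w ^ a := by
    intro a x ha
    simp only [ite_mul, zero_mul, Finset.sum_ite_eq', Finset.mem_range]
    rw [if_pos ha]
  unfold uco
  split_ifs with h1 h2
  · rw [hs 2 _ (by omega)]; ring
  · rw [hs 0 _ (by omega)]; simp
  · simp only [add_mul, Finset.sum_add_distrib]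
    rw [hs 0 _ (by omega), hs 2 _ (by omega), hs D _ (by omega)]
    have h3 : ∑ l ∈ range (D + 3), (if l < D then τ z l else 0) * w ^ l =
        ∑ l ∈ range D, τ z l * w ^ l := by
      rw [Finset.sum_subset_zero_on_sdiff (Finset.range_subset_range.mpr (by omega : D ≤ D + 3))]
      · intro l hl
        rw [Finset.mem_sdiff, Finset.mem_range, Finset.mem_range] at hl
        rw [if_neg hl.2, zero_mul]
      · intro l hl
        rw [if_pos (Finset.mem_range.mp hl)]
    rw [h3]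
    ring

lemma exists_small_pow (x y : ℝ) (hy : 0 < y) : ∃ d : ℕ, x / 2 ^ (2 * d) ≤ y := by
  obtain ⟨d, hd⟩ := pow_unbounded_of_one_lt (x / y) (by norm_num : (1 : ℝ) < 4)
  refine ⟨d, ?_⟩
  rw [pow_mul, div_le_iff₀ (by positivity)]
  rw [div_lt_iff₀ hy] at hd
  norm_num
  linarith

theorem exists_U (p : ℕ) (δ : ℝ) (hδ : 0 < δ) (Mo : ℝ → ℝ) (hMo : ∀ θ, 0 ≤ Mo θ) :
    ∃ (Dg : ℕ) (u : ℝ → ℕ → ℝ) (Rem : ℝ → ℝ) (a κ1 θ1 κ2 θ2 : ℝ),
      (∀ z w, 0 ≤ ∑ l ∈ range Dg, u z l * w ^ l) ∧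
      (∀ z w, 0 ≤ z + w → 1 ≤ ∑ l ∈ range Dg, u z l * w ^ l) ∧
      (∀ z w, ∑ l ∈ range Dg, u z l * w ^ l ≤ (if -1 ≤ z + w then 1 else 0) + Rem w) ∧
      (∀ w, 0 ≤ Rem w) ∧ 0 ≤ a ∧ 0 ≤ κ1 ∧ 0 ≤ κ2 ∧
      (∀ w, (1 + Rem w) ^ p ≤ 1 + a + κ1 * Real.exp (θ1 * |w|) + κ2 * Real.exp (θ2 * |w|)) ∧
      a * Mo 0 + κ1 * Mo θ1 + κ2 * Mo θ2 ≤ δ := by
  -- the parameters
  set η : ℝ := min (1 / 6) (δ / 3 / (6 * 2 ^ p * (Mo 0 + 1))) with hη
  have hM0 := hMo 0
  have hη0 : 0 < η := lt_min (by norm_num) (by positivity)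
  have hη1 : 6 * η ≤ 1 := by
    have := min_le_left (1 / 6) (δ / 3 / (6 * 2 ^ p * (Mo 0 + 1))); linarith
  have hη2 : 6 * η * 2 ^ p * Mo 0 ≤ δ / 3 := by
    have h1 := min_le_right (1 / 6) (δ / 3 / (6 * 2 ^ p * (Mo 0 + 1)))
    rw [← hη, le_div_iff₀ (by positivity)] at h1
    have h2 : 6 * η * 2 ^ p * Mo 0 ≤ η * (6 * 2 ^ p * (Mo 0 + 1)) := by
      have h3 : 0 ≤ η * (6 * 2 ^ p) := by positivity
      nlinarith
    linarith
  set K0 : ℝ := 1 + 3 * Mo (6 * p) / δ with hK0
  have hK1 : 1 ≤ K0 := by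
    have : 0 ≤ 3 * Mo (6 * p) / δ := by have := hMo (6 * p); positivity
    linarith
  have hK2 : 1 / K0 ^ 2 * Mo (6 * p) ≤ δ / 3 := by
    have h1 : 3 * Mo (6 * p) / δ ≤ K0 ^ 2 := by nlinarith
    rw [div_le_iff₀ hδ] at h1
    rw [div_mul_eq_mul_div, one_mul, div_le_iff₀ (by positivity)]
    linarith
  obtain ⟨J, c, ω, ht0, ht1, ht2, ht3⟩ := trig_exists K0 η hK1 hη0
  set Ω : ℝ := ∑ m ∈ J, |ω m| with hΩ
  have hΩ0 : 0 ≤ Ω := Finset.sum_nonneg fun _ _ => abs_nonneg _
  have hΩm : ∀ m ∈ J, |ω m| ≤ Ω := fun m hm =>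
    Finset.single_le_sum (f := fun m => |ω m|) (fun _ _ => abs_nonneg _) hm
  set A : ℝ := ∑ m ∈ J, ‖c m‖ with hA
  have hA0 : 0 ≤ A := Finset.sum_nonneg fun _ _ => norm_nonneg _
  obtain ⟨d1, hd1⟩ := exists_small_pow (6 * A) 1 one_pos
  obtain ⟨d2, hd2⟩ := exists_small_pow (6 * A * 2 ^ p * Mo (2 * Ω * p)) (δ / 3) (by positivity)
  set D : ℕ := 2 * max d1 d2 with hD
  have hDe : Even D := ⟨max d1 d2, by omega⟩
  have hMΩ := hMo (2 * Ω * p)
  have hmono : ∀ x : ℝ, 0 ≤ x → ∀ d, d ≤ max d1 d2 → x / 2 ^ D ≤ x / 2 ^ (2 * d) := by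
    intro x hx d hd
    apply div_le_div_of_nonneg_left hx (by positivity)
    apply pow_le_pow_right₀ (by norm_num)
    omega
  have hD1 : 6 * A / 2 ^ D ≤ 1 := (hmono _ (by positivity) d1 (le_max_left _ _)).trans hd1
  have hD2 : 6 * A / 2 ^ D * 2 ^ p * Mo (2 * Ω * p) ≤ δ / 3 := by
    have h1 := (hmono (6 * A * 2 ^ p * Mo (2 * Ω * p)) (by positivity) d2 (le_max_right _ _)).trans hd2
    calc _ = 6 * A * 2 ^ p * Mo (2 * Ω * p) / 2 ^ D := by ring
      _ ≤ _ := h1
  -- the error terms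
  have habs : ∀ w : ℝ, (Ω * |w|) ^ D = Ω ^ D * w ^ D := by
    intro w
    rw [mul_pow, hDe.pow_abs]
  set B : ℝ := A * Ω ^ D / D.factorial with hB
  have hB0 : 0 ≤ B := by positivity
  have hBw : ∀ w : ℝ, 0 ≤ B * w ^ D := fun w => mul_nonneg hB0 (hDe.pow_nonneg w)
  have hBe : ∀ w : ℝ, A * ((Ω * |w|) ^ D / D.factorial) = B * w ^ D := by
    intro w
    rw [habs, hB]; ring
  have hTay : ∀ z w : ℝ, |∑ l ∈ range D, tco J c ω z l * w ^ l - tri J c ω (z + w)| ≤ B * w ^ D := by
    intro z w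
    have := tri_taylor J c ω Ω hΩm D z w
    rw [← hA, hBe] at this
    exact this
  set Rem : ℝ → ℝ := fun w => 2 * η + 2 * (w / K0) ^ 2 + 2 * (B * w ^ D) with hRem
  have hK0pos : 0 < K0 := by linarith
  have hbig : ∀ w : ℝ, K0 ≤ |w| → 1 ≤ (w / K0) ^ 2 := by
    intro w hw
    rw [div_pow, le_div_iff₀ (by positivity), one_mul, ← sq_abs w]
    exact pow_le_pow_left₀ hK0pos.le hw 2
  refine ⟨D + 3, uco K0 η B D (tco J c ω), Rem, 6 * η * 2 ^ p, 1 / K0 ^ 2, 6 * p,
    6 * A / 2 ^ D * 2 ^ p, 2 * Ω * p, ?_, ?_, ?_, ?_, by positivity, by positivity, by positivity,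
    ?_, by linarith⟩
  · intro z w
    rw [uco_sum]
    split_ifs with h1 h2
    · positivity
    · exact zero_le_one
    · have h3 := (abs_le.mp (hTay z w)).1
      have h4 := ht0 (z + w)
      have h5 : 0 ≤ (w / K0) ^ 2 := sq_nonneg _
      linarith
  · intro z w hzw
    rw [uco_sum]
    split_ifs with h1 h2
    · apply hbig
      rw [abs_of_pos (by linarith)]
      linarith
    · exact le_rfl
    · push Not at h1 h2
      have h3 := (abs_le.mp (hTay z w)).1
      by_cases h6 : z + w ≤ 2 * K0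
      · have h4 := ht2 (z + w) hzw h6
        have h5 : 0 ≤ (w / K0) ^ 2 := sq_nonneg _
        linarith
      · push Not at h6
        have h5 := hbig w (by rw [abs_of_pos (by linarith)]; linarith)
        have h4 := ht0 (z + w)
        linarith
  · intro z w
    rw [uco_sum]
    have h5 : 0 ≤ (w / K0) ^ 2 := sq_nonneg _
    have h7 := hBw w
    by_cases h1 : z < -K0
    · rw [if_pos h1]
      split_ifs <;> simp only [hRem] <;> linarith
    · rw [if_neg h1]
      push Not at h1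
      by_cases h2 : K0 < z
      · rw [if_pos h2]
        split_ifs with h3
        · simp only [hRem]; linarith
        · simp only [hRem]
          push Not at h3
          have h6 := hbig w (by rw [abs_of_neg (by linarith)]; linarith)
          linarith
      · rw [if_neg h2]
        push Not at h2
        have h8 := (abs_le.mp (hTay z w)).2
        split_ifs with h3
        · simp only [hRem]
          have h4 := ht1 (z + w)
          linarith
        · simp only [hRem]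
          push Not at h3
          by_cases h6 : -(2 * K0) ≤ z + w
          · have h4 := ht3 (z + w) h6 (by linarith)
            linarith
          · push Not at h6
            have h9 := hbig w (by rw [abs_of_neg (by linarith)]; linarith)
            have h4 := ht1 (z + w)
            linarith
  · intro w
    simp only [hRem]
    have h5 : 0 ≤ (w / K0) ^ 2 := sq_nonneg _
    have h7 := hBw w
    linarith
  · intro w
    have h5 : 0 ≤ (w / K0) ^ 2 := sq_nonneg _
    have h7 := hBw w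
    have h1 : (1 + Rem w) ^ p ≤ (1 + 3 * (2 * η)) ^ p + (1 + 3 * (2 * (w / K0) ^ 2)) ^ p +
        (1 + 3 * (2 * (B * w ^ D))) ^ p - 2 := by
      have h := pow_split (x := 2 * η) (y := 2 * (w / K0) ^ 2) (z := 2 * (B * w ^ D))
        (by positivity) (by positivity) (by positivity) p
      refine le_trans (le_of_eq ?_) h
      simp only [hRem]
      congr 1
      ring
    -- first term
    have h2 : (1 + 3 * (2 * η)) ^ p ≤ 1 + 6 * η * 2 ^ p := by
      have h := pow_convex (κ := 6 * η) (E := 1) (by positivity) hη1 zero_le_one p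
      rw [show 1 + 3 * (2 * η) = 1 + 6 * η * 1 by ring]
      refine h.trans ?_
      have : (1 + 1 : ℝ) ^ p = 2 ^ p := by norm_num
      rw [this]
      nlinarith
    -- second term
    have h3 : (1 + 3 * (2 * (w / K0) ^ 2)) ^ p ≤ 1 + 1 / K0 ^ 2 * Real.exp (6 * p * |w|) := by
      have hκ : 1 / K0 ^ 2 ≤ 1 := by
        rw [div_le_one (by positivity)]
        nlinarith
      have h := pow_convex (κ := 1 / K0 ^ 2) (E := 6 * w ^ 2) (by positivity) hκ (by positivity) p
      rw [show 1 + 3 * (2 * (w / K0) ^ 2) = 1 + 1 / K0 ^ 2 * (6 * w ^ 2) by rw [div_pow]; ring]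
      refine h.trans ?_
      have h4 : 1 + 6 * w ^ 2 ≤ Real.exp (6 * |w|) := by
        have h5 : 1 + 3 * |w| ≤ Real.exp (3 * |w|) := by
          have := Real.add_one_le_exp (3 * |w|); linarith
        have h6 : (1 + 3 * |w|) ^ 2 ≤ Real.exp (3 * |w|) ^ 2 :=
          pow_le_pow_left₀ (by positivity) h5 2
        rw [← Real.exp_nat_mul] at h6
        have h7 : ((2 : ℕ) : ℝ) * (3 * |w|) = 6 * |w| := by push_cast; ring
        rw [h7] at h6
        have h8 : |w| ^ 2 = w ^ 2 := sq_abs w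
        have h9 : 0 ≤ |w| := abs_nonneg w
        nlinarith
      have h5 : (1 + 6 * w ^ 2) ^ p ≤ Real.exp (6 * p * |w|) := by
        refine (pow_le_pow_left₀ (by positivity) h4 p).trans (le_of_eq ?_)
        rw [← Real.exp_nat_mul]
        congr 1
        ring
      have h6 : 0 ≤ 1 / K0 ^ 2 := by positivity
      nlinarith
    -- third term
    have h4 : (1 + 3 * (2 * (B * w ^ D))) ^ p ≤
        1 + 6 * A / 2 ^ D * 2 ^ p * Real.exp (2 * Ω * p * |w|) := by
      have hE : 1 ≤ Real.exp (2 * Ω * |w|) := Real.one_le_exp (by positivity)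
      have h5 : 3 * (2 * (B * w ^ D)) ≤ 6 * A / 2 ^ D * Real.exp (2 * Ω * |w|) := by
        have h6 := Real.pow_div_factorial_le_exp (2 * Ω * |w|) (by positivity) D
        have h8 : 3 * (2 * (B * w ^ D)) = 6 * A / 2 ^ D * ((2 * Ω * |w|) ^ D / D.factorial) := by
          rw [← hBe, show 2 * Ω * |w| = 2 * (Ω * |w|) by ring, mul_pow 2 (Ω * |w|)]
          have h2D : (2 : ℝ) ^ D ≠ 0 := by positivity
          generalize (Ω * |w|) ^ D = y
          have hf : (D.factorial : ℝ) ≠ 0 := by positivity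
          field_simp
          ring
        rw [h8]
        exact mul_le_mul_of_nonneg_left h6 (by positivity)
      have h6 : (1 + 3 * (2 * (B * w ^ D))) ^ p ≤
          (1 + 6 * A / 2 ^ D * Real.exp (2 * Ω * |w|)) ^ p :=
        pow_le_pow_left₀ (by positivity) (by linarith) p
      have h := pow_convex (κ := 6 * A / 2 ^ D) (E := Real.exp (2 * Ω * |w|)) (by positivity) hD1
        (by positivity) p
      refine h6.trans (h.trans ?_)
      have h8 : (1 + Real.exp (2 * Ω * |w|)) ^ p ≤ 2 ^ p * Real.exp (2 * Ω * p * |w|) := by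
        calc (1 + Real.exp (2 * Ω * |w|)) ^ p ≤ (2 * Real.exp (2 * Ω * |w|)) ^ p :=
              pow_le_pow_left₀ (by positivity) (by linarith) p
          _ = _ := by
            rw [mul_pow, ← Real.exp_nat_mul]
            congr 2
            ring
      have h9 : 0 ≤ 6 * A / 2 ^ D := by positivity
      have h10 := mul_le_mul_of_nonneg_left h8 h9
      have h11 : 6 * A / 2 ^ D * (2 ^ p * Real.exp (2 * Ω * p * |w|)) =
        6 * A / 2 ^ D * 2 ^ p * Real.exp (2 * Ω * p * |w|) := by ring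
      rw [h11] at h10
      linarith
    linarith

end Pool.Agent.H73.HS
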