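import Pool.Agent.H73.HS.Prod
import Pool.Agent.H73.HS.Up

/-!
The polynomial upper bound for an intersection of threshold functions of independent variables.
-/

open Finset
open scoped BigOperators

namespace Pool.Agent.H73.HS

open Pool.Agent.H73.FW

/-! ### Elementary inequalities for products -/

lemma prod_le_one_add {r : ℕ} (x : Fin r → ℝ) (hx : ∀ i, 1 ≤ x i) :
    ∏ i, x i ≤ 1 + ∑ i, (x i ^ r - 1) := by
  have h0 : ∀ i, 0 ≤ x i ^ r - 1 := fun i => by have := one_le_pow₀ (n := r) (hx i); linarith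
  rcases Nat.eq_zero_or_pos r with h | h
  · subst h; simp
  · have : Nonempty (Fin r) := ⟨⟨0, h⟩⟩
    obtain ⟨i0, hi0⟩ := Finite.exists_max x
    calc ∏ i, x i ≤ ∏ _i : Fin r, x i0 :=
          Finset.prod_le_prod (fun i _ => by linarith [hx i]) (fun i _ => hi0 i)
      _ = x i0 ^ r := by rw [Finset.prod_const, Finset.card_univ, Fintype.card_fin]
      _ ≤ 1 + ∑ i, (x i ^ r - 1) := by
          have := Finset.single_le_sum (f := fun i => x i ^ r - 1) (fun i _ => h0 i) (mem_univ i0)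
          linarith

lemma prod_add_le {ι : Type*} (I : Finset ι) (a ρ : ι → ℝ) (ha0 : ∀ i, 0 ≤ a i)
    (ha1 : ∀ i, a i ≤ 1) (hρ : ∀ i, 0 ≤ ρ i) :
    ∏ i ∈ I, (a i + ρ i) ≤ ∏ i ∈ I, a i + (∏ i ∈ I, (1 + ρ i) - 1) := by
  classical
  induction I using Finset.induction_on with
  | empty => simp
  | insert i I hi ih =>
    rw [Finset.prod_insert hi, Finset.prod_insert hi, Finset.prod_insert hi]
    have h1 : 0 ≤ ∏ i ∈ I, a i := Finset.prod_nonneg fun i _ => ha0 i
    have h2 : ∏ i ∈ I, a i ≤ 1 := Finset.prod_le_one (fun i _ => ha0 i) (fun i _ => ha1 i)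
    have h3 : 1 ≤ ∏ i ∈ I, (1 + ρ i) := by
      calc (1 : ℝ) = ∏ _i ∈ I, (1 : ℝ) := by simp
        _ ≤ _ := Finset.prod_le_prod (fun _ _ => zero_le_one) (fun i _ => by linarith [hρ i])
    have h4 : (a i + ρ i) * ∏ i ∈ I, (a i + ρ i) ≤
        (a i + ρ i) * (∏ i ∈ I, a i + (∏ i ∈ I, (1 + ρ i) - 1)) :=
      mul_le_mul_of_nonneg_left ih (add_nonneg (ha0 i) (hρ i))
    refine h4.trans ?_
    have h5 := ha0 i
    have h6 := ha1 i
    have h7 := hρ i
    generalize ∏ i ∈ I, a i = P at h1 h2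
    generalize ∏ i ∈ I, (1 + ρ i) = R at h3
    have h8 : 0 ≤ (1 - a i) * (R - 1) := mul_nonneg (by linarith) (by linarith)
    have h9 : 0 ≤ ρ i * (1 - P) := mul_nonneg h7 (by linarith)
    nlinarith

open Classical in
lemma prod_ind_le {r : ℕ} (s : Fin r → ℝ) :
    ∏ i, (if -1 ≤ s i then (1 : ℝ) else 0) ≤
      ∏ i, (if 0 ≤ s i then (1 : ℝ) else 0) + ∑ i, (if -1 ≤ s i ∧ s i < 0 then (1 : ℝ) else 0) := by
  have h0 : 0 ≤ ∏ i, (if 0 ≤ s i then (1 : ℝ) else 0) :=
    Finset.prod_nonneg fun i _ => by split_ifs <;> norm_num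
  have h1 : ∀ i, (0 : ℝ) ≤ if -1 ≤ s i ∧ s i < 0 then (1 : ℝ) else 0 := fun i => by
    split_ifs <;> norm_num
  have h2 : 0 ≤ ∑ i, (if -1 ≤ s i ∧ s i < 0 then (1 : ℝ) else 0) :=
    Finset.sum_nonneg fun i _ => h1 i
  have h3 : ∏ i, (if -1 ≤ s i then (1 : ℝ) else 0) ≤ 1 :=
    Finset.prod_le_one (fun i _ => by split_ifs <;> norm_num) (fun i _ => by split_ifs <;> norm_num)
  by_cases h : ∀ i, 0 ≤ s i
  · have h4 : ∏ i, (if 0 ≤ s i then (1 : ℝ) else 0) = 1 :=
      Finset.prod_eq_one fun i _ => if_pos (h i)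
    linarith
  · push Not at h
    obtain ⟨i, hi⟩ := h
    by_cases h5 : -1 ≤ s i
    · have h6 := Finset.single_le_sum (f := fun i => if -1 ≤ s i ∧ s i < 0 then (1 : ℝ) else 0)
        (fun i _ => h1 i) (mem_univ i)
      simp only [h5, hi, and_self, if_true] at h6
      linarith
    · have h6 : ∏ i, (if -1 ≤ s i then (1 : ℝ) else 0) = 0 :=
        Finset.prod_eq_zero (mem_univ i) (if_neg h5)
      linarith

lemma T_le (t n : ℕ) (hn : n ≠ 0) : T t n ≤ 3 ^ n / 4 ^ t := by
  unfold T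
  rw [if_neg hn, le_div_iff₀ (by positivity)]
  have h1 := choose_le_three_pow (n - 1) (2 * t)
  have h2 : (2 : ℝ) ^ (2 * t) = 4 ^ t := by rw [pow_mul]; norm_num
  rw [h2] at h1
  refine h1.trans ?_
  exact pow_le_pow_right₀ (by norm_num) (by omega)

section defs

variable {A : Type*} {r : ℕ} (M : ℕ) (ex : ℕ → A → Prop) (y : Fin r → ℕ → A → ℝ) (β : Fin r → ℝ)

/-- truncation -/
noncomputable def trc (y : ℝ) : ℝ := if |y| ≤ 1 then y else 0

/-- exceptional blocks -/
def hit (j : ℕ) (a : A) : Prop := ex j a ∨ ∃ i, 1 < |y i j a|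

/-- exceptional blocks which are allowed -/
def hx (j : ℕ) (a : A) : Prop := hit ex y j a ∧ ¬ ex j a

/-- exceptional blocks outside the pattern -/
def ot (T : Finset ℕ) (j : ℕ) (a : A) : Prop := j ∉ T ∧ hit ex y j a

/-- indicator of allowed exceptional blocks in the pattern -/
noncomputable def iT (T : Finset ℕ) (X : ℕ → A) : ℝ := ∏ j ∈ T, ind (hx ex y) j (X j)

/-- the normalised sums -/
noncomputable def sS (i : Fin r) (X : ℕ → A) : ℝ := β i + ∑ j ∈ range M, y i j (X j)

/-- the function to be bounded -/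
noncomputable def Qf (X : ℕ → A) : ℝ :=
  P0 (cnt ex 0 M X) * ∏ i, (if 0 ≤ sS M y β i X then (1 : ℝ) else 0)

/-- the bad event -/
noncomputable def bad (i : Fin r) (X : ℕ → A) : ℝ :=
  if -1 ≤ sS M y β i X ∧ sS M y β i X < 0 then (1 : ℝ) else 0

lemma Qf_nonneg (X : ℕ → A) : 0 ≤ Qf M ex y β X :=
  mul_nonneg (P0_nonneg _) (Finset.prod_nonneg fun i _ => by split_ifs <;> norm_num)

lemma bad_nonneg (i : Fin r) (X : ℕ → A) : 0 ≤ bad M y β i X := by
  unfold bad; split_ifs <;> norm_num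

lemma iT_nonneg (T : Finset ℕ) (X : ℕ → A) : 0 ≤ iT ex y T X :=
  Finset.prod_nonneg fun j _ => ind_nonneg _ _ _

lemma iT_cases (T : Finset ℕ) (X : ℕ → A) : iT ex y T X = 0 ∨
    (iT ex y T X = 1 ∧ ∀ j ∈ T, hit ex y j (X j) ∧ ¬ ex j (X j)) := by
  classical
  by_cases h : ∀ j ∈ T, hx ex y j (X j)
  · right
    refine ⟨?_, h⟩
    unfold iT
    refine Finset.prod_eq_one fun j hj => ?_
    unfold ind
    rw [if_pos (h j hj)]
  · left
    push Not at h
    obtain ⟨j, hj, hn⟩ := h
    unfold iT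
    refine Finset.prod_eq_zero hj ?_
    unfold ind
    rw [if_neg hn]

lemma cnt_eq_zero {ht : ℕ → A → Prop} {M : ℕ} {X : ℕ → A} :
    cnt ht 0 M X = 0 ↔ ∀ j < M, ¬ ht j (X j) := by
  classical
  unfold cnt
  rw [Finset.card_eq_zero, Finset.filter_eq_empty_iff]
  constructor
  · intro h j hj; exact h (by simp [hj])
  · intro h j hj; exact h j (by simpa using hj)

variable [Fintype A]

/-- mean of the truncated variable -/
noncomputable def mn (i : Fin r) (j : ℕ) : ℝ := 𝔼 a, trc (y i j a)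

/-- centred truncated variable -/
noncomputable def wv (i : Fin r) (j : ℕ) (a : A) : ℝ := trc (y i j a) - mn y i j

/-- the part outside the pattern -/
noncomputable def tau (i : Fin r) (T : Finset ℕ) (X : ℕ → A) : ℝ :=
  ∑ j ∈ range M \ T, wv y i j (X j)

/-- the part inside the pattern -/
noncomputable def zed (i : Fin r) (T : Finset ℕ) (X : ℕ → A) : ℝ :=
  β i + ∑ j ∈ T, y i j (X j) + ∑ j ∈ range M \ T, mn y i j

lemma zed_add_tau (i : Fin r) {T : Finset ℕ} (hT : T ⊆ range M) (X : ℕ → A)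
    (h : ∀ j < M, j ∉ T → |y i j (X j)| ≤ 1) : zed M y β i T X + tau M y i T X = sS M y β i X := by
  unfold zed tau sS
  rw [← Finset.sum_sdiff hT]
  have e : ∑ j ∈ range M \ T, wv y i j (X j) + ∑ j ∈ range M \ T, mn y i j =
      ∑ j ∈ range M \ T, y i j (X j) := by
    rw [← Finset.sum_add_distrib]
    refine Finset.sum_congr rfl fun j hj => ?_
    rw [Finset.mem_sdiff, Finset.mem_range] at hj
    unfold wv trc
    rw [if_pos (h j hj.1 hj.2)]
    ring
  linarith

variable (t Dg : ℕ) (u : ℝ → ℕ → ℝ)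

/-- the polynomials -/
noncomputable def Uf' (z w : ℝ) : ℝ := ∑ l ∈ range Dg, u z l * w ^ l

/-- the upper bound -/
noncomputable def gf (X : ℕ → A) : ℝ :=
  ∑ T ∈ (range M).powerset with #T ≤ 2 * t,
    iT ex y T X * (FW.T t (cnt (ot ex y T) 0 M X) *
      ∏ i, Uf' Dg u (zed M y β i T X) (tau M y i T X)) +
    ((cnt (hit ex y) 0 M X).choose (2 * t + 1) : ℝ)

lemma Qf_le_gf (hU0 : ∀ z w, 0 ≤ Uf' Dg u z w) (hU1 : ∀ z w, 0 ≤ z + w → 1 ≤ Uf' Dg u z w)
    (X : ℕ → A) : Qf M ex y β X ≤ gf M ex y β t Dg u X := by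
  classical
  have hterm : ∀ T : Finset ℕ, 0 ≤ iT ex y T X * (FW.T t (cnt (ot ex y T) 0 M X) *
      ∏ i, Uf' Dg u (zed M y β i T X) (tau M y i T X)) := fun T =>
    mul_nonneg (iT_nonneg _ _ _ _) (mul_nonneg (T_nonneg _ _) (Finset.prod_nonneg fun i _ => hU0 _ _))
  have hsum : 0 ≤ ∑ T ∈ (range M).powerset with #T ≤ 2 * t, iT ex y T X *
      (FW.T t (cnt (ot ex y T) 0 M X) * ∏ i, Uf' Dg u (zed M y β i T X) (tau M y i T X)) :=
    Finset.sum_nonneg fun T _ => hterm T
  have hch : (0 : ℝ) ≤ ((cnt (hit ex y) 0 M X).choose (2 * t + 1) : ℝ) := by positivity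
  by_cases hQ : cnt ex 0 M X = 0 ∧ ∀ i, 0 ≤ sS M y β i X
  · obtain ⟨h1, h2⟩ := hQ
    have hQ1 : Qf M ex y β X = 1 := by
      unfold Qf P0
      rw [if_pos h1, one_mul]
      exact Finset.prod_eq_one fun i _ => if_pos (h2 i)
    rw [hQ1]
    unfold gf
    set H := (range M).filter (fun j => hit ex y j (X j)) with hH
    have hcard : #H = cnt (hit ex y) 0 M X := by
      unfold cnt
      rw [hH, Finset.range_eq_Ico]
    by_cases hc : #H ≤ 2 * t
    · have hmem : H ∈ (range M).powerset.filter (fun T => #T ≤ 2 * t) := by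
        rw [Finset.mem_filter, Finset.mem_powerset]
        exact ⟨Finset.filter_subset _ _, hc⟩
      have h3 := Finset.single_le_sum (f := fun T => iT ex y T X * (FW.T t (cnt (ot ex y T) 0 M X) *
        ∏ i, Uf' Dg u (zed M y β i T X) (tau M y i T X))) (fun T _ => hterm T) hmem
      have h4 : iT ex y H X = 1 := by
        unfold iT
        refine Finset.prod_eq_one fun j hj => ?_
        rw [hH, Finset.mem_filter, Finset.mem_range] at hj
        unfold ind
        rw [if_pos ⟨hj.2, cnt_eq_zero.mp h1 j hj.1⟩]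
      have hnot : ∀ j < M, j ∉ H → ¬ hit ex y j (X j) := by
        intro j hj hjH h
        exact hjH (by rw [hH, Finset.mem_filter, Finset.mem_range]; exact ⟨hj, h⟩)
      have h5 : cnt (ot ex y H) 0 M X = 0 := by
        rw [cnt_eq_zero]
        rintro j hj ⟨h6, h7⟩
        exact hnot j hj h6 h7
      have h6 : FW.T t 0 = 1 := by unfold FW.T; simp
      have h7 : 1 ≤ ∏ i, Uf' Dg u (zed M y β i H X) (tau M y i H X) := by
        calc (1 : ℝ) = ∏ _i : Fin r, (1 : ℝ) := by simp
          _ ≤ _ := by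
            refine Finset.prod_le_prod (fun _ _ => zero_le_one) (fun i _ => ?_)
            apply hU1
            rw [zed_add_tau M y β i (Finset.filter_subset _ _) X]
            · exact h2 i
            · intro j hj hjH
              by_contra h8
              push Not at h8
              exact hnot j hj hjH (Or.inr ⟨i, h8⟩)
      simp only [h4, h5, h6, one_mul] at h3
      linarith
    · push Not at hc
      have h3 : 1 ≤ (cnt (hit ex y) 0 M X).choose (2 * t + 1) := by
        apply Nat.choose_pos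
        omega
      have h4 : (1 : ℝ) ≤ ((cnt (hit ex y) 0 M X).choose (2 * t + 1) : ℝ) := by exact_mod_cast h3
      linarith
  · have hQ0 : Qf M ex y β X = 0 := by
      unfold Qf P0
      by_cases h1 : cnt ex 0 M X = 0
      · rw [if_pos h1, one_mul]
        have h2 : ∃ i, ¬ 0 ≤ sS M y β i X := by
          by_contra h3
          push Not at h3
          exact hQ ⟨h1, h3⟩
        obtain ⟨i, hi⟩ := h2
        exact Finset.prod_eq_zero (mem_univ i) (if_neg hi)
      · rw [if_neg h1, zero_mul]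
    rw [hQ0]
    unfold gf
    linarith

/-- The error of a pattern. -/
noncomputable def Err (W : ℝ → ℝ) (T : Finset ℕ) (X : ℕ → A) : ℝ :=
  ∑ i, W (tau M y i T X) +
    1 / 4 ^ t * (1 / 2 * (9 ^ cnt (ot ex y T) 0 M X + 1 + ∑ i, W (tau M y i T X)))

lemma term_le (Rem W : ℝ → ℝ) (hU0 : ∀ z w, 0 ≤ Uf' Dg u z w)
    (hU2 : ∀ z w, Uf' Dg u z w ≤ (if -1 ≤ z + w then 1 else 0) + Rem w)
    (hR0 : ∀ w, 0 ≤ Rem w) (hW : ∀ w, (1 + Rem w) ^ (2 * r) ≤ 1 + W w) (hW0 : ∀ w, 0 ≤ W w)
    {T : Finset ℕ} (hT : T ⊆ range M) (X : ℕ → A) [DecidablePred fun j => hit ex y j (X j)] :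
    iT ex y T X * (FW.T t (cnt (ot ex y T) 0 M X) *
      ∏ i, Uf' Dg u (zed M y β i T X) (tau M y i T X)) ≤
    (if T = (range M).filter (fun j => hit ex y j (X j)) then 1 else 0) *
      (Qf M ex y β X + ∑ i, bad M y β i X) + iT ex y T X * Err M ex y t W T X := by
  classical
  have hS0 : 0 ≤ ∑ i, W (tau M y i T X) := Finset.sum_nonneg fun i _ => hW0 _
  have hErr0 : 0 ≤ Err M ex y t W T X := by unfold Err; positivity
  have hQb : 0 ≤ Qf M ex y β X + ∑ i, bad M y β i X :=
    add_nonneg (Qf_nonneg _ _ _ _ _) (Finset.sum_nonneg fun i _ => bad_nonneg _ _ _ _ _)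
  rcases iT_cases ex y T X with h0 | ⟨h1, h2⟩
  · rw [h0, zero_mul, zero_mul, add_zero]
    exact mul_nonneg (by split_ifs <;> norm_num) hQb
  · rw [h1, one_mul, one_mul]
    set N := cnt (ot ex y T) 0 M X with hN
    set R := ∏ i, (1 + Rem (tau M y i T X)) with hR
    have hR1 : R ≤ 1 + ∑ i, W (tau M y i T X) := by
      refine (prod_le_one_add _ fun i => by have := hR0 (tau M y i T X); linarith).trans ?_
      gcongr with i _
      have h3 := hW (tau M y i T X)
      have h4 : (1 + Rem (tau M y i T X)) ^ r ≤ (1 + Rem (tau M y i T X)) ^ (2 * r) :=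
        pow_le_pow_right₀ (by have := hR0 (tau M y i T X); linarith) (by omega)
      linarith
    have hR2 : R ^ 2 ≤ 1 + ∑ i, W (tau M y i T X) := by
      rw [hR, ← Finset.prod_pow]
      refine (prod_le_one_add _ fun i => one_le_pow₀ (by
        have := hR0 (tau M y i T X); linarith)).trans ?_
      gcongr with i _
      have h3 := hW (tau M y i T X)
      rw [← pow_mul]
      linarith
    have hRnn : 0 ≤ R := Finset.prod_nonneg fun i _ => by have := hR0 (tau M y i T X); linarith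
    have hUle : ∏ i, Uf' Dg u (zed M y β i T X) (tau M y i T X) ≤
        ∏ i, ((if -1 ≤ zed M y β i T X + tau M y i T X then (1 : ℝ) else 0) +
          Rem (tau M y i T X)) :=
      Finset.prod_le_prod (fun i _ => hU0 _ _) (fun i _ => hU2 _ _)
    have hUle' : ∏ i, Uf' Dg u (zed M y β i T X) (tau M y i T X) ≤ R := by
      refine Finset.prod_le_prod (fun i _ => hU0 _ _) (fun i _ => (hU2 _ _).trans ?_)
      gcongr
      split_ifs <;> norm_num
    by_cases hN0 : N = 0
    · -- no exceptional block outside the pattern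
      have hTN : FW.T t N = 1 := by rw [hN0]; unfold FW.T; simp
      rw [hTN, one_mul]
      have hno := cnt_eq_zero.mp (hN ▸ hN0)
      have hTH : T = (range M).filter (fun j => hit ex y j (X j)) := by
        ext j
        rw [Finset.mem_filter, Finset.mem_range]
        constructor
        · intro hj; exact ⟨by simpa using hT hj, (h2 j hj).1⟩
        · rintro ⟨hj, hj2⟩
          by_contra hjT
          exact hno j hj ⟨hjT, hj2⟩
      rw [if_pos hTH, one_mul]
      have hz : ∀ i, zed M y β i T X + tau M y i T X = sS M y β i X := by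
        intro i
        apply zed_add_tau M y β i hT X
        intro j hj hjT
        by_contra h8
        push Not at h8
        exact hno j hj ⟨hjT, Or.inr ⟨i, h8⟩⟩
      simp only [hz] at hUle
      have h3 := prod_add_le univ (fun i => if -1 ≤ sS M y β i X then (1 : ℝ) else 0)
        (fun i => Rem (tau M y i T X)) (fun i => by split_ifs <;> norm_num)
        (fun i => by split_ifs <;> norm_num) (fun i => hR0 _)
      have h4 := prod_ind_le (fun i => sS M y β i X)
      have h5 : cnt ex 0 M X = 0 := by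
        rw [cnt_eq_zero]
        intro j hj hex
        by_cases hjT : j ∈ T
        · exact (h2 j hjT).2 hex
        · exact hno j hj ⟨hjT, Or.inl hex⟩
      have h6 : Qf M ex y β X = ∏ i, (if 0 ≤ sS M y β i X then (1 : ℝ) else 0) := by
        unfold Qf P0
        rw [if_pos h5, one_mul]
      have h7 : ∑ i, bad M y β i X = ∑ i, (if -1 ≤ sS M y β i X ∧ sS M y β i X < 0 then (1 : ℝ)
        else 0) := rfl
      have h8 : 0 ≤ 1 / (4 : ℝ) ^ t * (1 / 2 * (9 ^ N + 1 + ∑ i, W (tau M y i T X))) := by positivity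
      unfold Err
      rw [h6, h7]
      rw [← hR] at h3
      have : ∏ i, Uf' Dg u (zed M y β i T X) (tau M y i T X) ≤ _ := hUle.trans h3
      linarith
    · -- at least one exceptional block outside the pattern
      have h3 : FW.T t N * ∏ i, Uf' Dg u (zed M y β i T X) (tau M y i T X) ≤ 3 ^ N / 4 ^ t * R :=
        mul_le_mul (T_le t N hN0) hUle' (Finset.prod_nonneg fun i _ => hU0 _ _) (by positivity)
      have h4 : (3 : ℝ) ^ N * R ≤ 1 / 2 * (9 ^ N + R ^ 2) := by
        have h5 : (9 : ℝ) ^ N = (3 ^ N) ^ 2 := by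
          rw [← pow_mul, mul_comm, pow_mul]; norm_num
        rw [h5]
        nlinarith [sq_nonneg ((3 : ℝ) ^ N - R)]
      have h5 : 3 ^ N / 4 ^ t * R ≤ 1 / 4 ^ t * (1 / 2 * (9 ^ N + 1 + ∑ i, W (tau M y i T X))) := by
        calc (3 : ℝ) ^ N / 4 ^ t * R = 1 / 4 ^ t * (3 ^ N * R) := by ring
          _ ≤ 1 / 4 ^ t * (1 / 2 * (9 ^ N + R ^ 2)) := mul_le_mul_of_nonneg_left h4 (by positivity)
          _ ≤ _ := by
              apply mul_le_mul_of_nonneg_left _ (by positivity)
              linarith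
      have h6 : 0 ≤ (if T = (range M).filter (fun j => hit ex y j (X j)) then (1 : ℝ) else 0) *
          (Qf M ex y β X + ∑ i, bad M y β i X) :=
        mul_nonneg (by split_ifs <;> norm_num) hQb
      unfold Err
      linarith

theorem gf_le (Rem W : ℝ → ℝ) (hU0 : ∀ z w, 0 ≤ Uf' Dg u z w)
    (hU2 : ∀ z w, Uf' Dg u z w ≤ (if -1 ≤ z + w then 1 else 0) + Rem w)
    (hR0 : ∀ w, 0 ≤ Rem w) (hW : ∀ w, (1 + Rem w) ^ (2 * r) ≤ 1 + W w) (hW0 : ∀ w, 0 ≤ W w)
    (X : ℕ → A) :
    gf M ex y β t Dg u X ≤ Qf M ex y β X + ∑ i, bad M y β i X +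
      ((cnt (hit ex y) 0 M X).choose (2 * t + 1) : ℝ) +
      ∑ T ∈ (range M).powerset, iT ex y T X * Err M ex y t W T X := by
  classical
  unfold gf
  have hQb : 0 ≤ Qf M ex y β X + ∑ i, bad M y β i X :=
    add_nonneg (Qf_nonneg _ _ _ _ _) (Finset.sum_nonneg fun i _ => bad_nonneg _ _ _ _ _)
  have h1 : ∑ T ∈ (range M).powerset with #T ≤ 2 * t,
      iT ex y T X * (FW.T t (cnt (ot ex y T) 0 M X) *
        ∏ i, Uf' Dg u (zed M y β i T X) (tau M y i T X)) ≤
      ∑ T ∈ (range M).powerset with #T ≤ 2 * t,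
        ((if T = (range M).filter (fun j => hit ex y j (X j)) then 1 else 0) *
      (Qf M ex y β X + ∑ i, bad M y β i X) + iT ex y T X * Err M ex y t W T X) := by
    refine Finset.sum_le_sum fun T hT => ?_
    rw [Finset.mem_filter, Finset.mem_powerset] at hT
    exact term_le M ex y β t Dg u Rem W hU0 hU2 hR0 hW hW0 hT.1 X
  rw [Finset.sum_add_distrib, ← Finset.sum_mul] at h1
  have h2 : ∑ T ∈ (range M).powerset with #T ≤ 2 * t,
      (if T = (range M).filter (fun j => hit ex y j (X j)) then (1 : ℝ) else 0) ≤ 1 := by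
    rw [Finset.sum_ite_eq']
    split_ifs <;> norm_num
  have h3 : ∑ T ∈ (range M).powerset with #T ≤ 2 * t, iT ex y T X * Err M ex y t W T X ≤
      ∑ T ∈ (range M).powerset, iT ex y T X * Err M ex y t W T X := by
    apply Finset.sum_le_sum_of_subset_of_nonneg (Finset.filter_subset _ _)
    intro T _ _
    apply mul_nonneg (iT_nonneg _ _ _ _)
    unfold Err
    have : 0 ≤ ∑ i, W (tau M y i T X) := Finset.sum_nonneg fun i _ => hW0 _
    positivity
  have h4 := mul_le_mul_of_nonneg_right h2 hQb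
  linarith

end defs

end Pool.Agent.H73.HS
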