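import Pool.Agent.H9.PRG.Defs

/-!
# Programs with real registers and a rarely changing control state

Ordered read-once branching programs, acceptance probabilities and explicitness are defined in
`Pool.Agent.H9.PRG.Defs`.
-/

open Finset

namespace Pool.Agent.H73.HS

open Pool.Agent.H9.PRG

/-- A computation of length `n` whose memory consists of the last `L` bits read, of a control state
in the set `V`, and of `m` registers containing real numbers. Step `t` reads the bit `x t`. The data
of the step are determined by the last `L` bits read before the step and by the bit read in the
step: whether there is an event (depending on the control state); if there is one, the new control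
state, as a function of the old one and of the set of those registers whose content is at least the
threshold `thr` of the register; and the operations on the registers: in control state `v`, the
registers in `rst` are overwritten by `val`, and to the others `val` is added. Without an event the
control state is not changed. After `n` steps the input is accepted if the set of those registers
whose content is at least the threshold belongs to `acc`, which depends on the control state and on
the last `L` bits read. There is no restriction on the set `V`, on the real numbers, and on the
dependence of the data on `t`, on the control state and on the last `L` bits. -/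
structure RegMem (n L m : ℕ) (V : Type) where
  /-- initial control state -/
  init : V
  /-- initial contents of the registers -/
  reg0 : Fin m → ℝ
  /-- there is an event -/
  evt : ℕ → (ℕ → Bool) → V → Prop
  /-- new control state after an event -/
  nxt : ℕ → (ℕ → Bool) → V → Set (Fin m) → V
  /-- thresholds of the registers -/
  thr : ℕ → (ℕ → Bool) → V → Fin m → ℝ
  /-- registers which are overwritten -/
  rst : ℕ → (ℕ → Bool) → V → Set (Fin m)
  /-- numbers which are written, respectively added -/
  val : ℕ → (ℕ → Bool) → V → Fin m → ℝ
  /-- accepted sets -/
  acc : (ℕ → Bool) → V → Set (Set (Fin m))
  step_local : ∀ t < n, ∀ x x' : ℕ → Bool, (∀ j, t ≤ j + L → j ≤ t → x j = x' j) →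
    evt t x = evt t x' ∧ nxt t x = nxt t x' ∧ thr t x = thr t x' ∧ rst t x = rst t x' ∧
      val t x = val t x'
  acc_local : ∀ x x' : ℕ → Bool, (∀ j, n ≤ j + L → j < n → x j = x' j) →
    thr n x = thr n x' ∧ acc x = acc x'

namespace RegMem

variable {n L m : ℕ} {V : Type}

/-- The registers whose content is at least the threshold. -/
def above (D : RegMem n L m V) (t : ℕ) (x : ℕ → Bool) (c : V × (Fin m → ℝ)) : Set (Fin m) :=
  {i | D.thr t x c.1 i ≤ c.2 i}

/-- Step `t` on the input `x`. -/
noncomputable def step (D : RegMem n L m V) (t : ℕ) (x : ℕ → Bool) (c : V × (Fin m → ℝ)) :
    V × (Fin m → ℝ) := open Classical in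
  (if D.evt t x c.1 then D.nxt t x c.1 (D.above t x c) else c.1,
    fun i => if i ∈ D.rst t x c.1 then D.val t x c.1 i else c.2 i + D.val t x c.1 i)

/-- Control state and registers after `t` steps on the input `x`. -/
noncomputable def conf (D : RegMem n L m V) (x : ℕ → Bool) : ℕ → V × (Fin m → ℝ)
  | 0 => (D.init, D.reg0)
  | t + 1 => D.step t x (D.conf x t)

/-- The number of events among the first `t` steps on the input `x`. -/
noncomputable def events (D : RegMem n L m V) (x : ℕ → Bool) : ℕ → ℕ
  | 0 => 0
  | t + 1 => open Classical in
      if D.evt t x (D.conf x t).1 then D.events x t + 1 else D.events x t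

/-- The input `x` is accepted. -/
def Accepts (D : RegMem n L m V) (x : ℕ → Bool) : Prop :=
  D.above n x (D.conf x n) ∈ D.acc x (D.conf x n).1

/-- `D` computes the output of the program `P`. -/
def Computes (D : RegMem n L m V) (P : ROBP n) : Prop :=
  ∀ x : ℕ → Bool, P.run x = true ↔ D.Accepts x

/-- The probability that there are more than `K` events on a uniformly random input. -/
noncomputable def probMore (D : RegMem n L m V) (K : ℕ) : ℝ :=
  (#{x : Fin n → Bool | K < D.events (seqOf x) n} : ℝ) / 2 ^ n

end RegMem

end Pool.Agent.H73.HS
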