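import Pool.Agent.H73.HS.Core

/-!
The expectation of the upper bound, and its degree.
-/

open Finset
open scoped BigOperators

namespace Pool.Agent.H73.HS

open Pool.Agent.H73.FW

variable {A : Type*} {r : ℕ} (M : ℕ) (ex : ℕ → A → Prop) (y : Fin r → ℕ → A → ℝ) (β : Fin r → ℝ)

lemma iT_dep (T : Finset ℕ) : DepOn (↑T) (iT ex y T) := by
  intro X Y H
  unfold iT
  refine Finset.prod_congr rfl fun j hj => ?_
  rw [H j (by simpa using hj)]

lemma nine_pow (T : Finset ℕ) (X : ℕ → A) : (9 : ℝ) ^ cnt (ot ex y T) 0 M X =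
    ∏ j ∈ range M \ T, (1 + 8 * ind (hit ex y) j (X j)) := by
  classical
  have h1 : ∀ j ∈ range M \ T, (1 + 8 * ind (hit ex y) j (X j)) =
      if hit ex y j (X j) then (9 : ℝ) else 1 := by
    intro j _
    unfold ind
    split_ifs <;> norm_num
  rw [Finset.prod_congr rfl h1, Finset.prod_ite]
  simp only [Finset.prod_const, one_pow, mul_one]
  congr 1
  unfold cnt ot
  congr 1
  ext j
  simp only [Finset.mem_filter, Finset.mem_Ico, Finset.mem_sdiff, Finset.mem_range, Nat.zero_le,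
    true_and, and_assoc]

variable [Fintype A]

lemma zed_dep (i : Fin r) (T : Finset ℕ) : DepOn (↑T) (zed M y β i T) := by
  intro X Y H
  unfold zed
  congr 2
  refine Finset.sum_congr rfl fun j hj => ?_
  rw [H j (by simpa using hj)]

lemma tau_jun (i : Fin r) (T : Finset ℕ) : tau M y i T ∈ Jun A M 1 := by
  unfold tau
  refine FW.Jun.sum _ fun j hj => ?_
  rw [Finset.mem_sdiff, Finset.mem_range] at hj
  exact FW.Jun.single hj.1 (wv y i j)

lemma gf_jun (t Dg : ℕ) (u : ℝ → ℕ → ℝ) :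
    gf M ex y β t Dg u ∈ Jun A M (2 * t + (2 * t + r * (2 * t + Dg)) + (2 * t + 1)) := by
  classical
  unfold gf
  refine FW.Jun.add (FW.Jun.sum _ fun T hT => ?_) ?_
  · rw [Finset.mem_filter, Finset.mem_powerset] at hT
    have h1 : iT ex y T ∈ Jun A M (2 * t) := FW.Jun.of T hT.1 hT.2 (iT_dep ex y T)
    have h2 : (fun X => FW.T t (cnt (ot ex y T) 0 M X)) ∈ Jun A M (2 * t) :=
      T_cnt_jun _ t (Nat.zero_le M) le_rfl
    have h3 : ∀ i : Fin r, (fun X => Uf' Dg u (zed M y β i T X) (tau M y i T X)) ∈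
        Jun A M (2 * t + Dg) := by
      intro i
      unfold Uf'
      refine FW.Jun.sum _ fun l hl => ?_
      have h4 : (fun X => u (zed M y β i T X) l) ∈ Jun A M (2 * t) := by
        apply FW.Jun.of T hT.1 hT.2
        intro X Y H
        show u _ l = u _ l
        rw [zed_dep M y β i T X Y H]
      have h5 := Jun.pow (tau_jun M y i T) l
      refine FW.Jun.mono ?_ (FW.Jun.mul h4 h5)
      have := Finset.mem_range.mp hl
      omega
    have h6 := Jun.prod (univ : Finset (Fin r)) (fun i _ => h3 i)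
    rw [Finset.card_univ, Fintype.card_fin] at h6
    exact FW.Jun.mono (by omega) (FW.Jun.mul h1 (FW.Jun.mul h2 h6))
  · have h := choose_cnt_jun (M := M) (hit ex y) 0 M (2 * t + 1) (by omega)
    rw [Nat.zero_add] at h
    exact FW.Jun.mono (by omega) h

/-- The sum over the patterns. -/
noncomputable def pr (φ : ℕ → A → ℝ) (X : ℕ → A) : ℝ :=
  ∏ j ∈ range M, (ind (hx ex y) j (X j) + φ j (X j))

omit [Fintype A] in
lemma sum_iT (φ : ℕ → A → ℝ) (X : ℕ → A) :
    ∑ T ∈ (range M).powerset, iT ex y T X * ∏ j ∈ range M \ T, φ j (X j) = pr M ex y φ X :=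
  sum_patterns M (fun j a => ind (hx ex y) j a) φ X

/-- The error function. -/
noncomputable def Wf (a κ1 θ1 κ2 θ2 : ℝ) (w : ℝ) : ℝ :=
  a + κ1 * (Real.exp (θ1 * w) + Real.exp (-θ1 * w)) + κ2 * (Real.exp (θ2 * w) + Real.exp (-θ2 * w))

lemma exp_abs_le (θ w : ℝ) : Real.exp (θ * |w|) ≤ Real.exp (θ * w) + Real.exp (-θ * w) := by
  rcases abs_cases w with h | h
  · rw [h.1]
    have := Real.exp_pos (-θ * w)
    linarith
  · rw [h.1, show θ * -w = -θ * w by ring]
    have := Real.exp_pos (θ * w)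
    linarith

lemma exp_tau (θ : ℝ) (i : Fin r) (T : Finset ℕ) (X : ℕ → A) :
    Real.exp (θ * tau M y i T X) = ∏ j ∈ range M \ T, Real.exp (θ * wv y i j (X j)) := by
  unfold tau
  rw [Finset.mul_sum, Real.exp_sum]

lemma sum_err (a κ1 θ1 κ2 θ2 : ℝ) (t : ℕ) (X : ℕ → A) :
    ∑ T ∈ (range M).powerset, iT ex y T X * Err M ex y t (Wf a κ1 θ1 κ2 θ2) T X =
      (1 + 1 / 4 ^ t * (1 / 2)) * ∑ i, (a * pr M ex y (fun _ _ => 1) X +
        κ1 * (pr M ex y (fun j a => Real.exp (θ1 * wv y i j a)) X +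
          pr M ex y (fun j a => Real.exp (-θ1 * wv y i j a)) X) +
        κ2 * (pr M ex y (fun j a => Real.exp (θ2 * wv y i j a)) X +
          pr M ex y (fun j a => Real.exp (-θ2 * wv y i j a)) X)) +
      1 / 4 ^ t * (1 / 2) * (pr M ex y (fun j a => 1 + 8 * ind (hit ex y) j a) X +
        pr M ex y (fun _ _ => 1) X) := by
  have h1 : ∀ T : Finset ℕ, iT ex y T X * Err M ex y t (Wf a κ1 θ1 κ2 θ2) T X =
      (1 + 1 / 4 ^ t * (1 / 2)) * ∑ i, (a * (iT ex y T X * ∏ j ∈ range M \ T, (1 : ℝ)) +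
        κ1 * (iT ex y T X * ∏ j ∈ range M \ T, Real.exp (θ1 * wv y i j (X j)) +
          iT ex y T X * ∏ j ∈ range M \ T, Real.exp (-θ1 * wv y i j (X j))) +
        κ2 * (iT ex y T X * ∏ j ∈ range M \ T, Real.exp (θ2 * wv y i j (X j)) +
          iT ex y T X * ∏ j ∈ range M \ T, Real.exp (-θ2 * wv y i j (X j)))) +
      1 / 4 ^ t * (1 / 2) * (iT ex y T X * ∏ j ∈ range M \ T, (1 + 8 * ind (hit ex y) j (X j)) +
        iT ex y T X * ∏ j ∈ range M \ T, (1 : ℝ)) := by
    intro T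
    simp only [← exp_tau, ← nine_pow, Finset.prod_const_one]
    unfold Err Wf
    have h2 : ∑ i : Fin r, (a * (iT ex y T X * 1) +
        κ1 * (iT ex y T X * Real.exp (θ1 * tau M y i T X) +
          iT ex y T X * Real.exp (-θ1 * tau M y i T X)) +
        κ2 * (iT ex y T X * Real.exp (θ2 * tau M y i T X) +
          iT ex y T X * Real.exp (-θ2 * tau M y i T X))) =
        iT ex y T X * ∑ i : Fin r, (a + κ1 * (Real.exp (θ1 * tau M y i T X) +
          Real.exp (-θ1 * tau M y i T X)) + κ2 * (Real.exp (θ2 * tau M y i T X) +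
          Real.exp (-θ2 * tau M y i T X))) := by
      rw [Finset.mul_sum]
      refine Finset.sum_congr rfl fun i _ => ?_
      ring
    rw [h2]
    ring
  rw [Finset.sum_congr rfl fun T _ => h1 T, Finset.sum_add_distrib, ← Finset.mul_sum,
    ← Finset.mul_sum, Finset.sum_comm, Finset.sum_add_distrib]
  have h3 := sum_iT M ex y (fun _ _ => 1) X
  have h4 := sum_iT M ex y (fun j a => 1 + 8 * ind (hit ex y) j a) X
  have h5 : ∀ (θ : ℝ) (i : Fin r), ∑ T ∈ (range M).powerset,
      iT ex y T X * ∏ j ∈ range M \ T, Real.exp (θ * wv y i j (X j)) =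
      pr M ex y (fun j a => Real.exp (θ * wv y i j a)) X := fun θ i =>
    sum_iT M ex y (fun j a => Real.exp (θ * wv y i j a)) X
  rw [h3, h4]
  congr 2
  refine Finset.sum_congr rfl fun i _ => ?_
  simp only [Finset.sum_add_distrib, ← Finset.mul_sum]
  rw [h3, h5, h5, h5, h5]

end Pool.Agent.H73.HS
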