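import Pool.Agent.H73.HS.LemH
import Pool.Agent.H73.FW.Rec

/-!
Fixing one coordinate.
-/

open Finset
open scoped BigOperators

namespace Pool.Agent.H73.HS

open Pool.Agent.H73.FW

variable {A : Type*} [Fintype A]

lemma Ex_expect {ι : Type*} [Fintype ι] (s d : ℕ) (h : ι → (ℕ → A) → ℝ) (X : ℕ → A) :
    Ex s d (fun X => 𝔼 i, h i X) X = 𝔼 i, Ex s d (h i) X := by
  induction d generalizing s X with
  | zero => rfl
  | succ d ih =>
    simp only [Ex, ih]
    exact Finset.expect_comm _ _ _

variable [Nonempty A]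

lemma E_expect {ι : Type*} [Fintype ι] (M : ℕ) (h : ι → (ℕ → A) → ℝ) :
    E M (fun X => 𝔼 i, h i X) = 𝔼 i, E M (h i) := Ex_expect _ _ _ _

/-- Averaging over coordinate `j` separately. -/
lemma E_coord {M j : ℕ} (hj : j < M) (Φ : A → (ℕ → A) → ℝ)
    (hΦ : ∀ a, DepOn {l | l ≠ j} (Φ a)) : E M (fun X => Φ (X j) X) = 𝔼 a, E M (Φ a) := by
  obtain ⟨b, rfl⟩ := Nat.exists_eq_add_of_le (show j + 1 ≤ M from hj)
  -- averages over the later coordinates
  have h2 : ∀ (b s : ℕ), j < s → ∀ X, Ex s b (fun X => Φ (X j) X) X = Ex s b (Φ (X j)) X := by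
    intro b
    induction b with
    | zero => intro s _ X; rfl
    | succ b ih =>
      intro s hs X
      simp only [Ex]
      refine Finset.expect_congr rfl fun a _ => ?_
      rw [ih (s + 1) (by omega)]
      rw [Function.update_of_ne (by omega : j ≠ s)]
  have h3 : ∀ (a c : A) (X : ℕ → A), Ex (j + 1) b (Φ a) (Function.update X j c) =
      Ex (j + 1) b (Φ a) X := by
    intro a c X
    apply Ex_rel (hΦ a)
    intro l hl _
    rw [Function.update_of_ne hl]
  unfold E
  rw [Ex_split]
  simp only [Nat.zero_add]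
  rw [Ex_congr (h2 b (j + 1) (by omega)), Ex_split 0 j 1]
  have h4 : ∀ X : ℕ → A, Ex (0 + j) 1 (fun X => Ex (j + 1) b (Φ (X j)) X) X =
      𝔼 a, Ex (j + 1) b (Φ a) X := by
    intro X
    simp only [Nat.zero_add, Ex, Function.update_self]
    refine Finset.expect_congr rfl fun a _ => ?_
    exact h3 a a X
  rw [Ex_congr h4, Ex_expect]
  refine Finset.expect_congr rfl fun a _ => ?_
  rw [Ex_split 0 (j + 1) b, Ex_split 0 j 1]
  simp only [Nat.zero_add]
  apply Ex_congr
  intro X
  simp only [Ex]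
  have h5 : ∀ c : A, Ex (j + 1) b (Φ a) (Function.update X j c) = Ex (j + 1) b (Φ a) X :=
    fun c => h3 a c X
  rw [Finset.expect_congr rfl fun c _ => h5 c, Fintype.expect_const]

omit [Fintype A] [Nonempty A] in
lemma Jun.expect {M k : ℕ} {ι : Type*} [Fintype ι] {h : ι → (ℕ → A) → ℝ}
    (hh : ∀ i, h i ∈ Jun A M k) : (fun X => 𝔼 i, h i X) ∈ Jun A M k := by
  have e : (fun X : ℕ → A => 𝔼 i, h i X) = fun X => (1 / (Fintype.card ι : ℝ)) * ∑ i, h i X := by
    funext X
    rw [Fintype.expect_eq_sum_div_card]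
    ring
  rw [e]
  exact FW.Jun.cmul _ (FW.Jun.sum _ fun i _ => hh i)

/-- A family of upper bounds, indexed by the value of one coordinate. -/
theorem fix {M k j : ℕ} (hj : j < M) (ρ : A → ℝ) (hρ : ∀ a, 0 ≤ ρ a) (ε : ℝ)
    (Q : A → (ℕ → A) → ℝ) (hQ : ∀ a, DepOn {l | l ≠ j} (Q a))
    (hg : ∀ a, ∃ g ∈ Jun A M k, (∀ X, Q a X ≤ g X) ∧ E M g ≤ E M (Q a) + ε) :
    ∃ g ∈ Jun A M (k + 1), (∀ X, ρ (X j) * Q (X j) X ≤ g X) ∧
      E M g ≤ E M (fun X => ρ (X j) * Q (X j) X) + (𝔼 a, ρ a) * ε := by
  choose g hg1 hg2 hg3 using hg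
  set G : A → (ℕ → A) → ℝ := fun a X => ρ a * 𝔼 y : A, g a (Function.update X j y) with hG
  have hGdep : ∀ a, DepOn {l | l ≠ j} (G a) := by
    intro a X Y H
    simp only [hG]
    congr 1
    refine Finset.expect_congr rfl fun y _ => ?_
    congr 1
    funext l
    by_cases hl : l = j
    · subst hl; simp
    · rw [Function.update_of_ne hl, Function.update_of_ne hl]; exact H l hl
  have hGjun : ∀ a, G a ∈ Jun A M k := fun a =>
    FW.Jun.cmul _ (Jun.expect fun y => Jun.update (hg1 a) j y)
  refine ⟨fun X => G (X j) X, FW.Jun.mono (by omega) (FW.Jun.family hj hGjun), fun X => ?_, ?_⟩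
  · simp only [hG]
    apply mul_le_mul_of_nonneg_left _ (hρ _)
    apply Finset.le_expect univ_nonempty
    intro y _
    refine le_trans (le_of_eq ?_) (hg2 (X j) _)
    apply hQ
    intro l hl
    rw [Function.update_of_ne hl]
  · rw [E_coord hj G hGdep, E_coord hj (fun a X => ρ a * Q a X) (fun a X Y H => by
      show ρ a * Q a X = ρ a * Q a Y
      rw [hQ a X Y H])]
    rw [Finset.expect_mul, ← Finset.expect_add_distrib]
    refine Finset.expect_le_expect fun a _ => ?_
    simp only [hG]
    rw [E_const_mul, E_const_mul, ← mul_add]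
    apply mul_le_mul_of_nonneg_left _ (hρ a)
    refine le_trans (le_of_eq ?_) (hg3 a)
    rw [E_expect]
    -- replacing an averaged coordinate does not change the average
    have h1 : E M (fun X => g a (Function.update X j (X j))) =
        𝔼 y, E M (fun X => g a (Function.update X j y)) :=
      E_coord hj (fun y X => g a (Function.update X j y)) (fun y X Y H => by
        show g a _ = g a _
        congr 1
        funext l
        by_cases hl : l = j
        · subst hl; simp
        · rw [Function.update_of_ne hl, Function.update_of_ne hl]; exact H l hl)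
    rw [← h1]
    apply E_congr
    intro X
    rw [Function.update_eq_self]

end Pool.Agent.H73.HS
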