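import Mathlib

/-!
Two integral estimates: the Fejér kernel, and `∫₀¹ exp(-D (1 - cos (u x)) / min(1, x²)) du ≤ C/√D`.
-/

open Real MeasureTheory

namespace Pool.Agent.H73.HS

/-- A nonnegative kernel with nonnegative Fourier coefficients. -/
noncomputable def fej (y : ℝ) : ℝ := ∫ u in (0 : ℝ)..1, 2 * (1 - u) * cos (u * y)

lemma fej_eq (y : ℝ) (hy : y ≠ 0) : fej y = 2 * (1 - cos y) / y ^ 2 := by
  have h : ∀ u ∈ Set.uIcc (0 : ℝ) 1, HasDerivAt
      (fun u => 2 * ((1 - u) * sin (u * y) / y - cos (u * y) / y ^ 2))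
      (2 * (1 - u) * cos (u * y)) u := by
    intro u _
    have h1 : HasDerivAt (fun u : ℝ => u * y) y u := by
      simpa using (hasDerivAt_id u).mul_const y
    have h2 : HasDerivAt (fun u : ℝ => sin (u * y)) (cos (u * y) * y) u := h1.sin
    have h3 : HasDerivAt (fun u : ℝ => cos (u * y)) (-sin (u * y) * y) u := h1.cos
    have h4 : HasDerivAt (fun u : ℝ => 1 - u) (-1) u := by
      simpa using (hasDerivAt_id u).const_sub 1
    have h5 := (((h4.mul h2).div_const y).sub (h3.div_const (y ^ 2))).const_mul 2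
    have h6 : HasDerivAt (fun u => 2 * ((1 - u) * sin (u * y) / y - cos (u * y) / y ^ 2))
      (2 * ((-1 * sin (u * y) + (1 - u) * (cos (u * y) * y)) / y - -sin (u * y) * y / y ^ 2)) u := h5
    refine h6.congr_deriv ?_
    field_simp
    ring
  unfold fej
  rw [intervalIntegral.integral_eq_sub_of_hasDerivAt h]
  · simp
    ring
  · apply Continuous.intervalIntegrable
    fun_prop

lemma fej_zero : fej 0 = 1 := by
  unfold fej
  simp only [mul_zero, cos_zero, mul_one]
  rw [intervalIntegral.integral_const_mul, intervalIntegral.integral_sub (by simp) (by simp)]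
  simp
  norm_num

lemma fej_nonneg (y : ℝ) : 0 ≤ fej y := by
  by_cases hy : y = 0
  · rw [hy, fej_zero]; norm_num
  · rw [fej_eq y hy]
    have := cos_le_one y
    apply div_nonneg _ (by positivity)
    linarith

lemma fej_ge (y : ℝ) (hy : |y| ≤ 1) : 1 / 2 ≤ fej y := by
  by_cases h0 : y = 0
  · rw [h0, fej_zero]; norm_num
  · rw [fej_eq y h0]
    have hy2 : 0 < y ^ 2 := by positivity
    rw [le_div_iff₀ hy2]
    -- use the second order bound of the cosine
    have h4 : cos y ≤ 1 - y ^ 2 / 2 + y ^ 4 * (5 / 96) := by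
      have := cos_bound hy
      have h5 := (abs_le.mp this).2
      have h6 : |y| ^ 4 = y ^ 4 := by
        rw [← abs_pow, abs_of_nonneg (by positivity)]
      rw [h6] at h5
      linarith
    have h7 : y ^ 4 ≤ y ^ 2 := by
      have h8 : y ^ 2 ≤ 1 := by
        rw [← sq_abs]
        exact pow_le_one₀ (abs_nonneg y) hy
      have : y ^ 4 = y ^ 2 * y ^ 2 := by ring
      rw [this]
      nlinarith
    nlinarith

lemma fej_cont_aux (c : ℝ) : IntervalIntegrable (fun u : ℝ => 2 * (1 - u) * cos (u * c)) volume 0 1 := by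
  apply Continuous.intervalIntegrable
  fun_prop

/-- `β(D)` -/
noncomputable def bet (D : ℝ) : ℝ := 2 * √(π / (2 / π ^ 2 * D))

lemma gauss_le (b : ℝ) (hb : 0 < b) (a c : ℝ) (hac : a ≤ c) :
    ∫ u in a..c, exp (-b * u ^ 2) ≤ √(π / b) := by
  rw [← integral_gaussian b, intervalIntegral.integral_of_le hac]
  apply setIntegral_le_integral (integrable_exp_neg_mul_sq hb)
  exact Filter.Eventually.of_forall fun x => (exp_pos _).le

lemma int_small (D x : ℝ) (hD : 0 < D) (hx0 : x ≠ 0) (hx : |x| ≤ 1) :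
    ∫ u in (0 : ℝ)..1, exp (-(D * ((1 - cos (u * x)) / x ^ 2))) ≤ bet D := by
  have hx2 : 0 < x ^ 2 := by positivity
  have h1 : ∫ u in (0 : ℝ)..1, exp (-(D * ((1 - cos (u * x)) / x ^ 2))) ≤
      ∫ u in (0 : ℝ)..1, exp (-(2 / π ^ 2 * D) * u ^ 2) := by
    apply intervalIntegral.integral_mono_on (by norm_num)
    · apply Continuous.intervalIntegrable; fun_prop
    · apply Continuous.intervalIntegrable; fun_prop
    · intro u hu
      apply exp_le_exp.mpr
      have h2 : |u * x| ≤ π := by
        rw [abs_mul, abs_of_nonneg hu.1]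
        have : u * |x| ≤ 1 * 1 := mul_le_mul hu.2 hx (abs_nonneg x) (by norm_num)
        linarith [pi_gt_three]
      have h3 := cos_le_one_sub_mul_cos_sq h2
      have h4 : 2 / π ^ 2 * u ^ 2 ≤ (1 - cos (u * x)) / x ^ 2 := by
        rw [le_div_iff₀ hx2]
        have : (u * x) ^ 2 = u ^ 2 * x ^ 2 := by ring
        rw [this] at h3
        linarith
      have := mul_le_mul_of_nonneg_left h4 hD.le
      linarith
  refine h1.trans ((gauss_le _ (by positivity) 0 1 (by norm_num)).trans ?_)
  unfold bet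
  have : 0 ≤ √(π / (2 / π ^ 2 * D)) := sqrt_nonneg _
  linarith

lemma int_period (D : ℝ) (hD : 0 < D) :
    ∫ v in (0 : ℝ)..(2 * π), exp (-(D * (1 - cos v))) ≤ √(π / (2 / π ^ 2 * D)) := by
  have hper : Function.Periodic (fun v : ℝ => exp (-(D * (1 - cos v)))) (2 * π) := by
    intro v
    simp only [cos_add_two_pi]
  have h1 : ∫ v in (0 : ℝ)..(2 * π), exp (-(D * (1 - cos v))) =
      ∫ v in (-π)..π, exp (-(D * (1 - cos v))) := by
    have := hper.intervalIntegral_add_eq 0 (-π)
    rw [zero_add] at this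
    rw [this]
    congr 1
    ring
  rw [h1]
  refine le_trans ?_ (gauss_le (2 / π ^ 2 * D) (by positivity) (-π) π (by linarith [pi_pos]))
  apply intervalIntegral.integral_mono_on (by linarith [pi_pos])
  · apply Continuous.intervalIntegrable; fun_prop
  · apply Continuous.intervalIntegrable; fun_prop
  · intro u hu
    apply exp_le_exp.mpr
    have h3 := cos_le_one_sub_mul_cos_sq (x := u) (abs_le.mpr ⟨hu.1, hu.2⟩)
    have h4 : 2 / π ^ 2 * u ^ 2 ≤ 1 - cos u := by linarith
    have := mul_le_mul_of_nonneg_left h4 hD.le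
    linarith

lemma int_large (D x : ℝ) (hD : 0 < D) (hx : 1 ≤ x) :
    ∫ u in (0 : ℝ)..1, exp (-(D * (1 - cos (u * x)))) ≤ bet D := by
  have hx0 : x ≠ 0 := by linarith
  have h1 : ∫ u in (0 : ℝ)..1, exp (-(D * (1 - cos (u * x)))) =
      x⁻¹ * ∫ v in (0 : ℝ)..x, exp (-(D * (1 - cos v))) := by
    have := intervalIntegral.integral_comp_mul_right (a := 0) (b := 1)
      (fun v => exp (-(D * (1 - cos v)))) hx0
    rw [this]
    simp
  rw [h1]
  set N : ℕ := ⌈x / (2 * π)⌉₊ with hN
  have hπ := pi_pos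
  have hxN : x ≤ N * (2 * π) := by
    have := Nat.le_ceil (x / (2 * π))
    rw [div_le_iff₀ (by positivity)] at this
    exact this
  have hNx : (N : ℝ) ≤ 2 * x := by
    have := Nat.ceil_lt_add_one (show 0 ≤ x / (2 * π) by positivity)
    have h2 : x / (2 * π) ≤ x := by
      rw [div_le_iff₀ (by positivity)]
      nlinarith [pi_gt_three]
    linarith
  have hper : Function.Periodic (fun v : ℝ => exp (-(D * (1 - cos v)))) (2 * π) := by
    intro v
    simp only [cos_add_two_pi]
  have hint : ∀ a b : ℝ, IntervalIntegrable (fun v : ℝ => exp (-(D * (1 - cos v)))) volume a b := by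
    intro a b
    apply Continuous.intervalIntegrable; fun_prop
  have h2 : ∫ v in (0 : ℝ)..x, exp (-(D * (1 - cos v))) ≤
      ∫ v in (0 : ℝ)..(N * (2 * π)), exp (-(D * (1 - cos v))) := by
    rw [← intervalIntegral.integral_add_adjacent_intervals (hint 0 x) (hint x (N * (2 * π)))]
    have : 0 ≤ ∫ v in x..(N * (2 * π)), exp (-(D * (1 - cos v))) :=
      intervalIntegral.integral_nonneg hxN fun u _ => (exp_pos _).le
    linarith
  have h3 : ∫ v in (0 : ℝ)..(N * (2 * π)), exp (-(D * (1 - cos v))) =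
      N * ∫ v in (0 : ℝ)..(2 * π), exp (-(D * (1 - cos v))) := by
    have := hper.intervalIntegral_add_zsmul_eq N 0 hint
    simp only [zero_add, zsmul_eq_mul, Int.cast_natCast] at this
    exact this
  have h4 := int_period D hD
  have h5 : 0 ≤ √(π / (2 / π ^ 2 * D)) := sqrt_nonneg _
  have hx1 : 0 < x := by linarith
  calc x⁻¹ * ∫ v in (0 : ℝ)..x, exp (-(D * (1 - cos v)))
      ≤ x⁻¹ * (N * √(π / (2 / π ^ 2 * D))) := by
        apply mul_le_mul_of_nonneg_left _ (by positivity)
        rw [h3] at h2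
        refine h2.trans ?_
        exact mul_le_mul_of_nonneg_left h4 (Nat.cast_nonneg N)
    _ ≤ x⁻¹ * ((2 * x) * √(π / (2 / π ^ 2 * D))) := by gcongr
    _ = bet D := by unfold bet; field_simp

/-- The estimate for all `x ≠ 0`. -/
lemma int_bound (D x : ℝ) (hD : 0 < D) (hx0 : x ≠ 0) :
    ∫ u in (0 : ℝ)..1, exp (-(D * ((1 - cos (u * x)) / min 1 (x ^ 2)))) ≤ bet D := by
  rcases le_or_gt |x| 1 with hx | hx
  · have h1 : min 1 (x ^ 2) = x ^ 2 := by
      apply min_eq_right
      rw [← sq_abs]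
      exact pow_le_one₀ (abs_nonneg x) hx
    rw [h1]
    exact int_small D x hD hx0 hx
  · have h1 : min 1 (x ^ 2) = 1 := by
      apply min_eq_left
      rw [← sq_abs]
      exact one_le_pow₀ hx.le
    rw [h1]
    simp only [div_one]
    have h2 : ∀ u : ℝ, cos (u * x) = cos (u * |x|) := by
      intro u
      rcases abs_cases x with ⟨h, _⟩ | ⟨h, _⟩
      · rw [h]
      · rw [h, mul_neg, cos_neg]
    simp only [h2]
    exact int_large D |x| hD hx.le

end Pool.Agent.H73.HS
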