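import Pool.Agent.H73.HS.Exp

/-!
Intersections of threshold functions of independent variables have upper bounds of bounded degree.
-/

open Finset
open scoped BigOperators

namespace Pool.Agent.H73.HS

open Pool.Agent.H73.FW

section

variable {A : Type*} {r : ℕ} (M : ℕ) (ex : ℕ → A → Prop) (y : Fin r → ℕ → A → ℝ) (β : Fin r → ℝ)

lemma trc_abs (y : ℝ) : |trc y| ≤ 1 := by
  unfold trc
  split_ifs with h
  · exact h
  · simp

lemma trc_sq (y : ℝ) : trc y ^ 2 ≤ min 1 (y ^ 2) := by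
  unfold trc
  split_ifs with h
  · rw [min_eq_right]
    rw [← sq_abs]
    exact pow_le_one₀ (abs_nonneg _) h
  · have : 0 ≤ min 1 (y ^ 2) := le_min zero_le_one (sq_nonneg _)
    simpa using this

variable [Fintype A] [Nonempty A]

lemma mn_abs (i : Fin r) (j : ℕ) : |mn y i j| ≤ 1 := by
  unfold mn
  rw [abs_le]
  constructor
  · exact Finset.le_expect univ_nonempty fun a _ => (abs_le.mp (trc_abs _)).1
  · exact Finset.expect_le univ_nonempty fun a _ => (abs_le.mp (trc_abs _)).2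

lemma wv_abs (i : Fin r) (j : ℕ) (a : A) : |wv y i j a| ≤ 2 := by
  unfold wv
  have h1 := trc_abs (y i j a)
  have h2 := mn_abs y i j
  rw [abs_le] at *
  constructor <;> linarith [h1.1, h1.2, h2.1, h2.2]

lemma wv_mean (i : Fin r) (j : ℕ) : 𝔼 a, wv y i j a = 0 := by
  unfold wv
  rw [Finset.expect_sub_distrib, Fintype.expect_const]
  unfold mn
  ring

lemma wv_sq (i : Fin r) (j : ℕ) : 𝔼 a, wv y i j a ^ 2 ≤ 𝔼 a, min 1 (y i j a ^ 2) := by
  have h1 : 𝔼 a, wv y i j a ^ 2 = 𝔼 a, trc (y i j a) ^ 2 - mn y i j ^ 2 := by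
    have h2 : ∀ a, wv y i j a ^ 2 = trc (y i j a) ^ 2 - 2 * mn y i j * trc (y i j a) +
        mn y i j ^ 2 := by
      intro a; unfold wv; ring
    rw [Finset.expect_congr rfl fun a _ => h2 a, Finset.expect_add_distrib,
      Finset.expect_sub_distrib, Fintype.expect_const, ← Finset.mul_expect]
    have h3 : 𝔼 a, trc (y i j a) = mn y i j := rfl
    rw [h3]
    ring
  have h4 : 𝔼 a, trc (y i j a) ^ 2 ≤ 𝔼 a, min 1 (y i j a ^ 2) :=
    Finset.expect_le_expect fun a _ => trc_sq _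
  have h5 := sq_nonneg (mn y i j)
  linarith

lemma haz_hit_le (j : ℕ) : haz (hit ex y) j ≤ haz ex j + ∑ i, 𝔼 a, min 1 (y i j a ^ 2) := by
  unfold haz
  rw [← Finset.expect_sum_comm, ← Finset.expect_add_distrib]
  refine Finset.expect_le_expect fun a _ => ?_
  have hnn : ∀ i, 0 ≤ min 1 (y i j a ^ 2) := fun i => le_min zero_le_one (sq_nonneg _)
  have hs : 0 ≤ ∑ i, min 1 (y i j a ^ 2) := Finset.sum_nonneg fun i _ => hnn i
  have h0 := ind_nonneg ex j a
  by_cases h : hit ex y j a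
  · have h1 : ind (hit ex y) j a = 1 := by unfold ind; rw [if_pos h]
    rw [h1]
    rcases h with h | ⟨i, h⟩
    · have h2 : ind ex j a = 1 := by unfold ind; rw [if_pos h]
      linarith
    · have h2 : min 1 (y i j a ^ 2) = 1 := by
        rw [min_eq_left]
        rw [← sq_abs]
        exact one_le_pow₀ h.le
      have h3 := Finset.single_le_sum (f := fun i => min 1 (y i j a ^ 2)) (fun i _ => hnn i)
        (mem_univ i)
      have h4 : min 1 (y i j a ^ 2) ≤ ∑ i, min 1 (y i j a ^ 2) := h3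
      linarith
  · have h1 : ind (hit ex y) j a = 0 := by unfold ind; rw [if_neg h]
    rw [h1]
    linarith

lemma sum_haz_hit (H C1 : ℝ) (hex : ∑ j ∈ range M, haz ex j ≤ H)
    (hV : ∀ i, ∑ j ∈ range M, 𝔼 a, min 1 (y i j a ^ 2) ≤ C1) :
    ∑ j ∈ range M, haz (hit ex y) j ≤ H + r * C1 := by
  calc ∑ j ∈ range M, haz (hit ex y) j ≤
        ∑ j ∈ range M, (haz ex j + ∑ i, 𝔼 a, min 1 (y i j a ^ 2)) :=
        Finset.sum_le_sum fun j _ => haz_hit_le ex y j
    _ = ∑ j ∈ range M, haz ex j + ∑ i, ∑ j ∈ range M, 𝔼 a, min 1 (y i j a ^ 2) := by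
        rw [Finset.sum_add_distrib, Finset.sum_comm]
    _ ≤ H + ∑ _i : Fin r, C1 := by
        gcongr with i _
        exact hV i
    _ = _ := by rw [Finset.sum_const, Finset.card_univ, Fintype.card_fin, nsmul_eq_mul]

omit [Nonempty A] in
lemma haz_hx_le (j : ℕ) : 𝔼 a, ind (hx ex y) j a ≤ haz (hit ex y) j := by
  unfold haz
  refine Finset.expect_le_expect fun a _ => ?_
  unfold ind
  split_ifs with h1 h2 h2
  · exact le_rfl
  · exact absurd h1.1 h2
  · exact zero_le_one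
  · exact le_rfl

lemma E_pr_one (Λ : ℝ) (hΛ : ∑ j ∈ range M, haz (hit ex y) j ≤ Λ) :
    E M (pr M ex y (fun _ _ => 1)) ≤ Real.exp Λ := by
  refine (E_pr (ind (hx ex y)) (fun _ _ => 1) (fun j a => ind_nonneg _ _ _)
    (fun _ _ => zero_le_one) (haz (hit ex y)) ?_).trans (Real.exp_le_exp.mpr hΛ)
  intro j _
  rw [Fintype.expect_const]
  have := haz_hx_le ex y j
  linarith

lemma E_pr_nine (Λ : ℝ) (hΛ : ∑ j ∈ range M, haz (hit ex y) j ≤ Λ) :
    E M (pr M ex y (fun j a => 1 + 8 * ind (hit ex y) j a)) ≤ Real.exp (9 * Λ) := by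
  refine (E_pr (ind (hx ex y)) (fun j a => 1 + 8 * ind (hit ex y) j a) (fun j a => ind_nonneg _ _ _)
    (fun j a => by have := ind_nonneg (hit ex y) j a; linarith)
    (fun j => 9 * haz (hit ex y) j) ?_).trans (Real.exp_le_exp.mpr ?_)
  · intro j _
    rw [Finset.expect_add_distrib, Fintype.expect_const, ← Finset.mul_expect]
    have := haz_hx_le ex y j
    have h : 𝔼 a, ind (hit ex y) j a = haz (hit ex y) j := rfl
    rw [h]
    linarith
  · rw [← Finset.mul_sum]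
    linarith

lemma E_pr_exp (Λ C1 : ℝ) (hΛ : ∑ j ∈ range M, haz (hit ex y) j ≤ Λ) (i : Fin r)
    (hV : ∑ j ∈ range M, 𝔼 a, min 1 (y i j a ^ 2) ≤ C1) (θ : ℝ) :
    E M (pr M ex y (fun j a => Real.exp (θ * wv y i j a))) ≤
      Real.exp (Λ + θ ^ 2 * Real.exp (2 * |θ|) * C1) := by
  refine (E_pr (ind (hx ex y)) (fun j a => Real.exp (θ * wv y i j a)) (fun j a => ind_nonneg _ _ _)
    (fun j a => (Real.exp_pos _).le)
    (fun j => haz (hit ex y) j + θ ^ 2 * Real.exp (2 * |θ|) * 𝔼 a, min 1 (y i j a ^ 2))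
    ?_).trans (Real.exp_le_exp.mpr ?_)
  · intro j _
    have h1 := exp_moment (wv y i j) (wv_abs y i j) (wv_mean y i j) θ _ (wv_sq y i j)
    have h2 := haz_hx_le ex y j
    linarith
  · rw [Finset.sum_add_distrib, ← Finset.mul_sum]
    have : θ ^ 2 * Real.exp (2 * |θ|) * ∑ j ∈ range M, 𝔼 a, min 1 (y i j a ^ 2) ≤
        θ ^ 2 * Real.exp (2 * |θ|) * C1 := mul_le_mul_of_nonneg_left hV (by positivity)
    linarith

/-- moment bound -/
noncomputable def Mo (Λ C1 θ : ℝ) : ℝ := 2 * Real.exp (Λ + θ ^ 2 * Real.exp (2 * |θ|) * C1)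

theorem E_gf_le (Λ C1 ε1 δ : ℝ) (hΛ : ∑ j ∈ range M, haz (hit ex y) j ≤ Λ)
    (hV : ∀ i, ∑ j ∈ range M, 𝔼 a, min 1 (y i j a ^ 2) ≤ C1)
    (hbad : ∀ i, E M (bad M y β i) ≤ ε1) (t Dg : ℕ) (u : ℝ → ℕ → ℝ) (Rem : ℝ → ℝ)
    (a κ1 θ1 κ2 θ2 : ℝ) (hU0 : ∀ z w, 0 ≤ Uf' Dg u z w)
    (hU2 : ∀ z w, Uf' Dg u z w ≤ (if -1 ≤ z + w then 1 else 0) + Rem w)
    (hR0 : ∀ w, 0 ≤ Rem w) (ha : 0 ≤ a) (hκ1 : 0 ≤ κ1) (hκ2 : 0 ≤ κ2)
    (hRem : ∀ w, (1 + Rem w) ^ (2 * r) ≤
      1 + a + κ1 * Real.exp (θ1 * |w|) + κ2 * Real.exp (θ2 * |w|))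
    (hδ : a * Mo Λ C1 0 + κ1 * Mo Λ C1 θ1 + κ2 * Mo Λ C1 θ2 ≤ δ) :
    E M (gf M ex y β t Dg u) ≤ E M (Qf M ex y β) + r * ε1 + Real.exp (2 * Λ) / 2 ^ (2 * t + 1) +
      (1 + 1 / 4 ^ t * (1 / 2)) * (r * δ) + 1 / 4 ^ t * (1 / 2) * (Real.exp (9 * Λ) + Real.exp Λ) := by
  have hW0 : ∀ w, 0 ≤ Wf a κ1 θ1 κ2 θ2 w := by
    intro w; unfold Wf; positivity
  have hW : ∀ w, (1 + Rem w) ^ (2 * r) ≤ 1 + Wf a κ1 θ1 κ2 θ2 w := by
    intro w
    refine (hRem w).trans ?_
    unfold Wf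
    have h1 := mul_le_mul_of_nonneg_left (exp_abs_le θ1 w) hκ1
    have h2 := mul_le_mul_of_nonneg_left (exp_abs_le θ2 w) hκ2
    linarith
  have h1 : E M (gf M ex y β t Dg u) ≤ E M (fun X => Qf M ex y β X + ∑ i, bad M y β i X +
      ((cnt (hit ex y) 0 M X).choose (2 * t + 1) : ℝ) +
      ((1 + 1 / 4 ^ t * (1 / 2)) * ∑ i, (a * pr M ex y (fun _ _ => 1) X +
        κ1 * (pr M ex y (fun j a => Real.exp (θ1 * wv y i j a)) X +
          pr M ex y (fun j a => Real.exp (-θ1 * wv y i j a)) X) +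
        κ2 * (pr M ex y (fun j a => Real.exp (θ2 * wv y i j a)) X +
          pr M ex y (fun j a => Real.exp (-θ2 * wv y i j a)) X)) +
      1 / 4 ^ t * (1 / 2) * (pr M ex y (fun j a => 1 + 8 * ind (hit ex y) j a) X +
        pr M ex y (fun _ _ => 1) X))) := by
    apply E_mono
    intro X
    rw [← sum_err]
    exact gf_le M ex y β t Dg u Rem (Wf a κ1 θ1 κ2 θ2) hU0 hU2 hR0 hW hW0 X
  refine h1.trans ?_
  simp only [E_add, E_sum, E_const_mul]
  have h2 : ∑ i, E M (bad M y β i) ≤ r * ε1 := by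
    calc ∑ i, E M (bad M y β i) ≤ ∑ _i : Fin r, ε1 := Finset.sum_le_sum fun i _ => hbad i
      _ = _ := by rw [Finset.sum_const, Finset.card_univ, Fintype.card_fin, nsmul_eq_mul]
  have h3 : E M (fun X => ((cnt (hit ex y) 0 M X).choose (2 * t + 1) : ℝ)) ≤
      Real.exp (2 * Λ) / 2 ^ (2 * t + 1) := by
    apply E_choose (hit ex y) t (Nat.zero_le M) le_rfl
    rw [← Finset.range_eq_Ico]
    exact hΛ
  have p1 := E_pr_one M ex y Λ hΛ
  have p9 := E_pr_nine M ex y Λ hΛ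
  have pe := fun (i : Fin r) (θ : ℝ) => E_pr_exp M ex y Λ C1 hΛ i (hV i) θ
  have pe' : ∀ (i : Fin r) (θ : ℝ), E M (pr M ex y (fun j a => Real.exp (-θ * wv y i j a))) ≤
      Real.exp (Λ + θ ^ 2 * Real.exp (2 * |θ|) * C1) := by
    intro i θ
    have h := pe i (-θ)
    rw [abs_neg, neg_sq] at h
    exact h
  have h4 : ∑ i : Fin r, (a * E M (pr M ex y (fun _ _ => 1)) +
        κ1 * (E M (pr M ex y (fun j a => Real.exp (θ1 * wv y i j a))) +
          E M (pr M ex y (fun j a => Real.exp (-θ1 * wv y i j a)))) +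
        κ2 * (E M (pr M ex y (fun j a => Real.exp (θ2 * wv y i j a))) +
          E M (pr M ex y (fun j a => Real.exp (-θ2 * wv y i j a))))) ≤ r * δ := by
    calc _ ≤ ∑ _i : Fin r, δ := by
          refine Finset.sum_le_sum fun i _ => ?_
          refine le_trans ?_ hδ
          have q1 : a * E M (pr M ex y (fun _ _ => 1)) ≤ a * Mo Λ C1 0 := by
            apply mul_le_mul_of_nonneg_left _ ha
            refine p1.trans ?_
            unfold Mo
            have : Real.exp (Λ + 0 ^ 2 * Real.exp (2 * |0|) * C1) = Real.exp Λ := by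
              congr 1; ring
            rw [this]
            have := Real.exp_pos Λ
            linarith
          have q2 : κ1 * (E M (pr M ex y (fun j a => Real.exp (θ1 * wv y i j a))) +
              E M (pr M ex y (fun j a => Real.exp (-θ1 * wv y i j a)))) ≤ κ1 * Mo Λ C1 θ1 := by
            apply mul_le_mul_of_nonneg_left _ hκ1
            unfold Mo
            have := pe i θ1
            have := pe' i θ1
            linarith
          have q3 : κ2 * (E M (pr M ex y (fun j a => Real.exp (θ2 * wv y i j a))) +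
              E M (pr M ex y (fun j a => Real.exp (-θ2 * wv y i j a)))) ≤ κ2 * Mo Λ C1 θ2 := by
            apply mul_le_mul_of_nonneg_left _ hκ2
            unfold Mo
            have := pe i θ2
            have := pe' i θ2
            linarith
          linarith
      _ = _ := by rw [Finset.sum_const, Finset.card_univ, Fintype.card_fin, nsmul_eq_mul]
  have h5 : (0 : ℝ) ≤ 1 + 1 / 4 ^ t * (1 / 2) := by positivity
  have h6 : (0 : ℝ) ≤ 1 / 4 ^ t * (1 / 2) := by positivity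
  have h7 := mul_le_mul_of_nonneg_left h4 h5
  have h8 := mul_le_mul_of_nonneg_left (add_le_add p9 p1) h6
  have e1 : E M (fun X => Qf M ex y β X) = E M (Qf M ex y β) := rfl
  have e2 : ∑ i, E M (fun X => bad M y β i X) = ∑ i, E M (bad M y β i) := rfl
  have e3 : E M (fun X => pr M ex y (fun _ _ => 1) X) = E M (pr M ex y (fun _ _ => 1)) := rfl
  have e4 : E M (fun X => pr M ex y (fun j a => 1 + 8 * ind (hit ex y) j a) X) =
    E M (pr M ex y (fun j a => 1 + 8 * ind (hit ex y) j a)) := rfl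
  linarith

end

lemma exists_C1 (ε1 : ℝ) (h : 0 < ε1) : ∃ C1 > 0, 4 * bet C1 ≤ ε1 ^ 2 := by
  refine ⟨32 * Real.pi ^ 3 / ε1 ^ 4, by have := Real.pi_pos; positivity, ?_⟩
  unfold bet
  have hp := Real.pi_pos
  have e : Real.pi / (2 / Real.pi ^ 2 * (32 * Real.pi ^ 3 / ε1 ^ 4)) = (ε1 ^ 2 / 8) ^ 2 := by
    field_simp
    norm_num
  rw [e, Real.sqrt_sq (by positivity)]
  linarith

theorem lemH (r : ℕ) (H ε : ℝ) (hε : 0 < ε) : ∃ k : ℕ, ∀ (A : Type) [Fintype A] [Nonempty A]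
    (M : ℕ) (ex : ℕ → A → Prop) (f : Fin r → ℕ → A → ℝ) (b : Fin r → ℝ),
    ∑ j ∈ range M, haz ex j ≤ H →
    ∃ g ∈ Jun A M k, (∀ X, P0 (cnt ex 0 M X) *
        ∏ i, (if 0 ≤ b i + ∑ j ∈ range M, f i j (X j) then (1 : ℝ) else 0) ≤ g X) ∧
      E M g ≤ E M (fun X => P0 (cnt ex 0 M X) *
        ∏ i, (if 0 ≤ b i + ∑ j ∈ range M, f i j (X j) then (1 : ℝ) else 0)) + ε := by
  set ε1 : ℝ := ε / (5 * (r + 1)) with hε1
  have hr1 : (0 : ℝ) < r + 1 := by positivity
  have hε1p : 0 < ε1 := by positivity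
  obtain ⟨C1, hC1, hbet⟩ := exists_C1 ε1 hε1p
  set Λ : ℝ := H + r * C1 with hΛ
  set δ : ℝ := ε / (10 * (r + 1)) with hδ
  have hδp : 0 < δ := by positivity
  obtain ⟨Dg, u, Rem, a, κ1, θ1, κ2, θ2, hU0, hU1, hU2, hR0, ha, hκ1, hκ2, hRem, hsum⟩ :=
    exists_U (2 * r) δ hδp (Mo Λ C1) (fun θ => by unfold Mo; positivity)
  obtain ⟨t, ht⟩ := exists_small_pow (Real.exp (2 * Λ) + Real.exp (9 * Λ) + Real.exp Λ) (ε / 5)
    (by positivity)
  refine ⟨2 * t + (2 * t + r * (2 * t + Dg)) + (2 * t + 1), fun A _ _ M ex f b hex => ?_⟩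
  choose s hs c hc hbad using fun i => exists_scale (M := M) (f i) (b i) C1 ε1 hC1 hε1p hbet
  set y : Fin r → ℕ → A → ℝ := fun i j x => (f i j x - c i j) / s i with hy
  set β : Fin r → ℝ := fun i => (b i + ∑ j ∈ range M, c i j) / s i with hβ
  have hS : ∀ i X, sS M y β i X = (b i + ∑ j ∈ range M, f i j (X j)) / s i := by
    intro i X
    unfold sS
    simp only [hy, hβ]
    rw [← Finset.sum_div, ← add_div, Finset.sum_sub_distrib]
    congr 1
    ring
  have hQ : ∀ X, Qf M ex y β X = P0 (cnt ex 0 M X) *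
      ∏ i, (if 0 ≤ b i + ∑ j ∈ range M, f i j (X j) then (1 : ℝ) else 0) := by
    intro X
    unfold Qf
    congr 1
    refine Finset.prod_congr rfl fun i _ => ?_
    rw [hS]
    congr 1
    apply propext
    constructor
    · intro h
      by_contra h2
      push Not at h2
      exact absurd h (not_le.mpr (div_neg_of_neg_of_pos h2 (hs i)))
    · intro h
      exact div_nonneg h (hs i).le
  have hV : ∀ i, ∑ j ∈ range M, 𝔼 a, min 1 (y i j a ^ 2) ≤ C1 := hc
  have hbad' : ∀ i, E M (bad M y β i) ≤ ε1 := by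
    intro i
    refine le_trans (le_of_eq ?_) (hbad i)
    apply E_congr
    intro X
    unfold bad
    rw [hS]
    congr 1
    apply propext
    have h0 := hs i
    rw [le_div_iff₀ h0, div_lt_iff₀ h0]
    simp
  have hΛ' := sum_haz_hit M ex y H C1 hex hV
  refine ⟨gf M ex y β t Dg u, gf_jun M ex y β t Dg u, fun X => ?_, ?_⟩
  · rw [← hQ]
    exact Qf_le_gf M ex y β t Dg u hU0 hU1 X
  · have h := E_gf_le M ex y β Λ C1 ε1 δ hΛ' hV hbad' t Dg u Rem a κ1 θ1 κ2 θ2 hU0 hU2 hR0 ha hκ1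
      hκ2 hRem hsum
    have e : E M (Qf M ex y β) = E M (fun X => P0 (cnt ex 0 M X) *
        ∏ i, (if 0 ≤ b i + ∑ j ∈ range M, f i j (X j) then (1 : ℝ) else 0)) := E_congr hQ
    rw [← e]
    have h1 : r * ε1 ≤ ε / 5 := by
      rw [hε1, mul_div_assoc', div_le_div_iff₀ (by positivity) (by norm_num)]
      nlinarith
    have h2 : r * δ ≤ ε / 10 := by
      rw [hδ, mul_div_assoc', div_le_div_iff₀ (by positivity) (by norm_num)]
      nlinarith
    have h4 : (1 : ℝ) / 4 ^ t ≤ 1 := by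
      rw [div_le_one (by positivity)]
      exact one_le_pow₀ (by norm_num)
    have h40 : (0 : ℝ) ≤ 1 / 4 ^ t := by positivity
    have h3 : (1 + 1 / 4 ^ t * (1 / 2)) * (r * δ) ≤ ε / 5 := by
      have h5 : (1 : ℝ) + 1 / 4 ^ t * (1 / 2) ≤ 2 := by linarith
      have h6 : 0 ≤ r * δ := by positivity
      nlinarith
    have e4 : (2 : ℝ) ^ (2 * t) = 4 ^ t := by rw [pow_mul]; norm_num
    rw [e4, add_div, add_div] at ht
    have x1 := Real.exp_pos (2 * Λ)
    have x2 := Real.exp_pos (9 * Λ)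
    have x3 := Real.exp_pos Λ
    have h7 : Real.exp (2 * Λ) / 2 ^ (2 * t + 1) ≤ Real.exp (2 * Λ) / 4 ^ t := by
      apply div_le_div_of_nonneg_left x1.le (by positivity)
      rw [pow_succ, e4]
      have : (0 : ℝ) < 4 ^ t := by positivity
      linarith
    have h8 : 1 / 4 ^ t * (1 / 2) * (Real.exp (9 * Λ) + Real.exp Λ) ≤
        Real.exp (9 * Λ) / 4 ^ t + Real.exp Λ / 4 ^ t := by
      have e5 : 1 / 4 ^ t * (1 / 2) * (Real.exp (9 * Λ) + Real.exp Λ) =
        (Real.exp (9 * Λ) / 4 ^ t + Real.exp Λ / 4 ^ t) / 2 := by ring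
      rw [e5]
      have : 0 ≤ Real.exp (9 * Λ) / 4 ^ t + Real.exp Λ / 4 ^ t := by positivity
      linarith
    linarith

end Pool.Agent.H73.HS
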