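import Pool.Agent.H73.HS.Scale

/-!
Products over patterns, exponential moments, and further closure properties of juntas.
-/

open Finset
open scoped BigOperators

namespace Pool.Agent.H73.HS

open Pool.Agent.H73.FW

variable {A : Type*}

/-- The sum over all patterns of the product of the factors inside and outside the pattern. -/
lemma sum_patterns (M : ℕ) (α φ : ℕ → A → ℝ) (X : ℕ → A) :
    ∑ T ∈ (range M).powerset, (∏ j ∈ T, α j (X j)) * ∏ j ∈ range M \ T, φ j (X j) =
      ∏ j ∈ range M, (α j (X j) + φ j (X j)) :=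
  (Finset.prod_add _ _ _).symm

variable [Fintype A] [Nonempty A]

lemma E_pr {M : ℕ} (α φ : ℕ → A → ℝ) (hα : ∀ j a, 0 ≤ α j a) (hφ : ∀ j a, 0 ≤ φ j a) (e : ℕ → ℝ)
    (he : ∀ j, j < M → 𝔼 a, α j a + 𝔼 a, φ j a ≤ 1 + e j) :
    E M (fun X => ∏ j ∈ range M, (α j (X j) + φ j (X j))) ≤ Real.exp (∑ j ∈ range M, e j) := by
  have h := E_prod (M := M) (fun j a => α j a + φ j a) 0 M (by omega)
  rw [Nat.zero_add, ← Finset.range_eq_Ico] at h
  rw [h, Real.exp_sum]
  apply Finset.prod_le_prod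
  · intro j _
    exact Finset.le_expect univ_nonempty fun a _ => add_nonneg (hα j a) (hφ j a)
  · intro j hj
    rw [Finset.expect_add_distrib]
    refine (he j (Finset.mem_range.mp hj)).trans ?_
    rw [add_comm]
    exact Real.add_one_le_exp _

lemma exp_le_quad (x : ℝ) : Real.exp x ≤ 1 + x + x ^ 2 * Real.exp |x| := by
  have h1 : 1 ≤ Real.exp |x| := Real.one_le_exp (abs_nonneg _)
  have hx2 : 0 ≤ x ^ 2 := sq_nonneg x
  have h2 : x ^ 2 ≤ x ^ 2 * Real.exp |x| := by nlinarith
  by_cases h : |x| ≤ 1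
  · have h3 := Real.abs_exp_sub_one_sub_id_le h
    have h4 := (abs_le.mp h3).2
    linarith
  · push Not at h
    rcases lt_or_ge x 0 with h5 | h5
    · rw [abs_of_neg h5] at h
      have h6 : Real.exp x ≤ 1 := Real.exp_le_one_iff.mpr h5.le
      nlinarith
    · rw [abs_of_nonneg h5] at h h2 ⊢
      have hx1 : 1 ≤ x ^ 2 := by nlinarith
      have h6 : 1 * Real.exp x ≤ x ^ 2 * Real.exp x :=
        mul_le_mul_of_nonneg_right hx1 (Real.exp_pos x).le
      linarith

/-- Exponential moment of a bounded centred variable. -/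
lemma exp_moment (w : A → ℝ) (hw : ∀ a, |w a| ≤ 2) (h0 : 𝔼 a, w a = 0) (θ V : ℝ)
    (hV : 𝔼 a, w a ^ 2 ≤ V) : 𝔼 a, Real.exp (θ * w a) ≤ 1 + θ ^ 2 * Real.exp (2 * |θ|) * V := by
  have h1 : 𝔼 a, Real.exp (θ * w a) ≤
      𝔼 a, (1 + θ * w a + θ ^ 2 * Real.exp (2 * |θ|) * w a ^ 2) := by
    refine Finset.expect_le_expect fun a _ => ?_
    refine (exp_le_quad _).trans ?_
    have h2 : Real.exp |θ * w a| ≤ Real.exp (2 * |θ|) := by
      apply Real.exp_le_exp.mpr
      rw [abs_mul]
      have := hw a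
      have := abs_nonneg θ
      nlinarith
    have h3 : (θ * w a) ^ 2 * Real.exp |θ * w a| ≤ (θ * w a) ^ 2 * Real.exp (2 * |θ|) :=
      mul_le_mul_of_nonneg_left h2 (sq_nonneg _)
    have h4 : (θ * w a) ^ 2 * Real.exp (2 * |θ|) = θ ^ 2 * Real.exp (2 * |θ|) * w a ^ 2 := by ring
    linarith
  refine h1.trans ?_
  rw [Finset.expect_add_distrib, Finset.expect_add_distrib, Fintype.expect_const,
    ← Finset.mul_expect, ← Finset.mul_expect, h0]
  have : θ ^ 2 * Real.exp (2 * |θ|) * 𝔼 a, w a ^ 2 ≤ θ ^ 2 * Real.exp (2 * |θ|) * V :=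
    mul_le_mul_of_nonneg_left hV (by positivity)
  linarith

omit [Fintype A] [Nonempty A] in
lemma Jun.prod {M k : ℕ} {ι : Type*} (I : Finset ι) {h : ι → (ℕ → A) → ℝ}
    (hh : ∀ i ∈ I, h i ∈ Jun A M k) : (fun X => ∏ i ∈ I, h i X) ∈ Jun A M (#I * k) := by
  classical
  induction I using Finset.induction_on with
  | empty => simp only [Finset.prod_empty]; exact Jun.const M _ 1
  | insert i I hi ih =>
    simp only [Finset.prod_insert hi]
    rw [Finset.card_insert_of_notMem hi]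
    have h1 := FW.Jun.mul (hh i (Finset.mem_insert_self i I))
      (ih fun j hj => hh j (Finset.mem_insert_of_mem hj))
    exact Jun.mono (by ring_nf; omega) h1

omit [Fintype A] [Nonempty A] in
lemma Jun.pow {M k : ℕ} {h : (ℕ → A) → ℝ} (hh : h ∈ Jun A M k) (l : ℕ) :
    (fun X => h X ^ l) ∈ Jun A M (l * k) := by
  have h1 := Jun.prod (range l) (h := fun _ => h) (fun _ _ => hh)
  simp only [Finset.prod_const, Finset.card_range] at h1
  exact h1

end Pool.Agent.H73.HS
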