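import Pool.Agent.H73.HS.RWin
import Pool.Agent.H73.FW.Main

/-!
The generator fools programs with registers.
-/

open Finset
open scoped BigOperators

namespace Pool.Agent.H73.HS

open Pool.Agent.H73.FW
open Pool.Agent.H9.PRG

section

variable {n L m : ℕ} {V : Type}

lemma RegMem.step_congr (D : RegMem n L m V) (x x' : ℕ → Bool) (h : ∀ i < n, x i = x' i) (t : ℕ)
    (ht : t < n) (c : V × (Fin m → ℝ)) : D.step t x c = D.step t x' c ∧
      (D.evt t x c.1 ↔ D.evt t x' c.1) := by
  obtain ⟨h1, h2, h3, h4, h5⟩ := D.step_local t ht x x' (fun j _ hj => h j (by omega))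
  unfold RegMem.step RegMem.above
  rw [h1, h2, h3, h4, h5]
  exact ⟨rfl, Iff.rfl⟩

lemma RegMem.conf_congr (D : RegMem n L m V) (x x' : ℕ → Bool) (h : ∀ i < n, x i = x' i) :
    ∀ t ≤ n, D.conf x t = D.conf x' t := by
  intro t
  induction t with
  | zero => intro _; rfl
  | succ t ih =>
    intro ht
    rw [RegMem.conf, RegMem.conf, ih (by omega), (D.step_congr x x' h t (by omega) _).1]

lemma RegMem.events_congr (D : RegMem n L m V) (x x' : ℕ → Bool) (h : ∀ i < n, x i = x' i) :
    ∀ t ≤ n, D.events x t = D.events x' t := by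
  classical
  intro t
  induction t with
  | zero => intro _; rfl
  | succ t ih =>
    intro ht
    rw [RegMem.events, RegMem.events, ih (by omega), D.conf_congr x x' h t (by omega)]
    simp only [(D.step_congr x x' h t (by omega) _).2]

lemma RegMem.fin_congr (D : RegMem n L m V) (q : (ℕ → Bool) → V → Set (Fin m) → ℝ)
    (hq : ∀ x x' : ℕ → Bool, (∀ j, n ≤ j + L → j < n → x j = x' j) → q x = q x')
    (x x' : ℕ → Bool) (h : ∀ i < n, x i = x' i) : D.fin q x = D.fin q x' := by
  unfold RegMem.fin RegMem.above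
  rw [hq x x' (fun j _ hj => h j hj), D.conf_congr x x' h n le_rfl,
    (D.acc_local x x' (fun j _ hj => h j hj)).1]

theorem estimate (D : RegMem n L m V) {B : ℕ} (hL : L ≤ B) (hB : 0 < B) (hn1 : 1 ≤ n)
    (M : ℕ) (hn : n < 2 * B * M) {p k : ℕ} [Fact p.Prime] (hM : M ≤ p)
    (K : ℕ) (q : (ℕ → Bool) → V → Set (Fin m) → ℝ)
    (hq : ∀ x x' : ℕ → Bool, (∀ j, n ≤ j + L → j < n → x j = x' j) → q x = q x')
    (hq0 : ∀ x v s, 0 ≤ q x v s) (hq1 : ∀ x v s, q x v s ≤ 1)
    (ε : ℝ) (hk : Suff m K ε k) (r : ℕ) :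
    (∑ s ∈ range (2 ^ r), D.fin q (genF p k B s)) / 2 ^ r ≤
      𝔼 x : Fin n → Bool, D.fin q (seqOf x) +
      2 * 𝔼 x : Fin n → Bool, D.phi K (seqOf x) + 3 * ε +
      3 * (2 * M * (2 * 2 ^ B / p)) + 2 * (p ^ k * p ^ k : ℕ) / 2 ^ r := by
  have h1 := seed_avg (p := p) (k := k) B (fun x => D.fin q x) (fun x => hq0 _ _ _)
    (fun x => hq1 _ _ _) r
  have h2 := two_sides D hL hB hn1 (bitZ p) 0 M hn K q hq hq0 hq1 ε k hk (src p k) (kwi_src hM)
  have h3 := uniform_blocks_q (p := p) (fun x => D.fin q x) (n := n)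
    (fun x x' h => D.fin_congr q hq x x' h) (fun x => hq0 _ _ _) (fun x => hq1 _ _ _) hB hn
  have h4 := uniform_blocks_q (p := p) (D.phi K) (n := n) (by
    intro x x' h
    unfold RegMem.phi
    rw [D.events_congr x x' h n le_rfl]) (D.phi_nonneg K) (D.phi_le_one K) hB hn
  have h5 := (abs_le.mp h1).2
  have h6 := (abs_le.mp h3).2
  have h7 := (abs_le.mp h4).2
  linarith

/-- Enlarging the window. -/
def RegMem.widen {L' : ℕ} (D : RegMem n L m V) (h : L ≤ L') : RegMem n L' m V where
  init := D.init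
  reg0 := D.reg0
  evt := D.evt
  nxt := D.nxt
  thr := D.thr
  rst := D.rst
  val := D.val
  acc := D.acc
  step_local t ht x x' hx := D.step_local t ht x x' (fun j h1 h2 => hx j (by omega) h2)
  acc_local x x' hx := D.acc_local x x' (fun j h1 h2 => hx j (by omega) h2)

lemma RegMem.widen_conf {L' : ℕ} (D : RegMem n L m V) (h : L ≤ L') (x : ℕ → Bool) (t : ℕ) :
    (D.widen h).conf x t = D.conf x t := by
  induction t with
  | zero => rfl
  | succ t ih => rw [RegMem.conf, RegMem.conf, ih]; rfl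

lemma RegMem.widen_events {L' : ℕ} (D : RegMem n L m V) (h : L ≤ L') (x : ℕ → Bool) (t : ℕ) :
    (D.widen h).events x t = D.events x t := by
  classical
  induction t with
  | zero => rfl
  | succ t ih => rw [RegMem.events, RegMem.events, ih, D.widen_conf]; rfl

lemma RegMem.widen_accepts {L' : ℕ} (D : RegMem n L m V) (h : L ≤ L') (x : ℕ → Bool) :
    (D.widen h).Accepts x ↔ D.Accepts x := by
  unfold RegMem.Accepts
  rw [D.widen_conf]
  rfl

lemma probMore_eqR (D : RegMem n L m V) (K : ℕ) :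
    𝔼 x : Fin n → Bool, D.phi K (seqOf x) = D.probMore K := by
  classical
  unfold RegMem.phi RegMem.probMore
  rw [Fintype.expect_eq_sum_div_card, Finset.sum_boole]
  simp only [Fintype.card_fun, Fintype.card_bool, Fintype.card_fin, Nat.cast_pow, Nat.cast_ofNat]

end

/-- The main theorem, for windows of length `c * (⌊log₂ n⌋ + 1)`. -/
theorem main (c m K : ℕ) (hc : 1 ≤ c) (ε : ℝ) (hε : 0 < ε) :
    ∃ k a C : ℕ, ∀ n ≥ 2, ∀ (V : Type) (D : RegMem n (Bn c n) m V) (P : ROBP n), D.Computes P →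
      |probUnif P - probGen P (genW c k a n) (C * Nat.log 2 n)| ≤ 2 * D.probMore K + ε := by
  classical
  obtain ⟨k, hk⟩ := blockUp m K (ε / 6) (by positivity)
  obtain ⟨a, ha⟩ := exists_pow_small 14 (ε / 2) (by positivity)
  refine ⟨k, a, 4 * (k * (c + 3 + a)) + a, fun n hn V D P hP => ?_⟩
  set r := (4 * (k * (c + 3 + a)) + a) * Nat.log 2 n with hr
  have hMp : Mn c n ≤ pn c a n := by
    refine (Mn_le c n).trans (le_trans ?_ (pn_ge c a n))
    apply Nat.pow_le_pow_right (by norm_num)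
    unfold En
    have : lg n ≤ (c + 2) * lg n := Nat.le_mul_of_pos_left _ (by omega)
    omega
  have hacc : ∀ x x' : ℕ → Bool, (∀ j, n ≤ j + Bn c n → j < n → x j = x' j) →
      (fun (v : V) (s : Set (Fin m)) => if s ∈ D.acc x v then (1 : ℝ) else 0) =
        fun v s => if s ∈ D.acc x' v then (1 : ℝ) else 0 := by
    intro x x' h
    rw [(D.acc_local x x' h).2]
  have hacc' : ∀ x x' : ℕ → Bool, (∀ j, n ≤ j + Bn c n → j < n → x j = x' j) →
      (fun (v : V) (s : Set (Fin m)) => 1 - if s ∈ D.acc x v then (1 : ℝ) else 0) =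
        fun v s => 1 - if s ∈ D.acc x' v then (1 : ℝ) else 0 := by
    intro x x' h
    rw [(D.acc_local x x' h).2]
  have h1 := estimate D le_rfl (Bn_pos c n hc) (by omega) (Mn c n) (Mn_spec c n hc)
    (p := pn c a n) (k := k) hMp K (fun x v s => if s ∈ D.acc x v then 1 else 0) hacc
    (fun x v s => by split_ifs <;> norm_num) (fun x v s => by split_ifs <;> norm_num) (ε / 6) hk r
  have h2 := estimate D le_rfl (Bn_pos c n hc) (by omega) (Mn c n) (Mn_spec c n hc)
    (p := pn c a n) (k := k) hMp K (fun x v s => 1 - if s ∈ D.acc x v then 1 else 0) hacc'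
    (fun x v s => by split_ifs <;> norm_num) (fun x v s => by split_ifs <;> norm_num) (ε / 6) hk r
  unfold RegMem.fin at h1 h2
  have hU : probUnif P = 𝔼 x : Fin n → Bool,
      (if D.above n (seqOf x) (D.conf (seqOf x) n) ∈ D.acc (seqOf x) (D.conf (seqOf x) n).1
        then (1 : ℝ) else 0) := by
    unfold probUnif
    rw [Fintype.expect_eq_sum_div_card, Finset.sum_boole]
    simp only [Fintype.card_fun, Fintype.card_bool, Fintype.card_fin, Nat.cast_pow, Nat.cast_ofNat]
    congr 3
    ext x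
    simp only [Finset.mem_filter, Finset.mem_univ, true_and]
    exact hP (seqOf x)
  have hG : probGen P (genW c k a n) r = (∑ s ∈ range (2 ^ r),
      (if D.above n (genF (pn c a n) k (Bn c n) s) (D.conf (genF (pn c a n) k (Bn c n) s) n) ∈
        D.acc (genF (pn c a n) k (Bn c n) s) (D.conf (genF (pn c a n) k (Bn c n) s) n).1
        then (1 : ℝ) else 0)) / 2 ^ r := by
    unfold probGen
    rw [Finset.sum_boole]
    congr 3
    ext s
    simp only [Finset.mem_filter]
    rw [hP]
    rfl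
  have h2' : (∑ s ∈ range (2 ^ r), (1 -
      (if D.above n (genF (pn c a n) k (Bn c n) s) (D.conf (genF (pn c a n) k (Bn c n) s) n) ∈
        D.acc (genF (pn c a n) k (Bn c n) s) (D.conf (genF (pn c a n) k (Bn c n) s) n).1
        then (1 : ℝ) else 0))) / 2 ^ r = 1 - probGen P (genW c k a n) r := by
    rw [hG, Finset.sum_sub_distrib]
    simp only [Finset.sum_const, Finset.card_range, nsmul_eq_mul, mul_one]
    rw [sub_div]
    push_cast
    rw [div_self (by positivity)]
  have h2'' : 𝔼 x : Fin n → Bool, (1 -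
      (if D.above n (seqOf x) (D.conf (seqOf x) n) ∈ D.acc (seqOf x) (D.conf (seqOf x) n).1
        then (1 : ℝ) else 0)) = 1 - probUnif P := by
    rw [hU, Finset.expect_sub_distrib, Fintype.expect_const]
  rw [← hG, ← hU] at h1
  rw [h2', h2''] at h2
  rw [probMore_eqR] at h1 h2
  have h3 := bits_bound c a n
  have h4 := seed_bound c k a n hn
  rw [← hr] at h4
  have h5 : 14 / (2 : ℝ) ^ a ≤ ε / 2 := ha a le_rfl
  have h7 : 3 * (4 / (2 : ℝ) ^ a) + 2 / 2 ^ a = 14 / 2 ^ a := by ring
  rw [abs_le]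
  constructor <;> linarith

end Pool.Agent.H73.HS
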