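import Pool.Agent.H73.HS.Adapt
import Pool.Agent.H73.HS.Defs
import Pool.Agent.H73.FW.GenF

/-!
Bounded independence of the blocks fools programs with registers.
-/

open Finset
open scoped BigOperators

namespace Pool.Agent.H73.HS

open Pool.Agent.H73.FW
open Pool.Agent.H9.PRG

/-- Upper bounds on the level of blocks. -/
theorem blockUp (m K : ℕ) (ε : ℝ) (hε : 0 < ε) : ∃ k : ℕ, ∀ (A : Type) [Fintype A] [Nonempty A]
    (M n : ℕ) (μ : ℕ → ℕ) (V : Type) (D : ℕ → A → St V m) (q : A → V → (Fin m → Bool) → ℝ)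
    (thF : A → V → Fin m → ℝ) (v0 : V) (r0 : Fin m → ℝ) (ms : ℕ),
    Monotone μ → (∀ t < n, μ t < M) → ms < M →
    (∀ a v σ, 0 ≤ q a v σ) → (∀ a v σ, q a v σ ≤ 1) →
    ∃ g ∈ Jun A M k, (∀ X, run D (q (X ms)) (thF (X ms)) μ X n K 0 v0 r0 ≤ g X) ∧
      E M g ≤ E M (fun X => run D (q (X ms)) (thF (X ms)) μ X n K 0 v0 r0) + ε := by
  classical
  obtain ⟨k, hk⟩ := clA_all m K 0 0 ε hε
  refine ⟨k + 1, ?_⟩
  intro A _ _ M n μ V D q thF v0 r0 ms hμ hM hms hq0 hq1
  set Q : A → (ℕ → A) → ℝ := fun a X => run (fzs μ ms a D) (q a) (thF a) μ X n K 0 v0 r0 with hQ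
  have hdep : ∀ a, DepOn {l | l ≠ ms} (Q a) := by
    intro a X Y Hxy
    simp only [hQ]
    exact run_congr _ _ _ _ _ _ _ _ _ fun s _ _ => fzs_dep μ ms a D X Y Hxy s
  have hself : ∀ X : ℕ → A, Q (X ms) X = run D (q (X ms)) (thF (X ms)) μ X n K 0 v0 r0 := by
    intro X
    simp only [hQ]
    exact run_congr _ _ _ _ _ _ _ _ _ fun s _ _ => fzs_self μ ms D X s
  obtain ⟨g, hg1, hg2, hg3⟩ := fix (k := k) hms (fun _ => 1) (fun _ => zero_le_one) ε Q hdep (by
    intro a
    obtain ⟨g, hg1, hg2, hg3⟩ := hk A M (fun _ _ => False) n μ V (fun _ => 0) (fun _ _ _ => (False, 0))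
      (fun _ => false) (fun _ => 0) (fzs μ ms a D) (q a) (thF a) r0 (fun _ _ _ => (False, 0)) 0 v0
      hμ hM (by
        refine Finset.sum_nonpos fun j _ => ?_
        unfold haz ind
        simp) (Nat.zero_le n) (hq0 a) (hq1 a)
    have e : ∀ X, Phi M (fun _ _ => False) n μ (fun _ => 0) (fun _ _ _ => (False, 0))
      (fun _ : Fin 0 => false) (fun _ => 0) (fzs μ ms a D) (q a) (thF a) r0
        (fun _ _ _ => (False, 0)) 0 K v0 X = Q a X := by
      intro X
      unfold Phi Qp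
      have h1 : cnt (fun (_ : ℕ) (_ : A) => False) 0 M X = 0 := by
        rw [cnt_eq_zero]; exact fun _ _ h => h
      rw [h1]
      unfold P0
      simp only [if_true, Finset.univ_eq_empty, Finset.prod_empty, mul_one, one_mul, Nat.sub_zero, sv]
      rfl
    refine ⟨g, hg1, fun X => by rw [← e]; exact hg2 X, ?_⟩
    rw [← E_congr e]
    exact hg3)
  refine ⟨g, hg1, fun X => ?_, ?_⟩
  · have := hg2 X
    rw [one_mul, hself] at this
    exact this
  · have e : E M (fun X => (1 : ℝ) * Q (X ms) X) =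
      E M (fun X => run D (q (X ms)) (thF (X ms)) μ X n K 0 v0 r0) := E_congr fun X => by
        rw [one_mul, hself]
    rw [e] at hg3
    simp only [Fintype.expect_const, one_mul] at hg3
    exact hg3

section

variable {n L m : ℕ} {V : Type}

/-- the set of the indices with value `true` -/
def setOf' (σ : Fin m → Bool) : Set (Fin m) := {i | σ i = true}

/-- The step of a computation as the step of a machine. -/
noncomputable def RegMem.st (D : RegMem n L m V) (t : ℕ) (x : ℕ → Bool) : St V m where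
  evt := D.evt t x
  nxt v σ := D.nxt t x v (setOf' σ)
  thr := D.thr t x
  op v i := (i ∈ D.rst t x v, D.val t x v i)

/-- The value `q` at the end of the computation. -/
noncomputable def RegMem.fin (D : RegMem n L m V) (q : (ℕ → Bool) → V → Set (Fin m) → ℝ)
    (x : ℕ → Bool) : ℝ := q x (D.conf x n).1 (D.above n x (D.conf x n))

/-- Indicator of more than `K` events. -/
noncomputable def RegMem.phi (D : RegMem n L m V) (K : ℕ) (x : ℕ → Bool) : ℝ :=
  if K < D.events x n then 1 else 0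

lemma RegMem.phi_nonneg (D : RegMem n L m V) (K : ℕ) (x : ℕ → Bool) : 0 ≤ D.phi K x := by
  unfold RegMem.phi; split_ifs <;> norm_num

lemma RegMem.phi_le_one (D : RegMem n L m V) (K : ℕ) (x : ℕ → Bool) : D.phi K x ≤ 1 := by
  unfold RegMem.phi; split_ifs <;> norm_num

lemma RegMem.events_mono (D : RegMem n L m V) (x : ℕ → Bool) (t d : ℕ) :
    D.events x t ≤ D.events x (t + d) := by
  induction d with
  | zero => exact le_rfl
  | succ d ih =>
    rw [← Nat.add_assoc, RegMem.events]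
    split_ifs <;> omega

open Classical in
lemma setOf'_decide (D : RegMem n L m V) (t : ℕ) (x : ℕ → Bool) (v : V) (r : Fin m → ℝ) :
    setOf' (fun k => decide (D.thr t x v k ≤ r k)) = D.above t x (v, r) := by
  ext i
  simp [setOf', RegMem.above]

variable {A : Type*}

/-- The run of the machine. -/
lemma run_eq (D : RegMem n L m V) (q : (ℕ → Bool) → V → Set (Fin m) → ℝ) (x : ℕ → Bool)
    (μ : ℕ → ℕ) (X : ℕ → A) (E' : ℕ → A → St V m) (K : ℕ)
    (hE : ∀ t < n, E' t (X (μ t)) = D.st t x) : ∀ d t, t + d = n → D.events x t ≤ K →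
    run E' (fun v σ => q x v (setOf' σ)) (D.thr n x) μ X d (K - D.events x t) t (D.conf x t).1
      (D.conf x t).2 = if K < D.events x n then 1 else D.fin q x := by
  classical
  intro d
  induction d with
  | zero =>
    intro t ht hK
    rw [Nat.add_zero] at ht
    subst ht
    rw [if_neg (by omega), run, RegMem.fin]
    congr 1
    exact setOf'_decide D _ x _ _
  | succ d ih =>
    intro t ht hK
    rw [run, hE t (by omega)]
    have hreg : (fun k => app ((D.st t x).op (D.conf x t).1 k) ((D.conf x t).2 k)) =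
        (D.conf x (t + 1)).2 := by
      funext k
      rw [RegMem.conf]
      unfold RegMem.st RegMem.step app
      dsimp only
    rw [hreg]
    by_cases hev : D.evt t x (D.conf x t).1
    · have h1 : (D.st t x).evt (D.conf x t).1 := hev
      rw [if_pos h1]
      have h2 : D.events x (t + 1) = D.events x t + 1 := by rw [RegMem.events, if_pos hev]
      by_cases h0 : K - D.events x t = 0
      · rw [if_pos h0]
        have h3 := D.events_mono x (t + 1) d
        rw [show t + 1 + d = n by omega] at h3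
        rw [if_pos (by omega)]
      · rw [if_neg h0]
        have h3 : (D.st t x).nxt (D.conf x t).1
            (fun k => decide ((D.st t x).thr (D.conf x t).1 k ≤ (D.conf x t).2 k)) =
            (D.conf x (t + 1)).1 := by
          show D.nxt t x (D.conf x t).1
            (setOf' fun k => decide (D.thr t x (D.conf x t).1 k ≤ (D.conf x t).2 k)) = _
          rw [setOf'_decide D t x _ _, RegMem.conf]
          unfold RegMem.step
          dsimp only
          rw [if_pos hev]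
        rw [h3, show K - D.events x t - 1 = K - D.events x (t + 1) by omega]
        exact ih (t + 1) (by omega) (by omega)
    · have h1 : ¬ (D.st t x).evt (D.conf x t).1 := hev
      rw [if_neg h1]
      have h2 : D.events x (t + 1) = D.events x t := by rw [RegMem.events, if_neg hev]
      have h3 : (D.conf x (t + 1)).1 = (D.conf x t).1 := by
        rw [RegMem.conf]
        unfold RegMem.step
        dsimp only
        rw [if_neg hev]
      have h4 := ih (t + 1) (by omega) (by omega)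
      rw [h2, h3] at h4
      exact h4

/-- The computation for fixed odd or even blocks is a machine over the other blocks. -/
lemma to_blocks (D : RegMem n L m V) {B : ℕ} (hL : L ≤ B) (hB : 0 < B) (hn1 : 1 ≤ n)
    (bit : A → ℕ → Bool) (π : ℕ) (hπ : π < 2) (Z : ℕ → A) (M : ℕ) (hn : n < 2 * B * M) (K : ℕ)
    (q : (ℕ → Bool) → V → Set (Fin m) → ℝ)
    (hq : ∀ x x' : ℕ → Bool, (∀ j, n ≤ j + L → j < n → x j = x' j) → q x = q x') :
    ∃ (E' : ℕ → A → St V m) (q' : A → V → (Fin m → Bool) → ℝ) (thF : A → V → Fin m → ℝ),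
      (∀ t < n, mu B π t < M) ∧
      (∀ a v σ, ∃ x s, q' a v σ = q x v s) ∧
      ∀ X : ℕ → A, run E' (q' (X (mu B π (n - 1)))) (thF (X (mu B π (n - 1)))) (mu B π) X n K 0
        D.init D.reg0 =
        if K < D.events (bitsOf bit B (comb π X Z)) n then 1
          else D.fin q (bitsOf bit B (comb π X Z)) := by
  classical
  set xc : A → ℕ → Bool := fun y => bitsOf bit B (comb π (fun _ => y) Z) with hxc
  have hloc : ∀ (X : ℕ → A) (t j : ℕ), t ≤ j + B → j ≤ t →
      bitsOf bit B (comb π X Z) j = xc (X (mu B π t)) j := by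
    intro X t j h1 h2
    simp only [hxc, bitsOf, comb]
    split_ifs with hpar
    · rw [window_loc hB π hπ t j h1 h2 hpar]
    · rfl
  set μ := mu B π with hμ
  have hμM : μ (n - 1) < M := by
    simp only [hμ, mu]
    have h1 : (n - 1) / B < 2 * M := by
      rw [Nat.div_lt_iff_lt_mul hB]
      calc n - 1 < n := by omega
        _ < 2 * B * M := hn
        _ = 2 * M * B := by ring
    generalize (n - 1) / B = a at h1 ⊢
    omega
  refine ⟨fun t y => D.st t (xc y), fun y v σ => q (xc y) v (setOf' σ), fun y => D.thr n (xc y),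
    fun t ht => lt_of_le_of_lt (mu_mono B π (show t ≤ n - 1 by omega)) hμM,
    fun a v σ => ⟨xc a, setOf' σ, rfl⟩, fun X => ?_⟩
  set x := bitsOf bit B (comb π X Z) with hx
  have hst : ∀ t < n, D.st t (xc (X (μ t))) = D.st t x := by
    intro t ht
    obtain ⟨h1, h2, h3, h4, h5⟩ := D.step_local t ht (xc (X (μ t))) x (by
      intro j h1 h2
      exact (hloc X t j (by omega) h2).symm)
    unfold RegMem.st
    rw [h1, h2, h3, h4, h5]
  have hfin : ∀ j, n ≤ j + L → j < n → xc (X (μ (n - 1))) j = x j := by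
    intro j h1 h2
    exact (hloc X (n - 1) j (by omega) (by omega)).symm
  have h1 := run_eq D q x μ X (fun t y => D.st t (xc y)) K hst n 0 (by omega)
    (by unfold RegMem.events; omega)
  rw [← h1]
  have h2 := hq (xc (X (μ (n - 1)))) x hfin
  have h3 := (D.acc_local (xc (X (μ (n - 1)))) x hfin).1
  simp only [h2, h3]
  unfold RegMem.events RegMem.conf
  simp

variable {A : Type} [Fintype A] [Nonempty A]
variable {Ω : Type*} [Fintype Ω]

/-- `k` is a sufficient degree. -/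
def Suff (m K : ℕ) (ε : ℝ) (k : ℕ) : Prop := ∀ (A : Type) [Fintype A] [Nonempty A]
    (M n : ℕ) (μ : ℕ → ℕ) (V : Type) (D : ℕ → A → St V m) (q : A → V → (Fin m → Bool) → ℝ)
    (thF : A → V → Fin m → ℝ) (v0 : V) (r0 : Fin m → ℝ) (ms : ℕ),
    Monotone μ → (∀ t < n, μ t < M) → ms < M →
    (∀ a v σ, 0 ≤ q a v σ) → (∀ a v σ, q a v σ ≤ 1) →
    ∃ g ∈ Jun A M k, (∀ X, run D (q (X ms)) (thF (X ms)) μ X n K 0 v0 r0 ≤ g X) ∧
      E M g ≤ E M (fun X => run D (q (X ms)) (thF (X ms)) μ X n K 0 v0 r0) + ε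

theorem one_side (D : RegMem n L m V) {B : ℕ} (hL : L ≤ B) (hB : 0 < B) (hn1 : 1 ≤ n)
    (bit : A → ℕ → Bool) (a0 : A) (π : ℕ) (hπ : π < 2) (Z : ℕ → A) (M : ℕ) (hn : n < 2 * B * M)
    (K : ℕ) (q : (ℕ → Bool) → V → Set (Fin m) → ℝ)
    (hq : ∀ x x' : ℕ → Bool, (∀ j, n ≤ j + L → j < n → x j = x' j) → q x = q x')
    (hq0 : ∀ x v s, 0 ≤ q x v s) (hq1 : ∀ x v s, q x v s ≤ 1)
    (ε : ℝ) (k : ℕ) (hk : Suff m K ε k) (Y : Ω → ℕ → A) (hY : KWI M k Y) :
    𝔼 ω, D.fin q (bitsOf bit B (comb π (Y ω) Z)) ≤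
      𝔼 u : Fin M → A, D.fin q (bitsOf bit B (comb π (Uf a0 M u) Z)) +
      𝔼 u : Fin M → A, D.phi K (bitsOf bit B (comb π (Uf a0 M u) Z)) + ε ∧
    𝔼 ω, D.phi K (bitsOf bit B (comb π (Y ω) Z)) ≤
      𝔼 u : Fin M → A, D.phi K (bitsOf bit B (comb π (Uf a0 M u) Z)) + ε := by
  classical
  have key : ∀ q' : (ℕ → Bool) → V → Set (Fin m) → ℝ,
      (∀ x x' : ℕ → Bool, (∀ j, n ≤ j + L → j < n → x j = x' j) → q' x = q' x') →
      (∀ x v s, 0 ≤ q' x v s) → (∀ x v s, q' x v s ≤ 1) →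
      𝔼 ω, (if K < D.events (bitsOf bit B (comb π (Y ω) Z)) n then 1
          else D.fin q' (bitsOf bit B (comb π (Y ω) Z))) ≤
      𝔼 u : Fin M → A, (if K < D.events (bitsOf bit B (comb π (Uf a0 M u) Z)) n then 1
          else D.fin q' (bitsOf bit B (comb π (Uf a0 M u) Z))) + ε := by
    intro q' hq' hq0' hq1'
    obtain ⟨E', qb, thF, hμM, hqb, hrun⟩ := to_blocks D hL hB hn1 bit π hπ Z M hn K q' hq'
    have hqb0 : ∀ a v σ, 0 ≤ qb a v σ := fun a v σ => by
      obtain ⟨x, s, h⟩ := hqb a v σ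
      rw [h]; exact hq0' _ _ _
    have hqb1 : ∀ a v σ, qb a v σ ≤ 1 := fun a v σ => by
      obtain ⟨x, s, h⟩ := hqb a v σ
      rw [h]; exact hq1' _ _ _
    obtain ⟨g, hg1, hg2, hg3⟩ := hk A M n (mu B π) V E' qb thF D.init D.reg0 (mu B π (n - 1))
      (mu_mono B π) hμM (hμM (n - 1) (by omega)) hqb0 hqb1
    have h1 := hY.jun hg1
    have h2 : 𝔼 ω, (if K < D.events (bitsOf bit B (comb π (Y ω) Z)) n then 1
          else D.fin q' (bitsOf bit B (comb π (Y ω) Z))) ≤ 𝔼 ω, g (Y ω) := by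
      refine Finset.expect_le_expect fun ω _ => ?_
      rw [← hrun]
      exact hg2 (Y ω)
    have hdep : DepOn (Set.Iio M) (fun X => run E' (qb (X (mu B π (n - 1))))
        (thF (X (mu B π (n - 1)))) (mu B π) X n K 0 D.init D.reg0) := by
      intro X Y' H
      have h3 : X (mu B π (n - 1)) = Y' (mu B π (n - 1)) := H _ (hμM (n - 1) (by omega))
      simp only [h3]
      apply run_congr
      intro s _ hs
      rw [H (mu B π s) (hμM s (by omega))]
    rw [E_eq_expect hdep a0] at hg3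
    simp only [hrun] at hg3
    linarith
  constructor
  · have h1 := key q hq hq0 hq1
    have h2 : 𝔼 ω, D.fin q (bitsOf bit B (comb π (Y ω) Z)) ≤
        𝔼 ω, (if K < D.events (bitsOf bit B (comb π (Y ω) Z)) n then 1
          else D.fin q (bitsOf bit B (comb π (Y ω) Z))) := by
      refine Finset.expect_le_expect fun ω _ => ?_
      split_ifs
      · exact hq1 _ _ _
      · exact le_rfl
    have h3 : 𝔼 u : Fin M → A, (if K < D.events (bitsOf bit B (comb π (Uf a0 M u) Z)) n then 1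
          else D.fin q (bitsOf bit B (comb π (Uf a0 M u) Z))) ≤
        𝔼 u : Fin M → A, (D.fin q (bitsOf bit B (comb π (Uf a0 M u) Z)) +
          D.phi K (bitsOf bit B (comb π (Uf a0 M u) Z))) := by
      refine Finset.expect_le_expect fun u _ => ?_
      unfold RegMem.phi
      split_ifs
      · have := hq0 (bitsOf bit B (comb π (Uf a0 M u) Z))
          (D.conf (bitsOf bit B (comb π (Uf a0 M u) Z)) n).1
          (D.above n (bitsOf bit B (comb π (Uf a0 M u) Z))
            (D.conf (bitsOf bit B (comb π (Uf a0 M u) Z)) n))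
        unfold RegMem.fin
        linarith
      · linarith
    rw [Finset.expect_add_distrib] at h3
    linarith
  · exact key (fun _ _ _ => 0) (fun _ _ _ => rfl) (fun _ _ _ => le_rfl) (fun _ _ _ => zero_le_one)

/-- Two independent copies. -/
theorem two_sides [Nonempty Ω] (D : RegMem n L m V) {B : ℕ} (hL : L ≤ B) (hB : 0 < B) (hn1 : 1 ≤ n)
    (bit : A → ℕ → Bool) (a0 : A) (M : ℕ) (hn : n < 2 * B * M)
    (K : ℕ) (q : (ℕ → Bool) → V → Set (Fin m) → ℝ)
    (hq : ∀ x x' : ℕ → Bool, (∀ j, n ≤ j + L → j < n → x j = x' j) → q x = q x')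
    (hq0 : ∀ x v s, 0 ≤ q x v s) (hq1 : ∀ x v s, q x v s ≤ 1)
    (ε : ℝ) (k : ℕ) (hk : Suff m K ε k) (Y : Ω → ℕ → A) (hY : KWI M k Y) :
    𝔼 ω0, 𝔼 ω1, D.fin q (bitsOf bit B (comb 0 (Y ω0) (Y ω1))) ≤
      𝔼 u0 : Fin M → A, 𝔼 u1 : Fin M → A, D.fin q (bitsOf bit B (comb 0 (Uf a0 M u0) (Uf a0 M u1))) +
      2 * 𝔼 u0 : Fin M → A, 𝔼 u1 : Fin M → A,
        D.phi K (bitsOf bit B (comb 0 (Uf a0 M u0) (Uf a0 M u1))) + 3 * ε := by
  set G : (ℕ → A) → (ℕ → A) → ℝ := fun X Z => D.fin q (bitsOf bit B (comb 0 X Z)) with hG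
  set H : (ℕ → A) → (ℕ → A) → ℝ := fun X Z => D.phi K (bitsOf bit B (comb 0 X Z)) with hH
  -- replace the first copy
  have h1 : 𝔼 ω1, 𝔼 ω0, G (Y ω0) (Y ω1) ≤ 𝔼 ω1, (𝔼 u0 : Fin M → A, G (Uf a0 M u0) (Y ω1) +
      𝔼 u0 : Fin M → A, H (Uf a0 M u0) (Y ω1) + ε) :=
    Finset.expect_le_expect fun ω1 _ =>
      (one_side D hL hB hn1 bit a0 0 (by norm_num) (Y ω1) M hn K q hq hq0 hq1 ε k hk Y hY).1
  rw [Finset.expect_add_distrib, Finset.expect_add_distrib, Fintype.expect_const] at h1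
  -- replace the second copy
  have h2 : 𝔼 u0 : Fin M → A, 𝔼 ω1, G (Uf a0 M u0) (Y ω1) ≤
      𝔼 u0 : Fin M → A, (𝔼 u1 : Fin M → A, G (Uf a0 M u0) (Uf a0 M u1) +
      𝔼 u1 : Fin M → A, H (Uf a0 M u0) (Uf a0 M u1) + ε) := by
    refine Finset.expect_le_expect fun u0 _ => ?_
    simp only [hG, hH, comb_swap (Uf a0 M u0)]
    exact (one_side D hL hB hn1 bit a0 1 (by norm_num) (Uf a0 M u0) M hn K q hq hq0 hq1 ε k hk Y
      hY).1
  rw [Finset.expect_add_distrib, Finset.expect_add_distrib, Fintype.expect_const] at h2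
  have h3 : 𝔼 u0 : Fin M → A, 𝔼 ω1, H (Uf a0 M u0) (Y ω1) ≤
      𝔼 u0 : Fin M → A, (𝔼 u1 : Fin M → A, H (Uf a0 M u0) (Uf a0 M u1) + ε) := by
    refine Finset.expect_le_expect fun u0 _ => ?_
    simp only [hH, comb_swap (Uf a0 M u0)]
    exact (one_side D hL hB hn1 bit a0 1 (by norm_num) (Uf a0 M u0) M hn K q hq hq0 hq1 ε k hk Y
      hY).2
  rw [Finset.expect_add_distrib, Fintype.expect_const] at h3
  have e1 : 𝔼 ω1, 𝔼 ω0, G (Y ω0) (Y ω1) = 𝔼 ω0, 𝔼 ω1, G (Y ω0) (Y ω1) := Finset.expect_comm _ _ _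
  have e2 : 𝔼 ω1, 𝔼 u0 : Fin M → A, G (Uf a0 M u0) (Y ω1) =
      𝔼 u0 : Fin M → A, 𝔼 ω1, G (Uf a0 M u0) (Y ω1) := Finset.expect_comm _ _ _
  have e3 : 𝔼 ω1, 𝔼 u0 : Fin M → A, H (Uf a0 M u0) (Y ω1) =
      𝔼 u0 : Fin M → A, 𝔼 ω1, H (Uf a0 M u0) (Y ω1) := Finset.expect_comm _ _ _
  rw [e1, e2, e3] at h1
  linarith

end

end Pool.Agent.H73.HS
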