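import Pool.Agent.H73.HS.AC
import Pool.Agent.H73.FW.Block

/-!
The scale at which a sum of independent variables is spread out.
-/

open Finset
open scoped BigOperators

namespace Pool.Agent.H73.HS

open Pool.Agent.H73.FW
open Pool.Agent.H9.PRG (Uf)

variable {A : Type*} [Fintype A] [Nonempty A]

omit [Nonempty A] in
lemma spr_cont (f : A → ℝ) : ContinuousOn (spr f) (Set.Ioi 0) := by
  have e : spr f = fun s => (∑ a, (∑ b, min 1 (((f a - f b) / s) ^ 2)) / (Fintype.card A : ℝ)) /
      (Fintype.card A : ℝ) := by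
    funext s
    unfold spr
    simp only [Fintype.expect_eq_sum_div_card]
  rw [e]
  apply ContinuousOn.div_const
  apply continuousOn_finsetSum
  intro a _
  apply ContinuousOn.div_const
  apply continuousOn_finsetSum
  intro b _
  refine (continuous_const.min continuous_id).comp_continuousOn (f := fun s => ((f a - f b) / s) ^ 2) ?_
  apply ContinuousOn.pow
  apply ContinuousOn.div continuousOn_const continuousOn_id
  intro s hs
  exact ne_of_gt hs

lemma spr_le (f : A → ℝ) (s B : ℝ) (hs : 0 < s) (hB : ∀ a b, (f a - f b) ^ 2 ≤ B) :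
    spr f s ≤ B / s ^ 2 := by
  unfold spr
  refine Finset.expect_le univ_nonempty fun a _ => Finset.expect_le univ_nonempty fun b _ => ?_
  refine (min_le_right _ _).trans ?_
  rw [div_pow]
  exact div_le_div_of_nonneg_right (hB a b) (by positivity)

theorem exists_scale_fin {M : ℕ} (f : Fin M → A → ℝ) (b C1 ε1 : ℝ) (hC1 : 0 < C1) (hε1 : 0 < ε1)
    (hbet : 4 * bet C1 ≤ ε1 ^ 2) :
    ∃ s > 0, ∑ j, spr (f j) s ≤ C1 ∧
      𝔼 u : Fin M → A, (if -s ≤ b + ∑ j, f j (u j) ∧ b + ∑ j, f j (u j) < 0 then (1 : ℝ) else 0) ≤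
        ε1 := by
  classical
  by_cases hc : ∃ s > 0, C1 ≤ ∑ j, spr (f j) s
  · obtain ⟨s0, hs0, hs0C⟩ := hc
    set B : ℝ := ∑ j, ∑ a, ∑ c, (f j a - f j c) ^ 2 with hBdef
    have hB0 : 0 ≤ B := by positivity
    have hB : ∀ j a c, (f j a - f j c) ^ 2 ≤ B := by
      intro j a c
      calc (f j a - f j c) ^ 2 ≤ ∑ c, (f j a - f j c) ^ 2 :=
            Finset.single_le_sum (f := fun c => (f j a - f j c) ^ 2) (fun _ _ => sq_nonneg _) (mem_univ c)
        _ ≤ ∑ a, ∑ c, (f j a - f j c) ^ 2 :=
            Finset.single_le_sum (f := fun a => ∑ c, (f j a - f j c) ^ 2)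
              (fun _ _ => Finset.sum_nonneg fun _ _ => sq_nonneg _) (mem_univ a)
        _ ≤ B := Finset.single_le_sum (f := fun j => ∑ a, ∑ c, (f j a - f j c) ^ 2)
              (fun _ _ => Finset.sum_nonneg fun _ _ => Finset.sum_nonneg fun _ _ => sq_nonneg _)
              (mem_univ j)
    set s1 : ℝ := s0 + 1 + M * B / C1 with hs1
    have hMB : 0 ≤ M * B / C1 := by positivity
    have h1 : ∑ j, spr (f j) s1 ≤ C1 := by
      calc ∑ j, spr (f j) s1 ≤ ∑ _j : Fin M, B / s1 ^ 2 :=
            Finset.sum_le_sum fun j _ => spr_le (f j) s1 B (by linarith) (hB j)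
        _ = M * B / s1 ^ 2 := by
            rw [Finset.sum_const, Finset.card_univ, Fintype.card_fin, nsmul_eq_mul]; ring
        _ ≤ C1 := by
            rw [div_le_iff₀ (by positivity)]
            have h2 : s1 ≤ s1 ^ 2 := by nlinarith
            have h3 : M * B / C1 ≤ s1 ^ 2 := by linarith
            rw [div_le_iff₀ hC1] at h3
            linarith
    have hcont : ContinuousOn (fun s => ∑ j, spr (f j) s) (Set.Icc s0 s1) := by
      apply continuousOn_finsetSum
      intro j _
      exact (spr_cont (f j)).mono fun s hs => lt_of_lt_of_le hs0 hs.1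
    have hiv := intermediate_value_Icc' (show s0 ≤ s1 by linarith) hcont
    obtain ⟨s, hs, hsC⟩ := hiv ⟨h1, hs0C⟩
    have hspos : 0 < s := lt_of_lt_of_le hs0 hs.1
    refine ⟨s, hspos, le_of_eq hsC, ?_⟩
    have h4 := anti_fin f s hspos C1 hC1 (le_of_eq hsC.symm) (-b - s)
    have e : ∀ u : Fin M → A, (if -s ≤ b + ∑ j, f j (u j) ∧ b + ∑ j, f j (u j) < 0 then (1 : ℝ) else 0) =
        (if -b - s ≤ ∑ j, f j (u j) ∧ ∑ j, f j (u j) < -b - s + s then (1 : ℝ) else 0) := by
      intro u
      congr 1
      apply propext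
      constructor
      · rintro ⟨h5, h6⟩; constructor <;> linarith
      · rintro ⟨h5, h6⟩; constructor <;> linarith
    rw [Finset.expect_congr rfl fun u _ => e u]
    exact abs_le_of_sq_le_sq' (h4.trans hbet) hε1.le |>.2
  · push Not at hc
    -- a value of `s` below all the negative values
    have hfin : ∃ s > 0, ∀ u : Fin M → A, b + ∑ j, f j (u j) < 0 → b + ∑ j, f j (u j) < -s := by
      obtain ⟨s, hs, h⟩ : ∃ s > 0, ∀ u ∈ (univ : Finset (Fin M → A)),
          b + ∑ j, f j (u j) < 0 → b + ∑ j, f j (u j) < -s := by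
        induction (univ : Finset (Fin M → A)) using Finset.induction_on with
        | empty => exact ⟨1, one_pos, by simp⟩
        | insert u I _ ih =>
          obtain ⟨s, hs, h⟩ := ih
          by_cases hu : b + ∑ j, f j (u j) < 0
          · refine ⟨min s (-(b + ∑ j, f j (u j)) / 2), lt_min hs (by linarith), ?_⟩
            intro v hv hv0
            rcases Finset.mem_insert.mp hv with rfl | hv
            · have := min_le_right s (-(b + ∑ j, f j (v j)) / 2)
              linarith
            · have := h v hv hv0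
              have := min_le_left s (-(b + ∑ j, f j (u j)) / 2)
              linarith
          · refine ⟨s, hs, ?_⟩
            intro v hv hv0
            rcases Finset.mem_insert.mp hv with rfl | hv
            · exact absurd hv0 hu
            · exact h v hv hv0
      exact ⟨s, hs, fun u => h u (mem_univ u)⟩
    obtain ⟨s, hs, h⟩ := hfin
    refine ⟨s, hs, (hc s hs).le, ?_⟩
    refine Finset.expect_le univ_nonempty fun u _ => ?_
    rw [if_neg]
    · exact hε1.le
    · rintro ⟨h1, h2⟩
      have := h u h2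
      linarith

/-- A good centre. -/
lemma exists_centre (f : A → ℝ) (s : ℝ) : ∃ c, 𝔼 a, min 1 (((f a - c) / s) ^ 2) ≤ spr f s := by
  by_contra h
  push Not at h
  have h1 : spr f s = 𝔼 b, 𝔼 a, min 1 (((f a - f b) / s) ^ 2) := by
    unfold spr
    rw [Finset.expect_comm]
  have h2 : 𝔼 _b : A, spr f s < 𝔼 b, 𝔼 a, min 1 (((f a - f b) / s) ^ 2) :=
    Finset.expect_lt_expect (fun b _ => (h (f b)).le)
      ⟨Classical.arbitrary A, mem_univ _, h (f (Classical.arbitrary A))⟩
  rw [Fintype.expect_const, ← h1] at h2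
  exact lt_irrefl _ h2

/-- Version for sequences. -/
theorem exists_scale {M : ℕ} (f : ℕ → A → ℝ) (b C1 ε1 : ℝ) (hC1 : 0 < C1) (hε1 : 0 < ε1)
    (hbet : 4 * bet C1 ≤ ε1 ^ 2) :
    ∃ s > 0, ∃ c : ℕ → ℝ, ∑ j ∈ range M, 𝔼 a, min 1 (((f j a - c j) / s) ^ 2) ≤ C1 ∧
      E M (fun X => if -s ≤ b + ∑ j ∈ range M, f j (X j) ∧ b + ∑ j ∈ range M, f j (X j) < 0
        then (1 : ℝ) else 0) ≤ ε1 := by
  classical
  obtain ⟨s, hs, h1, h2⟩ := exists_scale_fin (M := M) (fun j => f j) b C1 ε1 hC1 hε1 hbet
  choose c hc using fun j => exists_centre (f j) s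
  refine ⟨s, hs, c, ?_, ?_⟩
  · refine (Finset.sum_le_sum fun j _ => hc j).trans ?_
    rw [Finset.sum_range (fun j => spr (f j) s)]
    exact h1
  · rw [E_eq_expect (M := M) (h := fun X => if -s ≤ b + ∑ j ∈ range M, f j (X j) ∧
      b + ∑ j ∈ range M, f j (X j) < 0 then (1 : ℝ) else 0) ?_ (Classical.arbitrary A)]
    · refine le_trans (le_of_eq ?_) h2
      refine Finset.expect_congr rfl fun u _ => ?_
      have e : ∑ j ∈ range M, f j (Uf (Classical.arbitrary A) M u j) = ∑ j : Fin M, f j (u j) := by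
        rw [Finset.sum_range (fun j => f j (Uf (Classical.arbitrary A) M u j))]
        refine Finset.sum_congr rfl fun j _ => ?_
        unfold Uf
        rw [dif_pos j.isLt]
      simp only [e]
    · intro X Y H
      have e : ∑ j ∈ range M, f j (X j) = ∑ j ∈ range M, f j (Y j) := by
        refine Finset.sum_congr rfl fun j hj => ?_
        rw [H j (by simpa using hj)]
      simp only [e]

end Pool.Agent.H73.HS
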