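import Pool.Agent.H73.HS.Sys

/-!
Register programs on the level of steps.
-/

open Finset
open scoped BigOperators

namespace Pool.Agent.H73.HS

open Pool.Agent.H73.FW

section

variable {A : Type*}

/-- Effect of an operation (reset, value) on a register. -/
noncomputable def app (s : Prop × ℝ) (r : ℝ) : ℝ := open Classical in
  if s.1 then s.2 else r + s.2

/-- Value of a register after `t` steps; step `t` sees block `μ t`. -/
noncomputable def sv (b : ℝ) (p : ℕ → A → Prop × ℝ) (μ : ℕ → ℕ) (X : ℕ → A) : ℕ → ℝ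
  | 0 => b
  | t + 1 => app (p t (X (μ t))) (sv b p μ X t)

lemma sv_congr {b : ℝ} {p p' : ℕ → A → Prop × ℝ} {μ : ℕ → ℕ} {X Y : ℕ → A} : ∀ T,
    (∀ t < T, p t (X (μ t)) = p' t (Y (μ t))) → sv b p μ X T = sv b p' μ Y T := by
  intro T
  induction T with
  | zero => intro _; rfl
  | succ T ih =>
    intro h
    rw [sv, sv, ih (fun t ht => h t (by omega)), h T (by omega)]

/-- Resets of a block. -/
def bR (p : ℕ → A → Prop × ℝ) (μ : ℕ → ℕ) (T j : ℕ) (a : A) : Prop :=
  ∃ t < T, μ t = j ∧ (p t a).1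

/-- Value of a block. -/
noncomputable def bf (p : ℕ → A → Prop × ℝ) (μ : ℕ → ℕ) : ℕ → ℕ → A → ℝ
  | 0, _, _ => 0
  | T + 1, j, a => if μ T = j then app (p T a) (bf p μ T j a) else bf p μ T j a

lemma bf_zero (p : ℕ → A → Prop × ℝ) (μ : ℕ → ℕ) (j : ℕ) (a : A) : ∀ T,
    (∀ t < T, μ t ≠ j) → bf p μ T j a = 0 := by
  intro T
  induction T with
  | zero => intro _; rfl
  | succ T ih =>
    intro h
    rw [bf, if_neg (h T (by omega)), ih fun t ht => h t (by omega)]

lemma vl_idle (b : ℝ) (R : ℕ → A → Prop) (f : ℕ → A → ℝ) (X : ℕ → A) (J : ℕ) : ∀ d,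
    (∀ j, J ≤ j → j < J + d → ¬ R j (X j)) → (∀ j, J ≤ j → j < J + d → f j (X j) = 0) →
    vl b R f X (J + d) = vl b R f X J := by
  classical
  intro d
  induction d with
  | zero => intro _ _; rfl
  | succ d ih =>
    intro h1 h2
    rw [← Nat.add_assoc, vl, if_neg (h1 _ (by omega) (by omega)), h2 _ (by omega) (by omega),
      ih (fun j h3 h4 => h1 j h3 (by omega)) (fun j h3 h4 => h2 j h3 (by omega)), add_zero]

lemma sv_block (b : ℝ) (p : ℕ → A → Prop × ℝ) {μ : ℕ → ℕ} (hμ : Monotone μ) (X : ℕ → A) : ∀ T,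
    vl b (bR p μ T) (bf p μ T) X (μ (T - 1) + 1) = sv b p μ X T := by
  classical
  intro T
  induction T with
  | zero =>
    have h := vl_idle b (bR p μ 0) (bf p μ 0) X 0 (μ (0 - 1) + 1)
      (fun j _ _ => by rintro ⟨t, ht, _⟩; omega) (fun j _ _ => rfl)
    rw [Nat.zero_add] at h
    rw [h]
    rfl
  | succ T ih =>
    rw [Nat.add_sub_cancel]
    have h1 : vl b (bR p μ T) (bf p μ T) X (μ T + 1) =
        vl b (bR p μ T) (bf p μ T) X (μ (T - 1) + 1) := by
      obtain ⟨d, hd⟩ := Nat.exists_eq_add_of_le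
        (show μ (T - 1) + 1 ≤ μ T + 1 by have := hμ (show T - 1 ≤ T by omega); omega)
      rw [hd]
      apply vl_idle
      · rintro j hj _ ⟨t, ht, h3, _⟩
        have := hμ (show t ≤ T - 1 by omega)
        omega
      · intro j hj _
        apply bf_zero
        intro t ht
        have := hμ (show t ≤ T - 1 by omega)
        omega
    rw [← h1] at ih
    have h2 : vl b (bR p μ (T + 1)) (bf p μ (T + 1)) X (μ T) =
        vl b (bR p μ T) (bf p μ T) X (μ T) := by
      apply vl_congr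
      · intro j hj
        unfold bR
        constructor
        · rintro ⟨t, ht, h3, h4⟩
          refine ⟨t, ?_, h3, h4⟩
          rcases Nat.lt_succ_iff_lt_or_eq.mp ht with h5 | h5
          · exact h5
          · subst h5; omega
        · rintro ⟨t, ht, h3⟩; exact ⟨t, by omega, h3⟩
      · intro j hj
        rw [bf, if_neg (by omega)]
    rw [vl] at ih
    rw [vl, h2, sv, ← ih]
    have h3 : bR p μ (T + 1) (μ T) (X (μ T)) ↔ (bR p μ T (μ T) (X (μ T)) ∨ (p T (X (μ T))).1) := by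
      unfold bR
      constructor
      · rintro ⟨t, ht, h3, h4⟩
        rcases Nat.lt_succ_iff_lt_or_eq.mp ht with h5 | h5
        · exact Or.inl ⟨t, h5, h3, h4⟩
        · subst h5; exact Or.inr h4
      · rintro (⟨t, ht, h3⟩ | h)
        · exact ⟨t, by omega, h3⟩
        · exact ⟨T, by omega, rfl, h⟩
    have h4 : bf p μ (T + 1) (μ T) (X (μ T)) = app (p T (X (μ T))) (bf p μ T (μ T) (X (μ T))) := by
      rw [bf, if_pos rfl]
    rw [h4]
    simp only [h3, app]
    by_cases c1 : (p T (X (μ T))).1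
    · simp [c1]
    · by_cases c2 : bR p μ T (μ T) (X (μ T))
      · simp [c1, c2]
      · simp only [c1, c2, or_self, if_false]
        ring

lemma sv_block' (b : ℝ) (p : ℕ → A → Prop × ℝ) {μ : ℕ → ℕ} (hμ : Monotone μ) (X : ℕ → A)
    (T M : ℕ) (hM : ∀ t < T, μ t < M) : vl b (bR p μ T) (bf p μ T) X M = sv b p μ X T := by
  rcases Nat.eq_zero_or_pos T with h | h
  · subst h
    have h1 := vl_idle b (bR p μ 0) (bf p μ 0) X 0 M
      (fun j _ _ => by rintro ⟨t, ht, _⟩; omega) (fun j _ _ => rfl)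
    rw [Nat.zero_add] at h1
    rw [h1]
    rfl
  · rw [← sv_block b p hμ X T]
    have h1 := hM (T - 1) (by omega)
    obtain ⟨d, hd⟩ := Nat.exists_eq_add_of_le (show μ (T - 1) + 1 ≤ M from h1)
    rw [hd]
    apply vl_idle
    · rintro j hj _ ⟨t, ht, h3, _⟩
      have := hμ (show t ≤ T - 1 by omega)
      omega
    · intro j hj _
      apply bf_zero
      intro t ht
      have := hμ (show t ≤ T - 1 by omega)
      omega

/-- The test function of a system of register programs. -/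
noncomputable def Qp {N : ℕ} (M : ℕ) (ex : ℕ → A → Prop) (n : ℕ) (μ : ℕ → ℕ) (b : Fin N → ℝ)
    (p : Fin N → ℕ → A → Prop × ℝ) (σ : Fin N → Bool) (θ : Fin N → ℝ) (X : ℕ → A) : ℝ :=
  P0 (cnt ex 0 M X) * ∏ i, sg (σ i) (θ i) (sv (b i) (p i) μ X n)

end

theorem clS (N : ℕ) (H ε : ℝ) (hε : 0 < ε) : ∃ k : ℕ, ∀ (A : Type) [Fintype A] [Nonempty A]
    (M : ℕ) (ex : ℕ → A → Prop) (n : ℕ) (μ : ℕ → ℕ) (b : Fin N → ℝ)
    (p : Fin N → ℕ → A → Prop × ℝ) (σ : Fin N → Bool) (θ : Fin N → ℝ),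
    Monotone μ → (∀ t < n, μ t < M) → ∑ j ∈ range M, haz ex j ≤ H →
    ∃ g ∈ Jun A M k, (∀ X, Qp M ex n μ b p σ θ X ≤ g X) ∧
      E M g ≤ E M (Qp M ex n μ b p σ θ) + ε := by
  obtain ⟨k, hk⟩ := cl_all N H ε hε
  refine ⟨k, fun A _ _ M ex n μ b p σ θ hμ hM hex => ?_⟩
  obtain ⟨g, h1, h2, h3⟩ := hk A M ex b (fun i => bR (p i) μ n) (fun i => bf (p i) μ n) σ θ
    (fun i hi => absurd (mem_univ i) hi) hex
  have e : ∀ X, Qs M ex b (fun i => bR (p i) μ n) (fun i => bf (p i) μ n) σ θ X =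
      Qp M ex n μ b p σ θ X := by
    intro X
    unfold Qs Qp
    congr 1
    refine Finset.prod_congr rfl fun i _ => ?_
    rw [sv_block' (b i) (p i) hμ X n M hM]
  refine ⟨g, h1, fun X => by rw [← e]; exact h2 X, ?_⟩
  rw [← E_congr e]
  exact h3

end Pool.Agent.H73.HS
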