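import Pool.Agent.H73.HS.Fix

/-!
Registers with resets.
-/

open Finset
open scoped BigOperators

namespace Pool.Agent.H73.HS

open Pool.Agent.H73.FW

/-- Outcome `σ` of the comparison `θ ≤ v`. -/
noncomputable def sg (σ : Bool) (θ v : ℝ) : ℝ :=
  if σ then (if θ ≤ v then 1 else 0) else (if v < θ then 1 else 0)

lemma sg_nonneg (σ : Bool) (θ v : ℝ) : 0 ≤ sg σ θ v := by unfold sg; split_ifs <;> norm_num
lemma sg_le_one (σ : Bool) (θ v : ℝ) : sg σ θ v ≤ 1 := by unfold sg; split_ifs <;> norm_num

section sys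

variable {A : Type*}

/-- Value of a register after the first blocks. -/
noncomputable def vl (b : ℝ) (R : ℕ → A → Prop) (f : ℕ → A → ℝ) (X : ℕ → A) : ℕ → ℝ
  | 0 => b
  | j + 1 => open Classical in
      if R j (X j) then f j (X j) else vl b R f X j + f j (X j)

lemma vl_congr {b : ℝ} {R R' : ℕ → A → Prop} {f f' : ℕ → A → ℝ} {X Y : ℕ → A} : ∀ J,
    (∀ j < J, (R j (X j) ↔ R' j (Y j))) → (∀ j < J, f j (X j) = f' j (Y j)) →
    vl b R f X J = vl b R' f' Y J := by
  classical
  intro J
  induction J with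
  | zero => intro _ _; rfl
  | succ J ih =>
    intro h1 h2
    rw [vl, vl, ih (fun j hj => h1 j (by omega)) (fun j hj => h2 j (by omega)), h2 J (by omega)]
    simp only [h1 J (by omega)]

lemma vl_no (b : ℝ) (R : ℕ → A → Prop) (f : ℕ → A → ℝ) (X : ℕ → A) : ∀ J,
    (∀ j < J, ¬ R j (X j)) → vl b R f X J = b + ∑ j ∈ range J, f j (X j) := by
  classical
  intro J
  induction J with
  | zero => intro _; simp [vl]
  | succ J ih =>
    intro h
    rw [vl, if_neg (h J (by omega)), ih (fun j hj => h j (by omega)), Finset.sum_range_succ]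
    ring

lemma vl_last (b : ℝ) (R : ℕ → A → Prop) (f : ℕ → A → ℝ) (X : ℕ → A) (j : ℕ) (hR : R j (X j)) :
    ∀ d, (∀ l, j < l → l < j + 1 + d → ¬ R l (X l)) →
    vl b R f X (j + 1 + d) = ∑ l ∈ Ico j (j + 1 + d), f l (X l) := by
  classical
  intro d
  induction d with
  | zero => intro _; rw [Nat.add_zero, vl, if_pos hR]; simp
  | succ d ih =>
    intro h
    rw [show j + 1 + (d + 1) = j + 1 + d + 1 by ring, vl, if_neg (h _ (by omega) (by omega)),
      ih (fun l h1 h2 => h l h1 (by omega)), Finset.sum_Ico_succ_top (by omega)]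

/-- Decomposition with respect to the last hit. -/
lemma last_decomp (ρ : ℕ → A → Prop) (J0 : ℕ) (X : ℕ → A) : ∀ M, J0 ≤ M →
    ∑ j ∈ Ico J0 M, ind ρ j (X j) * P0 (cnt ρ (j + 1) M X) + P0 (cnt ρ J0 M X) = 1 := by
  classical
  intro M hM
  induction M, hM using Nat.le_induction with
  | base => simp [cnt_self, P0]
  | succ M hM ih =>
    rw [Finset.sum_Ico_succ_top hM, cnt_self]
    by_cases h : ρ M (X M)
    · have h1 : ∀ s ≤ M, P0 (cnt ρ s (M + 1) X) = 0 := by
        intro s hs
        rw [cnt_succ ρ hs, if_pos h]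
        unfold P0
        rw [if_neg (by omega)]
      rw [h1 J0 hM]
      have h2 : ∑ j ∈ Ico J0 M, ind ρ j (X j) * P0 (cnt ρ (j + 1) (M + 1) X) = 0 := by
        refine Finset.sum_eq_zero fun j hj => ?_
        rw [Finset.mem_Ico] at hj
        rw [h1 (j + 1) (by omega), mul_zero]
      rw [h2]
      unfold ind P0
      rw [if_pos h]
      simp
    · have h1 : ∀ s ≤ M, P0 (cnt ρ s (M + 1) X) = P0 (cnt ρ s M X) := by
        intro s hs
        rw [cnt_succ ρ hs, if_neg h, Nat.add_zero]
      rw [h1 J0 hM]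
      have h2 : ∑ j ∈ Ico J0 M, ind ρ j (X j) * P0 (cnt ρ (j + 1) (M + 1) X) =
          ∑ j ∈ Ico J0 M, ind ρ j (X j) * P0 (cnt ρ (j + 1) M X) := by
        refine Finset.sum_congr rfl fun j hj => ?_
        rw [Finset.mem_Ico] at hj
        rw [h1 (j + 1) (by omega)]
      rw [h2]
      have h3 : ind ρ M (X M) = 0 := by unfold ind; rw [if_neg h]
      rw [h3, zero_mul, add_zero]
      exact ih

/-- Freezing one coordinate. -/
def fz {β : Type*} (j : ℕ) (a : A) (F : ℕ → A → β) (l : ℕ) (x : A) : β := F l (if l = j then a else x)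

lemma fz_self {β : Type*} (j : ℕ) (F : ℕ → A → β) (X : ℕ → A) (l : ℕ) :
    fz j (X j) F l (X l) = F l (X l) := by
  unfold fz
  split_ifs with h
  · rw [h]
  · rfl

lemma fz_dep {β : Type*} (j : ℕ) (a : A) (F : ℕ → A → β) (X Y : ℕ → A)
    (H : ∀ l ∈ {l | l ≠ j}, X l = Y l) (l : ℕ) : fz j a F l (X l) = fz j a F l (Y l) := by
  unfold fz
  split_ifs with h
  · rfl
  · rw [H l h]

lemma cnt_congr {ρ ρ' : ℕ → A → Prop} {s M : ℕ} {X Y : ℕ → A}
    (h : ∀ l, s ≤ l → l < M → (ρ l (X l) ↔ ρ' l (Y l))) : cnt ρ s M X = cnt ρ' s M Y := by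
  classical
  unfold cnt
  congr 1
  ext l
  simp only [Finset.mem_filter, Finset.mem_Ico]
  constructor
  · rintro ⟨h1, h2⟩; exact ⟨h1, (h l h1.1 h1.2).mp h2⟩
  · rintro ⟨h1, h2⟩; exact ⟨h1, (h l h1.1 h1.2).mpr h2⟩

lemma P0_eq (ρ : ℕ → A → Prop) (s M : ℕ) (X : ℕ → A) [Decidable (∀ l, s ≤ l → l < M → ¬ ρ l (X l))] :
    P0 (cnt ρ s M X) = if ∀ l, s ≤ l → l < M → ¬ ρ l (X l) then 1 else 0 := by
  classical
  unfold P0
  congr 1
  apply propext
  unfold cnt
  rw [Finset.card_eq_zero, Finset.filter_eq_empty_iff]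
  constructor
  · intro h l h1 h2; exact h (Finset.mem_Ico.mpr ⟨h1, h2⟩)
  · intro h l hl; rw [Finset.mem_Ico] at hl; exact h l hl.1 hl.2

variable {m : ℕ}

/-- The test function of a system of registers. -/
noncomputable def Qs (M : ℕ) (ex : ℕ → A → Prop) (b : Fin m → ℝ) (R : Fin m → ℕ → A → Prop)
    (f : Fin m → ℕ → A → ℝ) (σ : Fin m → Bool) (θ : Fin m → ℝ) (X : ℕ → A) : ℝ :=
  P0 (cnt ex 0 M X) * ∏ i, sg (σ i) (θ i) (vl (b i) (R i) (f i) X M)

lemma Qs_nonneg (M : ℕ) (ex : ℕ → A → Prop) (b : Fin m → ℝ) (R : Fin m → ℕ → A → Prop)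
    (f : Fin m → ℕ → A → ℝ) (σ : Fin m → Bool) (θ : Fin m → ℝ) (X : ℕ → A) :
    0 ≤ Qs M ex b R f σ θ X :=
  mul_nonneg (P0_nonneg _) (Finset.prod_nonneg fun i _ => sg_nonneg _ _ _)

lemma Qs_le_one (M : ℕ) (ex : ℕ → A → Prop) (b : Fin m → ℝ) (R : Fin m → ℕ → A → Prop)
    (f : Fin m → ℕ → A → ℝ) (σ : Fin m → Bool) (θ : Fin m → ℝ) (X : ℕ → A) :
    Qs M ex b R f σ θ X ≤ 1 := by
  unfold Qs
  have h1 : P0 (cnt ex 0 M X) ≤ 1 := by unfold P0; split_ifs <;> norm_num
  have h2 : ∏ i, sg (σ i) (θ i) (vl (b i) (R i) (f i) X M) ≤ 1 :=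
    Finset.prod_le_one (fun i _ => sg_nonneg _ _ _) (fun i _ => sg_le_one _ _ _)
  exact mul_le_one₀ h1 (Finset.prod_nonneg fun i _ => sg_nonneg _ _ _) h2

end sys

/-- A gap below a threshold. -/
lemma exists_gap {A : Type*} [Fintype A] [Nonempty A] (M : ℕ) (f : ℕ → A → ℝ) (b θ : ℝ) :
    ∃ δ > 0, ∀ X : ℕ → A, b + ∑ j ∈ range M, f j (X j) < θ →
      b + ∑ j ∈ range M, f j (X j) ≤ θ - δ := by
  classical
  have key : ∀ I : Finset (Fin M → A), ∃ δ > 0, ∀ u ∈ I, b + ∑ j : Fin M, f j (u j) < θ →
      b + ∑ j : Fin M, f j (u j) ≤ θ - δ := by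
    intro I
    induction I using Finset.induction_on with
    | empty => exact ⟨1, one_pos, by simp⟩
    | insert u I _ ih =>
      obtain ⟨δ, hδ, h⟩ := ih
      by_cases hu : b + ∑ j : Fin M, f j (u j) < θ
      · refine ⟨min δ (θ - (b + ∑ j : Fin M, f j (u j))), lt_min hδ (by linarith), ?_⟩
        intro v hv hv0
        rcases Finset.mem_insert.mp hv with rfl | hv
        · have := min_le_right δ (θ - (b + ∑ j : Fin M, f j (v j)))
          linarith
        · have := h v hv hv0
          have := min_le_left δ (θ - (b + ∑ j : Fin M, f j (u j)))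
          linarith
      · refine ⟨δ, hδ, ?_⟩
        intro v hv hv0
        rcases Finset.mem_insert.mp hv with rfl | hv
        · exact absurd hv0 hu
        · exact h v hv hv0
  obtain ⟨δ, hδ, h⟩ := key univ
  refine ⟨δ, hδ, fun X hX => ?_⟩
  have e : ∑ j ∈ range M, f j (X j) = ∑ j : Fin M, f j ((fun i : Fin M => X i) j) :=
    Finset.sum_range (fun j => f j (X j))
  rw [e] at hX ⊢
  exact h _ (mem_univ _) hX

/-- Upper bounds exist for systems in which only the registers in `S` may be reset. -/
def Cl (m : ℕ) (S : Finset (Fin m)) : Prop :=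
  ∀ H ε : ℝ, 0 < ε → ∃ k : ℕ, ∀ (A : Type) [Fintype A] [Nonempty A] (M : ℕ) (ex : ℕ → A → Prop)
    (b : Fin m → ℝ) (R : Fin m → ℕ → A → Prop) (f : Fin m → ℕ → A → ℝ) (σ : Fin m → Bool)
    (θ : Fin m → ℝ), (∀ i ∉ S, ∀ j a, ¬ R i j a) → ∑ j ∈ range M, haz ex j ≤ H →
    ∃ g ∈ Jun A M k, (∀ X, Qs M ex b R f σ θ X ≤ g X) ∧ E M g ≤ E M (Qs M ex b R f σ θ) + ε

theorem cl_empty (m : ℕ) : Cl m ∅ := by
  classical
  intro H ε hε
  obtain ⟨k, hk⟩ := lemH m H ε hε
  refine ⟨k, fun A _ _ M ex b R f σ θ hR hex => ?_⟩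
  choose δ hδ hδ2 using fun i => exists_gap M (f i) (b i) (θ i)
  obtain ⟨g, hg1, hg2, hg3⟩ := hk A M ex (fun i j a => if σ i then f i j a else -f i j a)
    (fun i => if σ i then b i - θ i else θ i - δ i - b i) hex
  have hQ : ∀ X, Qs M ex b R f σ θ X = P0 (cnt ex 0 M X) *
      ∏ i, (if 0 ≤ (if σ i then b i - θ i else θ i - δ i - b i) +
        ∑ j ∈ range M, (if σ i then f i j (X j) else -f i j (X j)) then (1 : ℝ) else 0) := by
    intro X
    unfold Qs
    congr 1
    refine Finset.prod_congr rfl fun i _ => ?_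
    rw [vl_no _ _ _ _ _ fun j _ => hR i (by simp) j (X j)]
    unfold sg
    by_cases h : σ i = true
    · simp only [h, if_true]
      congr 1
      apply propext
      constructor <;> intro h2 <;> linarith
    · simp only [h, if_false, Bool.false_eq_true, Finset.sum_neg_distrib]
      congr 1
      apply propext
      constructor
      · intro h2
        have := hδ2 i X h2
        linarith
      · intro h2
        have := hδ i
        linarith
  refine ⟨g, hg1, fun X => ?_, ?_⟩
  · rw [hQ]; exact hg2 X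
  · have e : E M (Qs M ex b R f σ θ) = _ := E_congr hQ
    rw [e]
    exact hg3

theorem cl_insert (m : ℕ) (S : Finset (Fin m)) (i0 : Fin m) (hS : Cl m S) :
    Cl m (insert i0 S) := by
  classical
  intro H ε hε
  -- parameters
  obtain ⟨C, hC1, hC2⟩ : ∃ C : ℝ, 0 ≤ C ∧ Real.exp (-(C - 1)) ≤ ε / 4 := by
    refine ⟨1 + max 0 (-Real.log (ε / 4)), by positivity, ?_⟩
    have h1 : Real.exp (Real.log (ε / 4)) = ε / 4 := Real.exp_log (by positivity)
    rw [← h1]
    apply Real.exp_le_exp.mpr
    rw [h1]
    have := le_max_right 0 (-Real.log (ε / 4))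
    linarith
  obtain ⟨t, ht⟩ := exists_small_pow (Real.exp (2 * C)) (ε / 4) (by positivity)
  set ε1 : ℝ := ε / (4 * (C + 1)) with hε1
  have hε1p : 0 < ε1 := by positivity
  have hCε : C * ε1 ≤ ε / 4 := by
    rw [hε1, mul_div_assoc', div_le_div_iff₀ (by positivity) (by norm_num)]
    nlinarith
  have hε14 : ε1 ≤ ε / 4 := by
    rw [hε1]
    apply div_le_div_of_nonneg_left hε.le (by norm_num) (by linarith)
  obtain ⟨k, hk⟩ := hS (H + 1 + C) ε1 hε1p
  refine ⟨k + 1 + 2 * t, fun A _ _ M ex b R f σ θ hR hex => ?_⟩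
  set ρ := R i0 with hρ
  obtain ⟨J0, hJ1, hJ2, hJ3⟩ := cutoff_right (haz ρ) (haz_le_one ρ) C hC1 M
  -- the frozen systems
  set ex' : ℕ → A → ℕ → A → Prop := fun j a l x => fz j a ex l x ∨ (j < l ∧ ρ l x) with hex'
  set b' : Fin m → ℝ := fun i => if i = i0 then 0 else b i with hb'
  set R' : ℕ → A → Fin m → ℕ → A → Prop := fun j a i l x => i ≠ i0 ∧ fz j a (R i) l x with hR'
  set f' : ℕ → A → Fin m → ℕ → A → ℝ := fun j a i l x =>
    if i = i0 ∧ l < j then 0 else fz j a (f i) l x with hf'
  set Q' : ℕ → A → (ℕ → A) → ℝ := fun j a => Qs M (ex' j a) b' (R' j a) (f' j a) σ θ with hQ'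
  have hdep : ∀ j a, DepOn {l | l ≠ j} (Q' j a) := by
    intro j a X Y Hxy
    simp only [hQ', Qs]
    have h1 : ∀ l, (ex' j a l (X l) ↔ ex' j a l (Y l)) := by
      intro l
      simp only [hex']
      rw [fz_dep j a ex X Y Hxy l]
      by_cases hl : l = j
      · subst hl; simp
      · rw [Hxy l hl]
    rw [cnt_congr fun l _ _ => h1 l]
    congr 1
    refine Finset.prod_congr rfl fun i _ => ?_
    congr 1
    apply vl_congr
    · intro l _
      simp only [hR']
      rw [fz_dep j a (R i) X Y Hxy l]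
    · intro l _
      simp only [hf']
      rw [fz_dep j a (f i) X Y Hxy l]
  -- the terms of the decomposition
  have hterm : ∀ j, j < M → ∀ X, ind ρ j (X j) * (P0 (cnt ρ (j + 1) M X) * Qs M ex b R f σ θ X) =
      ind ρ j (X j) * Q' j (X j) X := by
    intro j hj X
    by_cases h : ρ j (X j)
    · congr 1
      simp only [hQ', Qs]
      by_cases h2 : ∀ l, j + 1 ≤ l → l < M → ¬ ρ l (X l)
      · rw [P0_eq ρ, if_pos h2, one_mul]
        have h3 : cnt ex 0 M X = cnt (ex' j (X j)) 0 M X := by
          apply cnt_congr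
          intro l _ hl
          simp only [hex']
          rw [fz_self]
          constructor
          · exact Or.inl
          · rintro (h4 | ⟨h4, h5⟩)
            · exact h4
            · exact absurd h5 (h2 l (by omega) hl)
        rw [h3]
        congr 1
        refine Finset.prod_congr rfl fun i _ => ?_
        congr 1
        by_cases hi : i = i0
        · subst hi
          obtain ⟨d, hd⟩ := Nat.exists_eq_add_of_le (show j + 1 ≤ M from hj)
          have h4 : vl (b i) (R i) (f i) X M = ∑ l ∈ Ico j M, f i l (X l) := by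
            rw [hd]
            exact vl_last (b i) (R i) (f i) X j h d fun l h5 h6 => h2 l (by omega) (by omega)
          rw [h4, vl_no]
          · simp only [hb', if_true, zero_add]
            rw [Finset.range_eq_Ico, ← Finset.sum_Ico_consecutive _ (Nat.zero_le j) hj.le]
            have h5 : ∑ l ∈ Ico 0 j, f' j (X j) i l (X l) = 0 := by
              refine Finset.sum_eq_zero fun l hl => ?_
              rw [Finset.mem_Ico] at hl
              simp only [hf']
              rw [if_pos ⟨trivial, hl.2⟩]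
            rw [h5, zero_add]
            refine Finset.sum_congr rfl fun l hl => ?_
            rw [Finset.mem_Ico] at hl
            simp only [hf']
            rw [if_neg (by omega), fz_self]
          · intro l _ hl
            simp only [hR'] at hl
            exact hl.1 rfl
        · simp only [hb', if_neg hi]
          apply vl_congr
          · intro l _
            simp only [hR']
            rw [fz_self]
            simp [hi]
          · intro l _
            simp only [hf']
            rw [if_neg (by tauto), fz_self]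
      · rw [P0_eq ρ, if_neg h2, zero_mul]
        have h3 : P0 (cnt (ex' j (X j)) 0 M X) = 0 := by
          push Not at h2
          obtain ⟨l, h4, h5, h6⟩ := h2
          rw [P0_eq (ex' j (X j)), if_neg]
          intro h7
          exact h7 l (by omega) h5 (Or.inr ⟨by omega, h6⟩)
        rw [h3, zero_mul]
    · have h1 : ind ρ j (X j) = 0 := by unfold ind; rw [if_neg h]
      rw [h1, zero_mul, zero_mul]
  -- hazards
  have hfz : ∀ j a, ∑ l ∈ range M, haz (fz j a ex) l ≤ H + 1 := by
    intro j a
    have h1 : ∀ l, haz (fz j a ex) l ≤ haz ex l + if l = j then 1 else 0 := by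
      intro l
      by_cases hl : l = j
      · rw [if_pos hl]
        have := haz_le_one (fz j a ex) l
        have := haz_nonneg ex l
        linarith
      · rw [if_neg hl, add_zero]
        apply le_of_eq
        unfold haz ind fz
        simp only [hl, if_false]
    refine (Finset.sum_le_sum fun l _ => h1 l).trans ?_
    rw [Finset.sum_add_distrib, Finset.sum_ite_eq']
    have : (if j ∈ range M then (1 : ℝ) else 0) ≤ 1 := by split_ifs <;> norm_num
    linarith
  have hexh : ∀ j, J0 ≤ j → j < M → ∀ a, ∑ l ∈ range M, haz (ex' j a) l ≤ H + 1 + C := by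
    intro j hj hj' a
    have h1 : ∀ l, haz (ex' j a) l ≤ haz (fz j a ex) l + if j < l then haz ρ l else 0 := by
      intro l
      unfold haz
      by_cases hl : j < l
      · rw [if_pos hl, ← Finset.expect_add_distrib]
        refine Finset.expect_le_expect fun x _ => ?_
        have h2 := ind_nonneg (fz j a ex) l x
        have h3 := ind_nonneg ρ l x
        by_cases h4 : ex' j a l x
        · have h5 : ind (ex' j a) l x = 1 := by unfold ind; rw [if_pos h4]
          rw [h5]
          rcases h4 with h4 | ⟨_, h4⟩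
          · have : ind (fz j a ex) l x = 1 := by unfold ind; rw [if_pos h4]
            linarith
          · have : ind ρ l x = 1 := by unfold ind; rw [if_pos h4]
            linarith
        · have h5 : ind (ex' j a) l x = 0 := by unfold ind; rw [if_neg h4]
          rw [h5]
          linarith
      · rw [if_neg hl, add_zero]
        refine Finset.expect_le_expect fun x _ => ?_
        unfold ind
        simp only [hex', hl, false_and, or_false]
        exact le_rfl
    refine (Finset.sum_le_sum fun l _ => h1 l).trans ?_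
    rw [Finset.sum_add_distrib]
    have h2 : ∑ l ∈ range M, (if j < l then haz ρ l else 0) ≤ ∑ l ∈ Ico J0 M, haz ρ l := by
      rw [← Finset.sum_filter]
      apply Finset.sum_le_sum_of_subset_of_nonneg
      · intro l hl
        rw [Finset.mem_filter, Finset.mem_range] at hl
        rw [Finset.mem_Ico]
        omega
      · intro l _ _; exact haz_nonneg ρ l
    have := hfz j a
    linarith
  -- bounds for the terms
  have hbd : ∀ j, J0 ≤ j → j < M → ∃ g ∈ Jun A M (k + 1),
      (∀ X, ind ρ j (X j) * Q' j (X j) X ≤ g X) ∧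
      E M g ≤ E M (fun X => ind ρ j (X j) * Q' j (X j) X) + haz ρ j * ε1 := by
    intro j hj hj'
    apply fix hj' (ind ρ j) (fun a => ind_nonneg ρ j a) ε1 (Q' j) (hdep j)
    intro a
    apply hk A M (ex' j a) b' (R' j a) (f' j a) σ θ
    · intro i hi l x hx
      simp only [hR'] at hx
      exact hR i (by rw [Finset.mem_insert]; tauto) _ _ hx.2
    · exact hexh j hj hj' a
  set G : ℕ → (ℕ → A) → ℝ := fun j => if h : J0 ≤ j ∧ j < M then (hbd j h.1 h.2).choose
    else fun _ => 0 with hGdef
  have hG : ∀ j, J0 ≤ j → j < M → G j ∈ Jun A M (k + 1) ∧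
      (∀ X, ind ρ j (X j) * Q' j (X j) X ≤ G j X) ∧
      E M (G j) ≤ E M (fun X => ind ρ j (X j) * Q' j (X j) X) + haz ρ j * ε1 := by
    intro j h1 h2
    simp only [hGdef, h1, h2, and_self, dif_pos]
    exact (hbd j h1 h2).choose_spec
  -- bound for the remaining term
  have hrest : ∃ g ∈ Jun A M (k + 1 + 2 * t), (∀ X, P0 (cnt ρ J0 M X) * Qs M ex b R f σ θ X ≤ g X) ∧
      E M g ≤ E M (fun X => P0 (cnt ρ J0 M X) * Qs M ex b R f σ θ X) + ε / 2 := by
    rcases hJ3 with h0 | h0
    · subst h0
      set ex2 : ℕ → A → Prop := fun l x => ex l x ∨ ρ l x with hex2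
      set R2 : Fin m → ℕ → A → Prop := fun i l x => i ≠ i0 ∧ R i l x with hR2
      have h1 : ∀ X, P0 (cnt ρ 0 M X) * Qs M ex b R f σ θ X = Qs M ex2 b R2 f σ θ X := by
        intro X
        unfold Qs
        by_cases h2 : ∀ l, 0 ≤ l → l < M → ¬ ρ l (X l)
        · rw [P0_eq ρ, if_pos h2, one_mul]
          have h3 : cnt ex 0 M X = cnt ex2 0 M X := by
            apply cnt_congr
            intro l h4 hl
            simp only [hex2]
            have := h2 l h4 hl
            tauto
          rw [h3]
          congr 1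
          refine Finset.prod_congr rfl fun i _ => ?_
          congr 1
          apply vl_congr
          · intro l hl
            simp only [hR2]
            by_cases hi : i = i0
            · subst hi
              have := h2 l (by omega) hl
              simp only [hρ] at this
              tauto
            · tauto
          · intro l _; rfl
        · rw [P0_eq ρ, if_neg h2, zero_mul]
          have h3 : P0 (cnt ex2 0 M X) = 0 := by
            push Not at h2
            obtain ⟨l, h4, h5, h6⟩ := h2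
            rw [P0_eq ex2, if_neg]
            intro h7
            exact h7 l h4 h5 (Or.inr h6)
          rw [h3, zero_mul]
      have h2 : ∑ l ∈ range M, haz ex2 l ≤ H + 1 + C := by
        have h3 : ∀ l, haz ex2 l ≤ haz ex l + haz ρ l := by
          intro l
          unfold haz
          rw [← Finset.expect_add_distrib]
          refine Finset.expect_le_expect fun x _ => ?_
          have h4 := ind_nonneg ex l x
          have h5 := ind_nonneg ρ l x
          by_cases h6 : ex2 l x
          · have h7 : ind ex2 l x = 1 := by unfold ind; rw [if_pos h6]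
            rw [h7]
            rcases h6 with h6 | h6
            · have : ind ex l x = 1 := by unfold ind; rw [if_pos h6]
              linarith
            · have : ind ρ l x = 1 := by unfold ind; rw [if_pos h6]
              linarith
          · have h7 : ind ex2 l x = 0 := by unfold ind; rw [if_neg h6]
            rw [h7]
            linarith
        refine (Finset.sum_le_sum fun l _ => h3 l).trans ?_
        rw [Finset.sum_add_distrib]
        rw [← Finset.range_eq_Ico] at hJ2
        linarith
      obtain ⟨g, hg1, hg2, hg3⟩ := hk A M ex2 b R2 f σ θ (by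
        intro i hi l x hx
        simp only [hR2] at hx
        exact hR i (by rw [Finset.mem_insert]; tauto) _ _ hx.2) h2
      refine ⟨g, FW.Jun.mono (by omega) hg1, fun X => ?_, ?_⟩
      · rw [h1]; exact hg2 X
      · have e : E M (fun X => P0 (cnt ρ 0 M X) * Qs M ex b R f σ θ X) =
          E M (Qs M ex2 b R2 f σ θ) := E_congr h1
        rw [e]
        linarith
    · refine ⟨fun X => T t (cnt ρ J0 M X), FW.Jun.mono (by omega) (T_cnt_jun ρ t hJ1 le_rfl),
        fun X => ?_, ?_⟩
      · calc P0 (cnt ρ J0 M X) * Qs M ex b R f σ θ X ≤ P0 (cnt ρ J0 M X) * 1 :=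
              mul_le_mul_of_nonneg_left (Qs_le_one _ _ _ _ _ _ _ _) (P0_nonneg _)
          _ ≤ _ := by rw [mul_one]; exact P0_le_T t _
      · have h1 := E_T_le (M := M) ρ t hJ1 le_rfl C hJ2
        have h2 := E_P0 (M := M) ρ hJ1 le_rfl
        have h3 : Real.exp (-∑ l ∈ Ico J0 M, haz ρ l) ≤ Real.exp (-(C - 1)) :=
          Real.exp_le_exp.mpr (by linarith)
        have h4 : 0 ≤ E M (fun X => P0 (cnt ρ J0 M X) * Qs M ex b R f σ θ X) :=
          E_nonneg fun X => mul_nonneg (P0_nonneg _) (Qs_nonneg _ _ _ _ _ _ _ _)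
        have h5 : Real.exp (2 * C) / 2 ^ (2 * t + 1) ≤ Real.exp (2 * C) / 2 ^ (2 * t) := by
          apply div_le_div_of_nonneg_left (Real.exp_pos _).le (by positivity)
          exact pow_le_pow_right₀ (by norm_num) (by omega)
        linarith
  obtain ⟨g0, hg01, hg02, hg03⟩ := hrest
  refine ⟨fun X => ∑ j ∈ Ico J0 M, G j X + g0 X, ?_, fun X => ?_, ?_⟩
  · refine FW.Jun.add (FW.Jun.sum _ fun j hj => ?_) hg01
    rw [Finset.mem_Ico] at hj
    exact FW.Jun.mono (by omega) (hG j hj.1 hj.2).1
  · have h1 := last_decomp ρ J0 X M hJ1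
    calc Qs M ex b R f σ θ X = (∑ j ∈ Ico J0 M, ind ρ j (X j) * P0 (cnt ρ (j + 1) M X) +
          P0 (cnt ρ J0 M X)) * Qs M ex b R f σ θ X := by rw [h1, one_mul]
      _ = ∑ j ∈ Ico J0 M, ind ρ j (X j) * Q' j (X j) X +
          P0 (cnt ρ J0 M X) * Qs M ex b R f σ θ X := by
          rw [add_mul, Finset.sum_mul]
          congr 1
          refine Finset.sum_congr rfl fun j hj => ?_
          rw [Finset.mem_Ico] at hj
          rw [mul_assoc, hterm j hj.2]
      _ ≤ _ := by
          refine add_le_add (Finset.sum_le_sum fun j hj => ?_) (hg02 X)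
          rw [Finset.mem_Ico] at hj
          exact (hG j hj.1 hj.2).2.1 X
  · rw [E_add, E_sum]
    have h1 : E M (Qs M ex b R f σ θ) =
        ∑ j ∈ Ico J0 M, E M (fun X => ind ρ j (X j) * Q' j (X j) X) +
          E M (fun X => P0 (cnt ρ J0 M X) * Qs M ex b R f σ θ X) := by
      rw [← E_sum, ← E_add]
      apply E_congr
      intro X
      have h1 := last_decomp ρ J0 X M hJ1
      calc Qs M ex b R f σ θ X = (∑ j ∈ Ico J0 M, ind ρ j (X j) * P0 (cnt ρ (j + 1) M X) +
          P0 (cnt ρ J0 M X)) * Qs M ex b R f σ θ X := by rw [h1, one_mul]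
        _ = _ := by
          rw [add_mul, Finset.sum_mul]
          congr 1
          refine Finset.sum_congr rfl fun j hj => ?_
          rw [Finset.mem_Ico] at hj
          rw [mul_assoc, hterm j hj.2]
    have h2 : ∑ j ∈ Ico J0 M, E M (G j) ≤
        ∑ j ∈ Ico J0 M, E M (fun X => ind ρ j (X j) * Q' j (X j) X) +
        (∑ j ∈ Ico J0 M, haz ρ j) * ε1 := by
      rw [Finset.sum_mul, ← Finset.sum_add_distrib]
      refine Finset.sum_le_sum fun j hj => ?_
      rw [Finset.mem_Ico] at hj
      exact (hG j hj.1 hj.2).2.2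
    have h3 : (∑ j ∈ Ico J0 M, haz ρ j) * ε1 ≤ C * ε1 := mul_le_mul_of_nonneg_right hJ2 hε1p.le
    have e1 : E M (fun X => G 0 X) = E M (G 0) := rfl
    have e2 : ∑ j ∈ Ico J0 M, E M (fun X => G j X) = ∑ j ∈ Ico J0 M, E M (G j) := rfl
    have e3 : E M (fun X => g0 X) = E M g0 := rfl
    rw [e2, e3]
    linarith

theorem cl_all (m : ℕ) : Cl m univ := by
  classical
  have h : ∀ S : Finset (Fin m), Cl m S := by
    intro S
    induction S using Finset.induction_on with
    | empty => exact cl_empty m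
    | insert i S _ ih => exact cl_insert m S i ih
  exact h univ

end Pool.Agent.H73.HS
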