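import Mathlib

/-!
Trigonometric approximation of a one-sided step, and the Taylor polynomials of the exponential.
-/

open Finset
open scoped BigOperators

namespace Pool.Agent.H73.HS

open Complex (I)

/-- Remainder of the exponential series on the imaginary axis. -/
noncomputable def rm (n : ℕ) (θ : ℝ) : ℂ :=
  Complex.exp (θ * I) - ∑ l ∈ range n, ((θ : ℂ) * I) ^ l / (l.factorial : ℂ)

lemma hasDerivAt_line (θ : ℝ) : HasDerivAt (fun θ : ℝ => (θ : ℂ) * I) I θ := by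
  have h := (Complex.ofRealCLM.hasDerivAt (x := θ)).mul_const I
  simpa using h

lemma hasDerivAt_rm (n : ℕ) (θ : ℝ) : HasDerivAt (rm (n + 1)) (rm n θ * I) θ := by
  unfold rm
  have h1 : HasDerivAt (fun θ : ℝ => Complex.exp ((θ : ℂ) * I)) (Complex.exp ((θ : ℂ) * I) * I) θ :=
    (hasDerivAt_line θ).cexp
  have h2 : HasDerivAt (fun θ : ℝ => ∑ l ∈ range (n + 1), ((θ : ℂ) * I) ^ l / (l.factorial : ℂ))
      (∑ l ∈ range (n + 1), ((l : ℂ) * ((θ : ℂ) * I) ^ (l - 1) * I) / (l.factorial : ℂ)) θ := by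
    apply HasDerivAt.fun_sum
    intro l _
    exact ((hasDerivAt_line θ).pow l).div_const _
  have h3 : ∑ l ∈ range (n + 1), ((l : ℂ) * ((θ : ℂ) * I) ^ (l - 1) * I) / (l.factorial : ℂ) =
      (∑ l ∈ range n, ((θ : ℂ) * I) ^ l / (l.factorial : ℂ)) * I := by
    rw [Finset.sum_range_succ', Finset.sum_mul]
    simp only [Nat.cast_zero, zero_mul, zero_div, add_zero, Nat.add_sub_cancel]
    refine Finset.sum_congr rfl fun l _ => ?_
    have h4 : ((l.factorial : ℕ) : ℂ) ≠ 0 := by exact_mod_cast Nat.factorial_ne_zero l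
    have h5 : ((l + 1 : ℕ) : ℂ) ≠ 0 := by exact_mod_cast Nat.succ_ne_zero l
    rw [Nat.factorial_succ, Nat.cast_mul]
    field_simp
  rw [h3] at h2
  have h4 := h1.sub h2
  rw [← sub_mul] at h4
  exact h4

lemma rm_bound_nonneg (n : ℕ) : ∀ θ : ℝ, 0 ≤ θ → ‖rm n θ‖ ≤ θ ^ n / n.factorial := by
  induction n with
  | zero =>
    intro θ _
    unfold rm
    simp [Complex.norm_exp_ofReal_mul_I]
  | succ n ih =>
    intro θ hθ
    refine image_norm_le_of_norm_deriv_right_le_deriv_boundary (f := rm (n + 1)) (a := 0) (b := θ)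
      (f' := fun x => rm n x * I) (B := fun x => x ^ (n + 1) / ((n + 1).factorial : ℝ))
      (B' := fun x => x ^ n / (n.factorial : ℝ)) ?_ ?_ ?_ ?_ ?_ ⟨hθ, le_rfl⟩
    · exact fun x _ => (hasDerivAt_rm n x).continuousAt.continuousWithinAt
    · exact fun x _ => (hasDerivAt_rm n x).hasDerivWithinAt
    · unfold rm
      rw [Finset.sum_range_succ']
      simp
    · intro x
      have h := (hasDerivAt_pow (n + 1) x).div_const ((n + 1).factorial : ℝ)
      have e : x ^ n / (n.factorial : ℝ) =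
          ((n + 1 : ℕ) : ℝ) * x ^ (n + 1 - 1) / ((n + 1).factorial : ℝ) := by
        rw [Nat.factorial_succ, Nat.cast_mul, Nat.add_sub_cancel]
        have h4 : ((n.factorial : ℕ) : ℝ) ≠ 0 := by exact_mod_cast Nat.factorial_ne_zero n
        have h5 : ((n + 1 : ℕ) : ℝ) ≠ 0 := by exact_mod_cast Nat.succ_ne_zero n
        field_simp
      rw [e]
      exact h
    · intro x hx
      rw [norm_mul, Complex.norm_I, mul_one]
      exact ih x hx.1

lemma rm_neg (n : ℕ) (θ : ℝ) : rm n (-θ) = (starRingEnd ℂ) (rm n θ) := by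
  unfold rm
  rw [map_sub, map_sum, ← Complex.exp_conj]
  simp only [map_div₀, map_pow, map_mul, Complex.conj_I, Complex.conj_ofReal, map_natCast,
    Complex.ofReal_neg]
  congr 1
  · ring_nf
  · refine Finset.sum_congr rfl fun l _ => ?_
    ring_nf

lemma rm_bound (n : ℕ) (θ : ℝ) : ‖rm n θ‖ ≤ |θ| ^ n / n.factorial := by
  rcases le_total 0 θ with h | h
  · rw [abs_of_nonneg h]; exact rm_bound_nonneg n θ h
  · have h1 : rm n θ = (starRingEnd ℂ) (rm n (-θ)) := by rw [← rm_neg, neg_neg]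
    rw [h1, RCLike.norm_conj, abs_of_nonpos h]
    exact rm_bound_nonneg n (-θ) (by linarith)

/-- A real trigonometric sum. -/
noncomputable def tri (J : Finset ℤ) (c : ℤ → ℂ) (ω : ℤ → ℝ) (y : ℝ) : ℝ :=
  ∑ m ∈ J, (c m * Complex.exp (((ω m * y : ℝ) : ℂ) * I)).re

/-- coefficients of its Taylor polynomials -/
noncomputable def tco (J : Finset ℤ) (c : ℤ → ℂ) (ω : ℤ → ℝ) (z : ℝ) (l : ℕ) : ℝ :=
  ∑ m ∈ J, (c m * Complex.exp (((ω m * z : ℝ) : ℂ) * I) * (((ω m : ℝ) : ℂ) * I) ^ l /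
    (l.factorial : ℂ)).re

lemma tri_taylor (J : Finset ℤ) (c : ℤ → ℂ) (ω : ℤ → ℝ) (Ω : ℝ) (hΩ : ∀ m ∈ J, |ω m| ≤ Ω)
    (D : ℕ) (z w : ℝ) :
    |∑ l ∈ range D, tco J c ω z l * w ^ l - tri J c ω (z + w)| ≤
      (∑ m ∈ J, ‖c m‖) * ((Ω * |w|) ^ D / D.factorial) := by
  have h1 : ∑ l ∈ range D, tco J c ω z l * w ^ l - tri J c ω (z + w) =
      ∑ m ∈ J, (-(c m * Complex.exp (((ω m * z : ℝ) : ℂ) * I) * rm D (ω m * w))).re := by
    unfold tco tri
    simp only [Finset.sum_mul]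
    rw [Finset.sum_comm, ← Finset.sum_sub_distrib]
    refine Finset.sum_congr rfl fun m _ => ?_
    have h2 : ∀ l ∈ range D, (c m * Complex.exp (((ω m * z : ℝ) : ℂ) * I) *
        (((ω m : ℝ) : ℂ) * I) ^ l / (l.factorial : ℂ)).re * w ^ l =
        (c m * Complex.exp (((ω m * z : ℝ) : ℂ) * I) *
        ((((ω m * w : ℝ) : ℂ) * I) ^ l / (l.factorial : ℂ))).re := by
      intro l _
      rw [← Complex.re_mul_ofReal]
      congr 1
      push_cast
      ring
    rw [Finset.sum_congr rfl h2, ← Complex.re_sum, ← Complex.sub_re, ← Finset.mul_sum]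
    congr 1
    unfold rm
    have h3 : Complex.exp (((ω m * (z + w) : ℝ) : ℂ) * I) =
        Complex.exp (((ω m * z : ℝ) : ℂ) * I) * Complex.exp (((ω m * w : ℝ) : ℂ) * I) := by
      rw [← Complex.exp_add]
      congr 1
      push_cast
      ring
    rw [h3]
    ring
  rw [h1, Finset.sum_mul]
  refine (Finset.abs_sum_le_sum_abs _ _).trans (Finset.sum_le_sum fun m hm => ?_)
  refine (Complex.abs_re_le_norm _).trans ?_
  rw [norm_neg, norm_mul, norm_mul, Complex.norm_exp_ofReal_mul_I, mul_one]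
  apply mul_le_mul_of_nonneg_left _ (norm_nonneg _)
  refine (rm_bound D _).trans ?_
  apply div_le_div_of_nonneg_right _ (by positivity)
  apply pow_le_pow_left₀ (abs_nonneg _)
  rw [abs_mul]
  exact mul_le_mul_of_nonneg_right (hΩ m hm) (abs_nonneg _)

/-- the periodic step -/
noncomputable def stp (K0 : ℝ) (x : AddCircle (8 * K0)) : ℝ :=
  max 0 (min 1 (1 - (‖x - ((K0 : ℝ) : AddCircle (8 * K0))‖ - K0)))

lemma stp_nonneg (K0 : ℝ) (x : AddCircle (8 * K0)) : 0 ≤ stp K0 x := le_max_left _ _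
lemma stp_le_one (K0 : ℝ) (x : AddCircle (8 * K0)) : stp K0 x ≤ 1 :=
  max_le zero_le_one (min_le_left _ _)

lemma stp_one (K0 : ℝ) (hK : 1 ≤ K0) (y : ℝ) (h0 : 0 ≤ y) (h1 : y ≤ 2 * K0) :
    stp K0 (y : AddCircle (8 * K0)) = 1 := by
  unfold stp
  have h2 : |y - K0| ≤ K0 := by rw [abs_le]; constructor <;> linarith
  have h3 : ‖((y - K0 : ℝ) : AddCircle (8 * K0))‖ = |y - K0| := by
    rw [AddCircle.norm_coe_eq_abs_iff _ (by linarith), abs_of_pos (show 0 < 8 * K0 by linarith)]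
    linarith
  rw [← AddCircle.coe_sub, h3, min_eq_left (by linarith), max_eq_right (by norm_num)]

lemma stp_zero (K0 : ℝ) (hK : 1 ≤ K0) (y : ℝ) (h0 : -(2 * K0) ≤ y) (h1 : y ≤ -1) :
    stp K0 (y : AddCircle (8 * K0)) = 0 := by
  unfold stp
  have h2 : |y - K0| = K0 - y := by rw [abs_of_nonpos (by linarith)]; ring
  have h3 : ‖((y - K0 : ℝ) : AddCircle (8 * K0))‖ = |y - K0| := by
    rw [AddCircle.norm_coe_eq_abs_iff _ (by linarith), abs_of_pos (show 0 < 8 * K0 by linarith), h2]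
    linarith
  rw [← AddCircle.coe_sub, h3, h2, max_eq_left]
  refine (min_le_right _ _).trans ?_
  linarith

lemma stp_cont (K0 : ℝ) : Continuous (stp K0) := by
  unfold stp
  fun_prop

theorem trig_exists (K0 η : ℝ) (hK : 1 ≤ K0) (hη : 0 < η) :
    ∃ (J : Finset ℤ) (c : ℤ → ℂ) (ω : ℤ → ℝ), (∀ y, -η ≤ tri J c ω y) ∧
      (∀ y, tri J c ω y ≤ 1 + η) ∧ (∀ y, 0 ≤ y → y ≤ 2 * K0 → 1 - η ≤ tri J c ω y) ∧
      (∀ y, -(2 * K0) ≤ y → y ≤ -1 → tri J c ω y ≤ η) := by
  have : Fact (0 < 8 * K0) := ⟨by linarith⟩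
  let ψ : C(AddCircle (8 * K0), ℂ) :=
    ⟨fun x => ((stp K0 x : ℝ) : ℂ), Complex.continuous_ofReal.comp (stp_cont K0)⟩
  have hψ : ψ ∈ (Submodule.span ℂ (Set.range (fourier (T := 8 * K0)))).topologicalClosure := by
    rw [span_fourier_closure_eq_top]; trivial
  rw [← SetLike.mem_coe, Submodule.topologicalClosure_coe, Metric.mem_closure_iff] at hψ
  obtain ⟨p, hp, hd⟩ := hψ η hη
  rw [SetLike.mem_coe, Finsupp.mem_span_range_iff_exists_finsupp] at hp
  obtain ⟨c, hc⟩ := hp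
  refine ⟨c.support, c, fun m => 2 * Real.pi * m / (8 * K0), ?_⟩
  have hF : ∀ y : ℝ, |tri c.support c (fun m => 2 * Real.pi * m / (8 * K0)) y -
      stp K0 (y : AddCircle (8 * K0))| ≤ η := by
    intro y
    have h1 : tri c.support c (fun m => 2 * Real.pi * m / (8 * K0)) y =
        (p (y : AddCircle (8 * K0))).re := by
      rw [← hc]
      unfold tri
      rw [Finsupp.sum, ContinuousMap.sum_apply, Complex.re_sum]
      refine Finset.sum_congr rfl fun m _ => ?_
      rw [ContinuousMap.smul_apply, fourier_coe_apply, smul_eq_mul]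
      congr 3
      push_cast
      ring
    have h2 : stp K0 (y : AddCircle (8 * K0)) = (ψ (y : AddCircle (8 * K0))).re := by
      show _ = (((stp K0 (y : AddCircle (8 * K0)) : ℝ) : ℂ)).re
      rw [Complex.ofReal_re]
    rw [h1, h2, ← Complex.sub_re]
    refine (Complex.abs_re_le_norm _).trans ?_
    have h3 : ‖(p - ψ) (y : AddCircle (8 * K0))‖ ≤ ‖p - ψ‖ := ContinuousMap.norm_coe_le_norm _ _
    rw [ContinuousMap.sub_apply] at h3
    refine h3.trans ?_
    rw [dist_comm, dist_eq_norm] at hd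
    exact hd.le
  refine ⟨fun y => ?_, fun y => ?_, fun y h0 h1 => ?_, fun y h0 h1 => ?_⟩
  · have h := (abs_le.mp (hF y)).1
    have := stp_nonneg K0 (y : AddCircle (8 * K0))
    linarith
  · have h := (abs_le.mp (hF y)).2
    have := stp_le_one K0 (y : AddCircle (8 * K0))
    linarith
  · have h := (abs_le.mp (hF y)).1
    rw [stp_one K0 hK y h0 h1] at h
    linarith
  · have h := (abs_le.mp (hF y)).2
    rw [stp_zero K0 hK y h0 h1] at h
    linarith

end Pool.Agent.H73.HS
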